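import Pool.Agent.Q222.JD.Upd

/-! # TaskFlip, TaskIter0 (helper150) -/

set_option autoImplicit false

open MeasureTheory ProbabilityTheory Filter Topology
open scoped ENNReal NNReal

namespace Pool.Agent.Q222.JD

theorem taskFlip : TaskFlip := by
  intro Z _ ν _ σ c hσ hmap hc hodd v hv hinv s r
  induction r with
  | zero => simp
  | succ r ih =>
    have hc' : ∀ k : ℕ, Measurable fun ω : ℕ → Z => c (ω k) := fun k =>
      hc.comp (measurable_pi_apply k)
    have mS : Measurable fun ω : ℕ → Z => s - ∑ k ∈ Finset.range r, c (ω k) :=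
      measurable_const.sub (Finset.measurable_fun_sum _ fun k _ => hc' k)
    have mU : Measurable fun ω : ℕ → Z => Function.update ω r (σ (ω r)) := by
      refine measurable_pi_iff.2 fun i => ?_
      by_cases h : i = r
      · subst h
        simp only [Function.update_self]
        exact hσ.comp (measurable_pi_apply i)
      · simp only [Function.update_of_ne h]
        exact measurable_pi_apply i
    have mA : Measurable fun ω : ℕ → Z => v ω *
        ENNReal.ofReal ((s - ∑ k ∈ Finset.range r, c (ω k) - c (ω r)) ^ 2) :=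
      hv.mul ((mS.sub (hc' r)).pow_const 2).ennreal_ofReal
    have mB : Measurable fun ω : ℕ → Z => v ω *
        ENNReal.ofReal ((s - ∑ k ∈ Finset.range r, c (ω k)) ^ 2) :=
      hv.mul (mS.pow_const 2).ennreal_ofReal
    have mC : Measurable fun ω : ℕ → Z => v ω * ENNReal.ofReal (c (ω r) ^ 2) :=
      hv.mul ((hc' r).pow_const 2).ennreal_ofReal
    have I1 : ∫⁻ ω, v ω * ENNReal.ofReal ((s - ∑ k ∈ Finset.range r, c (ω k) - c (ω r)) ^ 2)
          ∂(Measure.infinitePi fun _ : ℕ => ν) =
        ∫⁻ ω, v ω * ENNReal.ofReal ((s - ∑ k ∈ Finset.range r, c (ω k) + c (ω r)) ^ 2)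
          ∂(Measure.infinitePi fun _ : ℕ => ν) := by
      conv_lhs => rw [← taskUpd Z ν σ hσ hmap r]
      rw [lintegral_map mA mU]
      refine lintegral_congr fun ω => ?_
      have e1 : ∑ k ∈ Finset.range r, c ((Function.update ω r (σ (ω r))) k) =
          ∑ k ∈ Finset.range r, c (ω k) := by
        refine Finset.sum_congr rfl fun k hk => ?_
        rw [Function.update_of_ne (by have := Finset.mem_range.1 hk; omega)]
      rw [hinv, e1, Function.update_self, hodd]
      congr 3
      ring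
    have I2 : ∫⁻ ω, v ω * ENNReal.ofReal ((s - ∑ k ∈ Finset.range r, c (ω k) - c (ω r)) ^ 2)
          ∂(Measure.infinitePi fun _ : ℕ => ν) +
        ∫⁻ ω, v ω * ENNReal.ofReal ((s - ∑ k ∈ Finset.range r, c (ω k) + c (ω r)) ^ 2)
          ∂(Measure.infinitePi fun _ : ℕ => ν) =
        2 * (∫⁻ ω, v ω * ENNReal.ofReal ((s - ∑ k ∈ Finset.range r, c (ω k)) ^ 2)
            ∂(Measure.infinitePi fun _ : ℕ => ν) +
          ∫⁻ ω, v ω * ENNReal.ofReal (c (ω r) ^ 2) ∂(Measure.infinitePi fun _ : ℕ => ν)) := by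
      rw [← lintegral_add_left mA, ← lintegral_add_left mB, ← lintegral_const_mul' 2 _ (by simp)]
      refine lintegral_congr fun ω => ?_
      rw [← mul_add, ← mul_add, ← ENNReal.ofReal_add (sq_nonneg _) (sq_nonneg _),
        ← ENNReal.ofReal_add (sq_nonneg _) (sq_nonneg _), ← mul_assoc, mul_comm 2 (v ω), mul_assoc,
        show (2 : ℝ≥0∞) = ENNReal.ofReal 2 by simp, ← ENNReal.ofReal_mul (by norm_num)]
      congr 2
      ring
    rw [← I1, ← two_mul] at I2
    have I3 := (ENNReal.mul_right_inj two_ne_zero ENNReal.ofNat_ne_top).1 I2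
    have e0 : ∀ ω : ℕ → Z, (s - ∑ k ∈ Finset.range (r + 1), c (ω k)) =
        s - ∑ k ∈ Finset.range r, c (ω k) - c (ω r) := by
      intro ω; rw [Finset.sum_range_succ]; ring
    simp_rw [e0]
    rw [I3, ih, ← lintegral_add_right _ mC]
    refine lintegral_congr fun ω => ?_
    rw [Finset.sum_range_succ, ← add_assoc, mul_add (v ω) (_ + _)]

theorem taskIter0 (hE : TaskE) : TaskIter0 := by
  intro α β D μ π hS hA hH
  have key : ∀ n : ℕ, Adm μ ((Phi α β 0 D)^[n] π) ∧ H ((Phi α β 0 D)^[n] π) < ∞ ∧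
      ∑ i ∈ Finset.range n, H ((Phi α β 0 D)^[i + 1] π) + Q α β D μ g ((Phi α β 0 D)^[n] π) ≤
        Q α β D μ g π := by
    intro n
    induction n with
    | zero => simpa using ⟨hA, hH⟩
    | succ n ih =>
      obtain ⟨h1, h2, h3⟩ := ih
      obtain ⟨e1, e2, e3, e4⟩ := hE α β 0 D μ _ hS h1 h2
      rw [Function.iterate_succ_apply']
      refine ⟨e1, e4, ?_⟩
      rw [Finset.sum_range_succ, Function.iterate_succ_apply', add_assoc]
      have e5 : ENNReal.ofReal ((0 : ℝ) ^ 2) = 0 := by simp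
      rw [e5, zero_add] at e2
      exact (add_le_add le_rfl e2).trans h3
  have hfin : Q α β D μ g π < ∞ := (hE α β 0 D μ π hS hA hH).2.2.1
  have hsum : ∑' i, H ((Phi α β 0 D)^[i + 1] π) ≠ ∞ := by
    have : ∑' i, H ((Phi α β 0 D)^[i + 1] π) ≤ Q α β D μ g π := by
      refine ENNReal.tsum_le_of_sum_range_le fun n => ?_
      exact le_self_add.trans (key n).2.2
    exact (this.trans_lt hfin).ne
  have h1 := ENNReal.tendsto_atTop_zero_of_tsum_ne_top hsum
  exact (tendsto_add_atTop_iff_nat 1).1 h1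

end Pool.Agent.Q222.JD
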