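import Pool.Agent.Q222.JD.Stmts

set_option autoImplicit false

open MeasureTheory ProbabilityTheory Filter Topology
open scoped ENNReal NNReal

namespace Pool.Agent.Q222.JD.TaskCont

/-- replace `x` by `max x 0` -/
noncomputable def cl (y : Y) : Y := ((y.1.1, max y.1.2 0), y.2)

theorem W_cl_ge {β : ℝ} (hβ : 0 < β) (y : Y) : 1 ≤ W β (cl y) := by
  unfold W cl
  have h1 : 0 ≤ max y.1.2 0 := le_max_right _ _
  have : 0 ≤ 2 * β * y.2.1 ^ 2 * max y.1.2 0 := by positivity
  simp only
  linarith

theorem W_cl_cont (β : ℝ) : Continuous fun y => W β (cl y) := by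
  unfold W cl
  fun_prop

theorem C_cl_cont {β : ℝ} (hβ : 0 < β) : Continuous fun y => C β (cl y) := by
  unfold C
  refine Continuous.div ?_ (W_cl_cont β) fun y => (lt_of_lt_of_le one_pos (W_cl_ge hβ y)).ne'
  unfold cl
  fun_prop

theorem T_cl_cont {β : ℝ} (hβ : 0 < β) : Continuous fun y => T β (cl y) := by
  unfold T
  refine Continuous.div ?_ (W_cl_cont β) fun y => (lt_of_lt_of_le one_pos (W_cl_ge hβ y)).ne'
  unfold cl
  fun_prop

theorem T_cl_nonneg {β : ℝ} (hβ : 0 < β) (y : Y) : 0 ≤ T β (cl y) :=
  div_nonneg (by positivity) (by linarith [W_cl_ge hβ y])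

/-- the function on finite products -/
noncomputable def hr (β : ℝ) (r : ℕ) (y : Finset.range r → Y) : ℝ × ℝ :=
  (1 - ∑ k, C β (y k), 1 / (1 + ∑ k, T β (y k)))

theorem hr_cl_cont {β : ℝ} (hβ : 0 < β) (r : ℕ) :
    Continuous fun y : Finset.range r → Y => hr β r (fun k => cl (y k)) := by
  unfold hr
  refine Continuous.prodMk ?_ ?_
  · exact continuous_const.sub
      (continuous_finsetSum _ fun k _ => (C_cl_cont hβ).comp (continuous_apply k))
  · refine continuous_const.div (continuous_const.add
      (continuous_finsetSum _ fun k _ => (T_cl_cont hβ).comp (continuous_apply k))) fun y => ?_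
    have : 0 ≤ ∑ k, T β (cl (y k)) := Finset.sum_nonneg fun k _ => T_cl_nonneg hβ _
    exact ne_of_gt (by linarith)

theorem hr_meas (β : ℝ) (r : ℕ) : Measurable (hr β r) := by
  have hW : Measurable (W β) := by unfold W; fun_prop
  have hC : Measurable (C β) := by
    unfold C
    exact Measurable.div (by fun_prop) hW
  have hT : Measurable (T β) := by
    unfold T
    exact Measurable.div (by fun_prop) hW
  unfold hr
  refine Measurable.prodMk ?_ ?_
  · exact measurable_const.sub (Finset.measurable_sum _ fun k _ => hC.comp (measurable_pi_apply k))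
  · exact measurable_const.div (measurable_const.add
      (Finset.measurable_sum _ fun k _ => hT.comp (measurable_pi_apply k)))

theorem out_eq (β : ℝ) (r : ℕ) (ω : ℕ → Y) :
    out β 1 (ω, r) = hr β r ((Finset.range r).restrict ω) := by
  unfold out hr
  simp only [Finset.restrict]
  rw [Finset.sum_coe_sort (Finset.range r) (fun k => C β (ω k)),
    Finset.sum_coe_sort (Finset.range r) (fun k => T β (ω k))]

theorem g_eq (β : ℝ) (r : ℕ) (ν : Measure Y) [IsProbabilityMeasure ν]
    (hν : ∀ᵐ y ∂ν, 0 ≤ y.1.2) (f : BoundedContinuousFunction (ℝ × ℝ) ℝ) :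
    ∫ ω, f (out β 1 (ω, r)) ∂(Measure.infinitePi fun _ : ℕ => ν) =
      ∫ y, f (hr β r (fun k => cl (y k))) ∂(Measure.pi fun _ : Finset.range r => ν) := by
  simp only [out_eq]
  rw [← integral_map (μ := Measure.infinitePi fun _ : ℕ => ν) (φ := (Finset.range r).restrict)
    (f := fun y => f (hr β r y)) (Finset.measurable_restrict _).aemeasurable
    (f.continuous.measurable.comp (hr_meas β r)).aestronglyMeasurable,
    Measure.infinitePi_map_restrict]
  have hae : ∀ᵐ y ∂(Measure.pi fun _ : Finset.range r => ν), ∀ k, 0 ≤ (y k).1.2 := by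
    rw [ae_all_iff]
    intro k
    exact (Measure.quasiMeasurePreserving_eval (fun _ : Finset.range r => ν) k).ae hν
  refine integral_congr_ae ?_
  filter_upwards [hae] with y hy
  congr 2
  funext k
  unfold cl
  rw [max_eq_left (hy k)]

theorem main (hM : TaskMeas) : Pool.Agent.Q222.JD.TaskCont := by
  intro α β D hβ hD π π0 h1 h0 hπ f
  have hform : ∀ ρ : ProbabilityMeasure (ℝ × ℝ), (∀ᵐ z ∂(ρ : Measure (ℝ × ℝ)), 0 ≤ z.2) →
      ∫ z, f z ∂(Phi α β 1 D (ρ : Measure (ℝ × ℝ))) =
      ∫ r, (∫ y, f (hr β r (fun k => cl (y k)))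
        ∂(Measure.pi fun _ : Finset.range r => ing D (ρ : Measure (ℝ × ℝ))))
        ∂(poissonMeasure (2 * α)) := by
    intro ρ hρ
    haveI : IsProbabilityMeasure (ing D (ρ : Measure (ℝ × ℝ))) := by
      unfold ing; infer_instance
    have hae : ∀ᵐ y ∂(ing D (ρ : Measure (ℝ × ℝ))), 0 ≤ y.1.2 := by
      unfold ing
      exact Measure.quasiMeasurePreserving_fst.ae hρ
    unfold Phi seq
    rw [integral_map (hM β 1).aemeasurable f.continuous.aestronglyMeasurable, integral_prod_symm]
    · exact integral_congr_ae (ae_of_all _ fun r => g_eq β r _ hae f)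
    · exact Integrable.of_bound (f.continuous.measurable.comp (hM β 1)).aestronglyMeasurable ‖f‖
        (ae_of_all _ fun z => f.norm_coe_le_norm _)
  rw [hform π0 h0, show (fun n => ∫ z, f z ∂(Phi α β 1 D (π n : Measure (ℝ × ℝ)))) = _ from
    funext fun n => hform (π n) (h1 n)]
  refine tendsto_integral_of_dominated_convergence (fun _ => ‖f‖)
    (fun n => (measurable_of_countable _).aestronglyMeasurable) (integrable_const _)
    (fun n => ae_of_all _ fun r => ?_) (ae_of_all _ fun r => ?_)
  · haveI : IsProbabilityMeasure (ing D (π n : Measure (ℝ × ℝ))) := by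
      unfold ing; infer_instance
    refine (norm_integral_le_of_norm_le_const
      (ae_of_all _ fun y => f.norm_coe_le_norm _)).trans ?_
    simp
  · let D' : ProbabilityMeasure ℝ := ⟨D, hD⟩
    have hν : Tendsto (fun n => (π n).prod (D'.prod D')) atTop (𝓝 (π0.prod (D'.prod D'))) :=
      (ProbabilityMeasure.continuous_prod.tendsto (π0, D'.prod D')).comp
        (hπ.prodMk_nhds tendsto_const_nhds)
    have hT : Tendsto (fun n => ProbabilityMeasure.pi
        (fun _ : Finset.range r => (π n).prod (D'.prod D'))) atTop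
        (𝓝 (ProbabilityMeasure.pi fun _ : Finset.range r => π0.prod (D'.prod D'))) :=
      (ProbabilityMeasure.continuous_pi.tendsto _).comp (tendsto_pi_nhds.2 fun _ => hν)
    have := ProbabilityMeasure.tendsto_iff_forall_integral_tendsto.1 hT
      (f.compContinuous ⟨fun y : Finset.range r → Y => hr β r (fun k => cl (y k)),
        hr_cl_cont hβ r⟩)
    exact this

end Pool.Agent.Q222.JD.TaskCont
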