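import Pool.Agent.Q222.JD.Stmts

set_option autoImplicit false

/-! MP_75c26c_pr, blueprint of helper222: TaskCouple (helper190). -/

open MeasureTheory ProbabilityTheory Filter Topology
open scoped ENNReal NNReal

namespace Pool.Agent.Q222.JD.TaskCouple

open Pool.Agent.Q222.JD

lemma disint (π : Measure (ℝ × ℝ)) [IsProbabilityMeasure π] :
    (π.map Prod.snd) ⊗ₘ (π.map Prod.swap).condKernel = π.map Prod.swap := by
  have h : (π.map Prod.swap).fst = π.map Prod.snd := by
    rw [Measure.fst, Measure.map_map measurable_fst measurable_swap]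
    rfl
  haveI : IsProbabilityMeasure (π.map Prod.swap) := Measure.isProbabilityMeasure_map measurable_swap.aemeasurable
  rw [← h]
  exact Measure.disintegrate _ _

theorem main : Pool.Agent.Q222.JD.TaskCouple := by
  intro π1 π2 h1 h2 heq
  haveI := h1
  haveI := h2
  haveI i1 : IsProbabilityMeasure (π1.map Prod.swap) :=
    Measure.isProbabilityMeasure_map measurable_swap.aemeasurable
  haveI i2 : IsProbabilityMeasure (π2.map Prod.swap) :=
    Measure.isProbabilityMeasure_map measurable_swap.aemeasurable
  haveI i3 : IsProbabilityMeasure (π1.map Prod.snd) :=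
    Measure.isProbabilityMeasure_map measurable_snd.aemeasurable
  have d1 := disint π1
  have d2 := disint π2
  rw [← heq] at d2
  obtain ⟨k1, hk1⟩ : ∃ k, k = (π1.map Prod.swap).condKernel := ⟨_, rfl⟩
  obtain ⟨k2, hk2⟩ : ∃ k, k = (π2.map Prod.swap).condKernel := ⟨_, rfl⟩
  haveI m1 : IsMarkovKernel k1 := by rw [hk1]; infer_instance
  haveI m2 : IsMarkovKernel k2 := by rw [hk2]; infer_instance
  rw [← hk1] at d1
  rw [← hk2] at d2
  refine ⟨((π1.map Prod.snd) ⊗ₘ (k1 ×ₖ k2)).map Prod.swap,
    Measure.isProbabilityMeasure_map measurable_swap.aemeasurable, ?_, ?_⟩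
  · have e : (π1.map Prod.snd) ⊗ₘ k1 = ((π1.map Prod.snd) ⊗ₘ (k1 ×ₖ k2)).map (Prod.map id Prod.fst) := by
      rw [← Measure.compProd_map measurable_fst, ← Kernel.fst_eq, Kernel.fst_prod]
    rw [d1] at e
    rw [Measure.map_map (by fun_prop) measurable_swap]
    have e2 := congrArg (fun ν : Measure (ℝ × ℝ) => ν.map Prod.swap) e
    rw [Measure.map_map measurable_swap measurable_swap, Measure.map_map measurable_swap (by fun_prop)] at e2
    rw [Prod.swap_swap_eq, Measure.map_id] at e2
    exact e2.symm
  · have e : (π1.map Prod.snd) ⊗ₘ k2 = ((π1.map Prod.snd) ⊗ₘ (k1 ×ₖ k2)).map (Prod.map id Prod.snd) := by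
      rw [← Measure.compProd_map measurable_snd, ← Kernel.snd_eq, Kernel.snd_prod]
    rw [d2] at e
    rw [Measure.map_map (by fun_prop) measurable_swap]
    have e2 := congrArg (fun ν : Measure (ℝ × ℝ) => ν.map Prod.swap) e
    rw [Measure.map_map measurable_swap measurable_swap, Measure.map_map measurable_swap (by fun_prop)] at e2
    rw [Prod.swap_swap_eq, Measure.map_id] at e2
    exact e2.symm

end Pool.Agent.Q222.JD.TaskCouple
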