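import Pool.Agent.Q222.JD.Stmts

/-! MP_75c26c_pr, crowd lemma JD.TaskExist (helper37): existence by Prokhorov. -/

set_option autoImplicit false

open MeasureTheory ProbabilityTheory Filter Topology
open scoped ENNReal NNReal

namespace Pool.Agent.Q222.JD.TaskExist

open Pool.Agent.Q222.JD

private lemma measurable_lin (p q : ℝ) : Measurable (lin p q) := by
  unfold lin
  fun_prop

private lemma lin10 : lin 1 0 = fun z : (ℝ × ℝ) × ℝ => (z.1.1, z.2) := by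
  funext z; simp [lin]

private lemma lin01 : lin 0 1 = fun z : (ℝ × ℝ) × ℝ => (z.1.2, z.2) := by
  funext z; simp [lin]

private lemma snd_lin (κ : Measure ((ℝ × ℝ) × ℝ)) (p q : ℝ) :
    (κ.map (lin p q)).map Prod.snd = κ.map Prod.snd := by
  rw [Measure.map_map measurable_snd (measurable_lin p q)]
  rfl

theorem main (hInf : TaskInf) (hTight : TaskTight) (hFatou : TaskFatou) (hSndLim : TaskSndLim)
    (hCont : TaskCont) (hCouple : TaskCouple) (hIter2 : TaskIter2) (hLimit : TaskLimit)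
    (hHd : TaskHd) (hSep : TaskSep) (hPos : TaskPos) : TaskExist := by
  intro α β D μ hS
  haveI := hS.μ1
  haveI := hS.D1
  obtain ⟨hA, hF⟩ := hInf α β D μ hS
  set a : ℕ → Measure (ℝ × ℝ) :=
    fun n => (Phi α β 1 D)^[n] ((Measure.dirac (0 : ℝ)).prod μ) with ha
  have hA' : ∀ n, Adm μ (a n) ∧ H (a n) < ∞ := hA
  have hF' : ∀ M : ℕ, ∃ n, M ≤ n ∧ H (a n) ≤ 2 := hF
  have hsucc : ∀ n, a (n + 1) = Phi α β 1 D (a n) := by
    intro n
    simp only [ha, Function.iterate_succ_apply']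
  have hpos := hPos α β D μ hS
  haveI hp : ∀ n, IsProbabilityMeasure (a n) := fun n => (hA' n).1.p1
  let P : ℕ → ProbabilityMeasure (ℝ × ℝ) := fun n => ⟨a n, hp n⟩
  have hPa : ∀ n, (P n : Measure (ℝ × ℝ)) = a n := fun n => rfl
  have hfreq : ∃ᶠ n in atTop, H (a n) ≤ 2 := by
    rw [frequently_atTop]
    intro M
    obtain ⟨n, hn, h⟩ := hF' M
    exact ⟨n, hn, h⟩
  obtain ⟨φ, hφ, hφ2⟩ := extraction_of_frequently_atTop hfreq
  have hae : ∀ᵐ x ∂μ, 0 < x ∧ x ≤ 1 := by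
    filter_upwards [hpos, hS.μI] with x h1 h2
    exact ⟨h1, h2.2⟩
  have htight := hTight μ hS.μ1 hae
  let S : Set (ProbabilityMeasure (ℝ × ℝ)) :=
    {ν | Adm μ (ν : Measure (ℝ × ℝ)) ∧ H (ν : Measure (ℝ × ℝ)) ≤ 2}
  have hcomp : IsCompact (closure S) := by
    apply isCompact_closure_of_isTightMeasureSet
    refine htight.subset ?_
    rintro _ ⟨ν, hν, rfl⟩
    exact hν
  have hmem : ∀ n, P (φ n) ∈ closure S := fun n =>
    subset_closure ⟨(hA' (φ n)).1, hφ2 n⟩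
  obtain ⟨P0, -, ψ, hψ, hlim⟩ := hcomp.tendsto_subseq hmem
  have hlim' : Tendsto (fun n => P (φ (ψ n))) atTop (𝓝 P0) := hlim
  have hθ : Tendsto (fun n => φ (ψ n)) atTop atTop :=
    hφ.tendsto_atTop.comp hψ.tendsto_atTop
  have hsnd0 : (P0 : Measure (ℝ × ℝ)).map Prod.snd = μ :=
    hSndLim μ (fun n => P (φ (ψ n))) P0 hlim' (fun n => (hA' (φ (ψ n))).1.snd)
  have hH0 : H (P0 : Measure (ℝ × ℝ)) ≤ 2 :=
    hFatou (fun n => P (φ (ψ n))) P0 hlim' (fun n => hφ2 (ψ n))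
  -- coupling of the first two iterates
  obtain ⟨κ, hκp, hκ1, hκ2⟩ := hCouple (a 0) (a 1) (hp 0) (hp 1)
    (by rw [(hA' 0).1.snd, (hA' 1).1.snd])
  have hκ1' : κ.map (lin 1 0) = a 0 := by rw [lin10]; exact hκ1
  have hκ2' : κ.map (lin 0 1) = a 1 := by rw [lin01]; exact hκ2
  have hκs : κ.map Prod.snd = μ := by
    rw [← snd_lin κ 1 0, hκ1', (hA' 0).1.snd]
  have hκH : H (κ.map (lin 1 (-1))) < ∞ := by
    refine lt_of_le_of_lt (hHd κ) ?_
    rw [hκ1', hκ2']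
    exact ENNReal.mul_lt_top (by simp) (ENNReal.add_lt_top.2 ⟨(hA' 0).2, (hA' 1).2⟩)
  obtain ⟨hit, hto⟩ := hIter2 α β D μ κ hS hκp hκs hκH
  have hm1 : ∀ n, ((Phi2 α β 1 D)^[n] κ).map (lin 1 0) = a n := by
    intro n
    rw [(hit n).2.1, hκ1']
    simp only [ha, Function.iterate_zero, id_eq]
  have hm2 : ∀ n, ((Phi2 α β 1 D)^[n] κ).map (lin 0 1) = a (n + 1) := by
    intro n
    rw [(hit n).2.2, hκ2']
    simp only [ha]
    rw [← Function.iterate_add_apply]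
  have hdiff := hLimit μ (fun n => (Phi2 α β 1 D)^[n] κ) hS.μ1 hpos (fun n => (hit n).1)
    (fun n => by rw [← snd_lin _ 1 0, hm1 n, (hA' n).1.snd]) hto
  simp only [hm1, hm2] at hdiff
  -- nonnegativity of the second coordinate
  have hnn : ∀ ν : Measure (ℝ × ℝ), ν.map Prod.snd = μ → ∀ᵐ z ∂ν, 0 ≤ z.2 := by
    intro ν hν
    have h1 : ∀ᵐ x ∂(ν.map Prod.snd), 0 ≤ x := by
      rw [hν]
      filter_upwards [hS.μI] with x hx
      exact hx.1
    exact ae_of_ae_map measurable_snd.aemeasurable h1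
  have hcont := hCont α β D hS.β0 hS.D1 (fun n => P (φ (ψ n))) P0
    (fun n => hnn _ (hA' (φ (ψ n))).1.snd) (hnn _ hsnd0) hlim'
  have hcont' : ∀ f : BoundedContinuousFunction (ℝ × ℝ) ℝ,
      Tendsto (fun n => ∫ z, f z ∂(a (φ (ψ n) + 1))) atTop
        (𝓝 (∫ z, f z ∂(Phi α β 1 D (P0 : Measure (ℝ × ℝ))))) := by
    intro f
    have := hcont f
    refine this.congr fun n => ?_
    rw [hsucc, hPa]
  -- the image is a probability law
  haveI hprob : IsProbabilityMeasure (Phi α β 1 D (P0 : Measure (ℝ × ℝ))) := by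
    have h1 := hcont' (BoundedContinuousFunction.const (ℝ × ℝ) (1 : ℝ))
    have h2 : Tendsto (fun n => ∫ z, (BoundedContinuousFunction.const (ℝ × ℝ) (1 : ℝ)) z
        ∂(a (φ (ψ n) + 1))) atTop (𝓝 1) := by
      refine tendsto_const_nhds.congr fun n => ?_
      simp
    have h3 := tendsto_nhds_unique h1 h2
    simp only [BoundedContinuousFunction.const_apply, integral_const, smul_eq_mul, mul_one] at h3
    refine ⟨?_⟩
    have h4 : (Phi α β 1 D (P0 : Measure (ℝ × ℝ)) Set.univ).toReal = 1 := h3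
    exact (ENNReal.toReal_eq_one_iff _).1 h4
  refine ⟨(P0 : Measure (ℝ × ℝ)), ⟨inferInstance, hsnd0⟩, lt_of_le_of_lt hH0 (by simp), ?_⟩
  refine hSep _ _ hprob inferInstance ?_
  intro f hf
  have e1 : Tendsto (fun n => ∫ z, f z ∂(a (φ (ψ n)))) atTop
      (𝓝 (∫ z, f z ∂(P0 : Measure (ℝ × ℝ)))) :=
    (ProbabilityMeasure.tendsto_iff_forall_integral_tendsto.1 hlim') f
  have e2 : Tendsto (fun n => ∫ z, f z ∂(a (φ (ψ n))) - ∫ z, f z ∂(a (φ (ψ n) + 1))) atTop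
      (𝓝 0) := (hdiff f hf).comp hθ
  have e3 := e1.sub e2
  have e4 : Tendsto (fun n => ∫ z, f z ∂(a (φ (ψ n) + 1))) atTop
      (𝓝 (∫ z, f z ∂(P0 : Measure (ℝ × ℝ)) - 0)) := by
    refine e3.congr fun n => ?_
    ring
  rw [sub_zero] at e4
  exact tendsto_nhds_unique (hcont' f) e4

end Pool.Agent.Q222.JD.TaskExist
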