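import Pool.Agent.Q222.JD.Stmts

/-!
# Lower semicontinuity of `H` (helper57)
-/

set_option autoImplicit false

open MeasureTheory Filter Topology
open scoped ENNReal NNReal

namespace Pool.Agent.Q222.JD.TaskFatou

/-- the truncation `min ((xu)²) M` -/
noncomputable def tr (M : ℕ) : BoundedContinuousFunction (ℝ × ℝ) ℝ≥0 :=
  BoundedContinuousFunction.mkOfBound
    ⟨fun z => min (Real.toNNReal ((z.2 * z.1) ^ 2)) (M : ℝ≥0), by fun_prop⟩ (M : ℝ) (by
      intro x y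
      rw [NNReal.dist_eq, abs_sub_le_iff]
      have h1 : ((min (Real.toNNReal ((x.2 * x.1) ^ 2)) (M : ℝ≥0) : ℝ≥0) : ℝ) ≤ M := by
        exact_mod_cast min_le_right _ _
      have h2 : ((min (Real.toNNReal ((y.2 * y.1) ^ 2)) (M : ℝ≥0) : ℝ≥0) : ℝ) ≤ M := by
        exact_mod_cast min_le_right _ _
      have h3 := NNReal.coe_nonneg (min (Real.toNNReal ((x.2 * x.1) ^ 2)) (M : ℝ≥0))
      have h4 := NNReal.coe_nonneg (min (Real.toNNReal ((y.2 * y.1) ^ 2)) (M : ℝ≥0))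
      simp only [ContinuousMap.coe_mk]
      constructor <;> linarith)

theorem tr_apply (M : ℕ) (z : ℝ × ℝ) :
    ((tr M z : ℝ≥0) : ℝ≥0∞) = min (ENNReal.ofReal ((z.2 * z.1) ^ 2)) (M : ℝ≥0∞) := by
  have h1 : tr M z = min (Real.toNNReal ((z.2 * z.1) ^ 2)) (M : ℝ≥0) := rfl
  rw [h1, ENNReal.coe_min]
  rfl

theorem main : Pool.Agent.Q222.JD.TaskFatou := by
  intro π π0 hlim hH
  have h1 : ∀ M : ℕ, ∫⁻ z, tr M z ∂(π0 : Measure (ℝ × ℝ)) ≤ 2 := by
    intro M
    have h2 := (ProbabilityMeasure.tendsto_iff_forall_lintegral_tendsto.1 hlim) (tr M)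
    refine le_of_tendsto h2 (Eventually.of_forall fun n => ?_)
    refine le_trans (lintegral_mono fun z => ?_) (hH n)
    rw [tr_apply]
    exact min_le_left _ _
  have h2 : H (π0 : Measure (ℝ × ℝ)) = ⨆ M : ℕ, ∫⁻ z, tr M z ∂(π0 : Measure (ℝ × ℝ)) := by
    rw [← lintegral_iSup]
    · refine lintegral_congr fun z => ?_
      simp only [tr_apply]
      have h3 : (⨆ M : ℕ, min (ENNReal.ofReal ((z.2 * z.1) ^ 2)) (M : ℝ≥0∞)) =
          min (ENNReal.ofReal ((z.2 * z.1) ^ 2)) (⨆ M : ℕ, (M : ℝ≥0∞)) :=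
        (inf_iSup_eq _ _).symm
      rw [h3, ENNReal.iSup_natCast]
      exact (min_eq_left le_top).symm
    · intro M
      exact ((tr M).continuous.measurable).coe_nnreal_ennreal
    · intro M M' hM z
      simp only [tr_apply]
      exact min_le_min le_rfl (by exact_mod_cast hM)
  rw [h2]
  exact iSup_le h1

end Pool.Agent.Q222.JD.TaskFatou
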