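import Pool.Agent.Q222.JD.Stmts

set_option autoImplicit false

open MeasureTheory ProbabilityTheory Filter Topology
open scoped ENNReal NNReal

namespace Pool.Agent.Q222.JD.TaskInf

theorem main (hE : TaskE) : Pool.Agent.Q222.JD.TaskInf := by
  intro α β D μ hS
  have hμ := hS.μ1
  obtain ⟨π, hπ⟩ : ∃ π : ℕ → Measure (ℝ × ℝ),
      ∀ n, π n = (Phi α β 1 D)^[n] ((Measure.dirac (0 : ℝ)).prod μ) := ⟨_, fun n => rfl⟩
  have hstep : ∀ n, π (n + 1) = Phi α β 1 D (π n) := by
    intro n
    rw [hπ, hπ, Function.iterate_succ_apply']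
  have hπ0 : π 0 = (Measure.dirac (0 : ℝ)).prod μ := hπ 0
  have h0 : Adm μ (π 0) := by
    rw [hπ0]
    refine ⟨inferInstance, ?_⟩
    rw [Measure.map_snd_prod]
    simp
  have hH0 : H (π 0) < ∞ := by
    have : H (π 0) = 0 := by
      rw [hπ0]
      unfold H
      rw [lintegral_prod _ (by fun_prop), lintegral_dirac]
      simp
    rw [this]
    exact ENNReal.zero_lt_top
  have hall : ∀ n, Adm μ (π n) ∧ H (π n) < ∞ := by
    intro n
    induction n with
    | zero => exact ⟨h0, hH0⟩
    | succ n ih =>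
      have := hE α β 1 D μ (π n) hS ih.1 ih.2
      rw [hstep]
      exact ⟨this.1, this.2.2.2⟩
  have hfin : ∀ n, Q α β D μ g (π n) < ∞ := fun n =>
    (hE α β 1 D μ (π n) hS (hall n).1 (hall n).2).2.2.1
  have hineq : ∀ n, H (π (n + 1)) + Q α β D μ g (π (n + 1)) ≤ 1 + Q α β D μ g (π n) := by
    intro n
    have := (hE α β 1 D μ (π n) hS (hall n).1 (hall n).2).2.1
    rw [hstep]
    simpa using this
  refine ⟨fun n => by rw [← hπ]; exact hall n, fun M => ?_⟩
  by_contra hcon
  push Not at hcon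
  have hbig : ∀ n, M ≤ n → 2 ≤ H (π n) := fun n hn => by
    have := hcon n hn
    rw [← hπ] at this
    exact this.le
  have hdec : ∀ k : ℕ, (k : ℝ≥0∞) + Q α β D μ g (π (M + k)) ≤ Q α β D μ g (π M) := by
    intro k
    induction k with
    | zero => simp
    | succ k ih =>
      have h1 : 1 + (1 + Q α β D μ g (π (M + k + 1))) ≤ 1 + Q α β D μ g (π (M + k)) := by
        calc 1 + (1 + Q α β D μ g (π (M + k + 1))) = 2 + Q α β D μ g (π (M + k + 1)) := by
              rw [← add_assoc, one_add_one_eq_two]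
          _ ≤ H (π (M + k + 1)) + Q α β D μ g (π (M + k + 1)) := by
              gcongr
              exact hbig _ (by omega)
          _ ≤ _ := hineq _
      have h2 : 1 + Q α β D μ g (π (M + k + 1)) ≤ Q α β D μ g (π (M + k)) :=
        (ENNReal.add_le_add_iff_left ENNReal.one_ne_top).1 h1
      calc ((k + 1 : ℕ) : ℝ≥0∞) + Q α β D μ g (π (M + (k + 1)))
          = (k : ℝ≥0∞) + (1 + Q α β D μ g (π (M + k + 1))) := by
            push_cast
            rw [add_assoc]
            rfl
        _ ≤ (k : ℝ≥0∞) + Q α β D μ g (π (M + k)) := by gcongr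
        _ ≤ _ := ih
  obtain ⟨k, hk⟩ := ENNReal.exists_nat_gt (hfin M).ne
  exact absurd ((le_add_right le_rfl).trans (hdec k)) (not_le.2 hk)

end Pool.Agent.Q222.JD.TaskInf
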