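import Pool.Agent.Q222.JD.Stmts

set_option autoImplicit false

open MeasureTheory ProbabilityTheory Filter Topology
open scoped ENNReal NNReal

namespace Pool.Agent.Q222.JD.TaskIter2

open Pool.Agent.Q222.JD

theorem iter_aux (hLin : TaskLin) (α : ℝ≥0) (β p q r : ℝ) (hr : p * 1 + q * 1 = r)
    (D : Measure ℝ) (hD : IsProbabilityMeasure D)
    (κ : Measure ((ℝ × ℝ) × ℝ)) (hκ : IsProbabilityMeasure κ) (n : ℕ) :
    IsProbabilityMeasure ((Phi2 α β 1 D)^[n] κ) ∧
      ((Phi2 α β 1 D)^[n] κ).map (lin p q) = (Phi α β r D)^[n] (κ.map (lin p q)) := by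
  induction n with
  | zero => exact ⟨hκ, rfl⟩
  | succ n ih =>
    rw [Function.iterate_succ_apply', Function.iterate_succ_apply']
    obtain ⟨h1, h2⟩ := hLin α β 1 p q D ((Phi2 α β 1 D)^[n] κ) hD ih.1
    exact ⟨h1, by rw [h2, ih.2, hr]⟩

theorem measurable_lin (p q : ℝ) : Measurable (lin p q) := by
  unfold lin
  fun_prop

theorem main (hLin : TaskLin) (hIter0 : TaskIter0) : Pool.Agent.Q222.JD.TaskIter2 := by
  intro α β D μ κ hS hκ hsnd hH
  have hD := hS.D1
  refine ⟨fun n => ⟨(iter_aux hLin α β 1 0 1 (by norm_num) D hD κ hκ n).1,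
    (iter_aux hLin α β 1 0 1 (by norm_num) D hD κ hκ n).2,
    (iter_aux hLin α β 0 1 1 (by norm_num) D hD κ hκ n).2⟩, ?_⟩
  have hA : Adm μ (κ.map (lin 1 (-1))) := by
    refine ⟨Measure.isProbabilityMeasure_map (measurable_lin 1 (-1)).aemeasurable, ?_⟩
    rw [Measure.map_map measurable_snd (measurable_lin 1 (-1))]
    exact hsnd
  have h := hIter0 α β D μ (κ.map (lin 1 (-1))) hS hA hH
  refine h.congr fun n => ?_
  rw [(iter_aux hLin α β 1 (-1) 0 (by norm_num) D hD κ hκ n).2]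

end Pool.Agent.Q222.JD.TaskIter2
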