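import Pool.Agent.Q222.JD.Stmts

set_option autoImplicit false

open MeasureTheory ProbabilityTheory Filter Topology Pool.Agent.Q222.JD
open scoped ENNReal NNReal

namespace Pool.Agent.Q222.JD.TaskLimit

private theorem measL (p q : ℝ) : Measurable (lin p q) := by
  unfold lin; fun_prop

private theorem ptw (f : BoundedContinuousFunction (ℝ × ℝ) ℝ) (K : ℝ≥0) (hK : LipschitzWith K f)
    (δ η : ℝ) (hδ : 0 < δ) (hη : 0 < η) (z : (ℝ × ℝ) × ℝ) :
    ‖f (lin 1 0 z) - f (lin 0 1 z)‖ ≤ 2 * ‖f‖ * (if z.2 < δ then 1 else 0) +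
      K / δ * η + K / (δ * η) * ((lin 1 (-1) z).2 * (lin 1 (-1) z).1) ^ 2 := by
  have hK0 : (0 : ℝ) ≤ K := K.2
  have h1 : 0 ≤ (K : ℝ) / δ * η := by positivity
  have h2 : 0 ≤ (K : ℝ) / (δ * η) * ((lin 1 (-1) z).2 * (lin 1 (-1) z).1) ^ 2 := by positivity
  by_cases hz : z.2 < δ
  · rw [if_pos hz, mul_one]
    have h3 : ‖f (lin 1 0 z) - f (lin 0 1 z)‖ ≤ ‖f (lin 1 0 z)‖ + ‖f (lin 0 1 z)‖ := norm_sub_le _ _
    have h4 := f.norm_coe_le_norm (lin 1 0 z)
    have h5 := f.norm_coe_le_norm (lin 0 1 z)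
    linarith
  · rw [if_neg hz, mul_zero, zero_add]
    push Not at hz
    have h3 := hK.dist_le_mul (lin 1 0 z) (lin 0 1 z)
    rw [dist_eq_norm] at h3
    have h4 : dist (lin 1 0 z) (lin 0 1 z) = |z.1.1 - z.1.2| := by
      simp [lin, Prod.dist_eq, Real.dist_eq]
    rw [h4] at h3
    set t : ℝ := z.2 * (z.1.1 - z.1.2) with ht
    have h5 : (lin 1 (-1) z).2 * (lin 1 (-1) z).1 = t := by
      simp only [lin, ht]; ring
    rw [h5]
    have hz0 : 0 < z.2 := lt_of_lt_of_le hδ hz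
    have h6 : δ * |z.1.1 - z.1.2| ≤ |t| := by
      rw [ht, abs_mul, abs_of_pos hz0]
      exact mul_le_mul_of_nonneg_right hz (abs_nonneg _)
    have h7 : |t| ≤ η + t ^ 2 / η := by
      rw [← sq_abs t]
      have : |t| * η ≤ η * η + |t| ^ 2 := by nlinarith [sq_nonneg (|t| - η), abs_nonneg t, sq_nonneg |t|, sq_nonneg η]
      rw [← sub_nonneg] at this ⊢
      have h8 : η + |t| ^ 2 / η - |t| = (η * η + |t| ^ 2 - |t| * η) / η := by
        field_simp
      rw [h8]
      exact div_nonneg this hη.le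
    have h9 : (K : ℝ) * |z.1.1 - z.1.2| ≤ K / δ * (η + t ^ 2 / η) := by
      have : (K : ℝ) * |z.1.1 - z.1.2| = K / δ * (δ * |z.1.1 - z.1.2|) := by
        field_simp
      rw [this]
      exact mul_le_mul_of_nonneg_left (h6.trans h7) (by positivity)
    have h10 : (K : ℝ) / δ * (η + t ^ 2 / η) = K / δ * η + K / (δ * η) * t ^ 2 := by
      field_simp
    linarith

private theorem bound (f : BoundedContinuousFunction (ℝ × ℝ) ℝ) (K : ℝ≥0) (hK : LipschitzWith K f)
    (δ η : ℝ) (hδ : 0 < δ) (hη : 0 < η) (κ : Measure ((ℝ × ℝ) × ℝ)) (hκ : IsProbabilityMeasure κ)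
    (μ : Measure ℝ) (hμ : κ.map Prod.snd = μ) :
    ∫⁻ z, ENNReal.ofReal ‖f (lin 1 0 z) - f (lin 0 1 z)‖ ∂κ ≤
      ENNReal.ofReal (2 * ‖f‖) * μ (Set.Iio δ) + ENNReal.ofReal (K / δ * η) +
        ENNReal.ofReal (K / (δ * η)) * H (κ.map (lin 1 (-1))) := by
  have hK0 : (0 : ℝ) ≤ K := K.2
  have hμ' : μ (Set.Iio δ) = κ {z | z.2 < δ} := by
    rw [← hμ, Measure.map_apply measurable_snd measurableSet_Iio]
    rfl
  have hH : H (κ.map (lin 1 (-1))) =
      ∫⁻ z, ENNReal.ofReal (((lin 1 (-1) z).2 * (lin 1 (-1) z).1) ^ 2) ∂κ := by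
    unfold H
    rw [lintegral_map (by fun_prop) (measL _ _)]
  have hm : MeasurableSet {z : (ℝ × ℝ) × ℝ | z.2 < δ} := measurableSet_lt measurable_snd measurable_const
  have hmm : Measurable fun z : (ℝ × ℝ) × ℝ =>
      ENNReal.ofReal (((lin 1 (-1) z).2 * (lin 1 (-1) z).1) ^ 2) := by
    have := measL 1 (-1)
    fun_prop
  calc ∫⁻ z, ENNReal.ofReal ‖f (lin 1 0 z) - f (lin 0 1 z)‖ ∂κ
      ≤ ∫⁻ z, (ENNReal.ofReal (2 * ‖f‖) * Set.indicator {z | z.2 < δ} 1 z +
          ENNReal.ofReal (K / δ * η) + ENNReal.ofReal (K / (δ * η)) *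
            ENNReal.ofReal (((lin 1 (-1) z).2 * (lin 1 (-1) z).1) ^ 2)) ∂κ := by
        refine lintegral_mono fun z => ?_
        refine (ENNReal.ofReal_le_ofReal (ptw f K hK δ η hδ hη z)).trans ?_
        rw [← ENNReal.ofReal_mul (by positivity)]
        by_cases hz : z.2 < δ
        · rw [if_pos hz, Set.indicator_of_mem (show z ∈ {z : (ℝ × ℝ) × ℝ | z.2 < δ} from hz),
            Pi.one_apply, mul_one, mul_one, ← ENNReal.ofReal_add (by positivity) (by positivity),
            ← ENNReal.ofReal_add (by positivity) (by positivity)]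
        · rw [if_neg hz, Set.indicator_of_notMem (show z ∉ {z : (ℝ × ℝ) × ℝ | z.2 < δ} from hz),
            mul_zero, mul_zero, zero_add, zero_add,
            ← ENNReal.ofReal_add (by positivity) (by positivity)]
    _ = ENNReal.ofReal (2 * ‖f‖) * μ (Set.Iio δ) + ENNReal.ofReal (K / δ * η) +
        ENNReal.ofReal (K / (δ * η)) * H (κ.map (lin 1 (-1))) := by
        rw [lintegral_add_right _ (hmm.const_mul _), lintegral_add_right _ measurable_const,
          lintegral_const_mul _ (measurable_one.indicator hm), lintegral_const_mul _ hmm,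
          lintegral_indicator_one hm, lintegral_const, measure_univ, mul_one, ← hμ', ← hH]

theorem main : Pool.Agent.Q222.JD.TaskLimit := by
  intro μ κ hμ hpos hκ hsnd hH f ⟨K, hK⟩
  have hmu : Tendsto (fun k : ℕ => μ (Set.Iio (1 / ((k : ℝ) + 1)))) atTop (𝓝 0) := by
    have h1 := tendsto_measure_iInter_atTop (μ := μ) (s := fun k : ℕ => Set.Iio (1 / ((k : ℝ) + 1)))
      (fun k => measurableSet_Iio.nullMeasurableSet)
      (fun a b hab => Set.Iio_subset_Iio (one_div_le_one_div_of_le (by positivity)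
        (by have : (a : ℝ) ≤ b := by exact_mod_cast hab
            linarith)))
      ⟨0, measure_ne_top _ _⟩
    have h2 : μ (⋂ k : ℕ, Set.Iio (1 / ((k : ℝ) + 1))) = 0 := by
      have h3 : (⋂ k : ℕ, Set.Iio (1 / ((k : ℝ) + 1))) ⊆ {x | ¬ 0 < x} := by
        intro x hx hx0
        obtain ⟨k, hk⟩ := exists_nat_one_div_lt hx0
        have := Set.mem_iInter.mp hx k
        exact absurd this (not_lt.mpr hk.le)
      exact measure_mono_null h3 (ae_iff.mp hpos)
    rw [h2] at h1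
    exact h1
  have hE : Tendsto (fun n => ∫⁻ z, ENNReal.ofReal ‖f (lin 1 0 z) - f (lin 0 1 z)‖ ∂(κ n)) atTop
      (𝓝 0) := by
    rw [ENNReal.tendsto_nhds_zero]
    intro ε hε
    have hε3 : 0 < ε / 3 := ENNReal.div_pos hε.ne' (by norm_num)
    have t1 : Tendsto (fun k : ℕ => ENNReal.ofReal (2 * ‖f‖) * μ (Set.Iio (1 / ((k : ℝ) + 1)))) atTop
        (𝓝 0) := by
      have := ENNReal.Tendsto.const_mul hmu (Or.inr (ENNReal.ofReal_ne_top (r := 2 * ‖f‖)))
      simpa using this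
    obtain ⟨k, hk⟩ := (ENNReal.tendsto_nhds_zero.mp t1 (ε / 3) hε3).exists
    set δ : ℝ := 1 / ((k : ℝ) + 1) with hδd
    have hδ : 0 < δ := by positivity
    have t2 : Tendsto (fun j : ℕ => ENNReal.ofReal (K / δ * (1 / ((j : ℝ) + 1)))) atTop (𝓝 0) := by
      have h := (tendsto_one_div_add_atTop_nhds_zero_nat (𝕜 := ℝ)).const_mul ((K : ℝ) / δ)
      have h' := ENNReal.tendsto_ofReal h
      simpa using h'
    obtain ⟨j, hj⟩ := (ENNReal.tendsto_nhds_zero.mp t2 (ε / 3) hε3).exists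
    set η : ℝ := 1 / ((j : ℝ) + 1) with hηd
    have hη : 0 < η := by positivity
    have t3 : Tendsto (fun n => ENNReal.ofReal (K / (δ * η)) * H ((κ n).map (lin 1 (-1)))) atTop
        (𝓝 0) := by
      have := ENNReal.Tendsto.const_mul hH (Or.inr (ENNReal.ofReal_ne_top (r := K / (δ * η))))
      simpa using this
    filter_upwards [ENNReal.tendsto_nhds_zero.mp t3 (ε / 3) hε3] with n hn
    refine (bound f K hK δ η hδ hη (κ n) (hκ n) μ (hsnd n)).trans ?_
    calc _ ≤ ε / 3 + ε / 3 + ε / 3 := add_le_add (add_le_add hk hj) hn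
      _ = ε := ENNReal.add_thirds ε
  have hint : ∀ n, ∀ p q : ℝ, Integrable (fun z => f (lin p q z)) (κ n) := by
    intro n p q
    have := hκ n
    refine Integrable.mono' (integrable_const ‖f‖) ?_ (Eventually.of_forall fun z => f.norm_coe_le_norm _)
    exact (f.continuous.measurable.comp (measL p q)).aestronglyMeasurable
  have heq : ∀ n, ∫ z, f z ∂((κ n).map (lin 1 0)) - ∫ z, f z ∂((κ n).map (lin 0 1)) =
      ∫ z, (f (lin 1 0 z) - f (lin 0 1 z)) ∂(κ n) := by
    intro n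
    rw [integral_map (measL _ _).aemeasurable f.continuous.measurable.aestronglyMeasurable,
      integral_map (measL _ _).aemeasurable f.continuous.measurable.aestronglyMeasurable,
      integral_sub (hint n 1 0) (hint n 0 1)]
  simp only [heq]
  refine squeeze_zero_norm (fun n => norm_integral_le_lintegral_norm _) ?_
  have h0 := (ENNReal.tendsto_toReal ENNReal.zero_ne_top).comp hE
  rw [ENNReal.toReal_zero] at h0
  exact h0

end Pool.Agent.Q222.JD.TaskLimit
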