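import Pool.Agent.Q222.JD.Stmts

set_option autoImplicit false

open MeasureTheory ProbabilityTheory Filter Topology
open scoped ENNReal NNReal

namespace Pool.Agent.Q222.JD.TaskLin

open Pool.Agent.Q222.JD

private def L (p q : ℝ) (y : ((ℝ × ℝ) × ℝ) × (ℝ × ℝ)) : Y := (lin p q y.1, y.2)

private lemma lin_meas (p q : ℝ) : Measurable (lin p q) := by
  unfold lin; fun_prop

private lemma L_meas (p q : ℝ) : Measurable (L p q) := by
  unfold L
  exact ((lin_meas p q).comp measurable_fst).prodMk measurable_snd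

private def M (p q : ℝ) (z : (ℕ → ((ℝ × ℝ) × ℝ) × (ℝ × ℝ)) × ℕ) : (ℕ → Y) × ℕ :=
  (fun k => L p q (z.1 k), z.2)

private lemma M_meas (p q : ℝ) : Measurable (M p q) := by
  unfold M
  refine Measurable.prodMk ?_ measurable_snd
  refine measurable_pi_lambda _ fun k => ?_
  exact (L_meas p q).comp ((measurable_pi_apply k).comp measurable_fst)

private lemma C_lin (β p q : ℝ) (y : ((ℝ × ℝ) × ℝ) × (ℝ × ℝ)) :
    C β (L p q y) = p * C β ((y.1.1.1, y.1.2), y.2) + q * C β ((y.1.1.2, y.1.2), y.2) := by
  simp only [C, L, lin, W]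
  ring

private lemma T_lin (β p q : ℝ) (y : ((ℝ × ℝ) × ℝ) × (ℝ × ℝ)) :
    T β (L p q y) = T β ((y.1.1.1, y.1.2), y.2) := by
  simp only [T, L, lin, W]

private lemma out_lin (β s p q : ℝ) (z : (ℕ → ((ℝ × ℝ) × ℝ) × (ℝ × ℝ)) × ℕ) :
    lin p q (out2 β s z) = out β (p * s + q * s) (M p q z) := by
  simp only [out2, out, M, lin, C_lin, T_lin, Finset.sum_add_distrib, ← Finset.mul_sum]
  ext
  · simp only []
    ring
  · rfl

private lemma out2_meas (h : TaskMeas) (β s : ℝ) : Measurable (out2 β s) := by
  have h1 := (h β s).comp (M_meas 1 0)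
  have h2 := (h β s).comp (M_meas 0 1)
  have he : out2 β s = fun z => (((out β s (M 1 0 z)).1, (out β s (M 0 1 z)).1),
      (out β s (M 1 0 z)).2) := by
    funext z
    simp only [out2, out, M, C_lin, T_lin]
    simp
  rw [he]
  exact ((measurable_fst.comp h1).prodMk (measurable_fst.comp h2)).prodMk (measurable_snd.comp h1)

theorem main (h : TaskMeas) : Pool.Agent.Q222.JD.TaskLin := by
  intro α β s p q D κ hD hκ
  have : IsProbabilityMeasure (seq (2 * α) (κ.prod (D.prod D))) := by
    unfold seq; infer_instance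
  refine ⟨Measure.isProbabilityMeasure_map (out2_meas h β s).aemeasurable, ?_⟩
  have hlin : IsProbabilityMeasure (κ.map (lin p q)) :=
    Measure.isProbabilityMeasure_map (lin_meas p q).aemeasurable
  have h1 : (κ.prod (D.prod D)).map (L p q) = ing D (κ.map (lin p q)) := by
    have := Measure.map_prod_map κ (D.prod D) (lin_meas p q) measurable_id
    rw [Measure.map_id] at this
    rw [ing, this]
    rfl
  have h2 : (seq (2 * α) (κ.prod (D.prod D))).map (M p q) =
      seq (2 * α) (ing D (κ.map (lin p q))) := by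
    have h3 : (Measure.infinitePi fun _ : ℕ => κ.prod (D.prod D)).map (fun ω k => L p q (ω k)) =
        Measure.infinitePi fun _ : ℕ => (κ.prod (D.prod D)).map (L p q) :=
      Measure.infinitePi_map_pi (μ := fun _ : ℕ => κ.prod (D.prod D)) (f := fun _ => L p q)
        (fun _ => L_meas p q)
    have h4 := Measure.map_prod_map (Measure.infinitePi fun _ : ℕ => κ.prod (D.prod D))
      (poissonMeasure (2 * α)) (f := fun ω k => L p q (ω k)) (g := id)
      (measurable_pi_lambda _ fun k => (L_meas p q).comp (measurable_pi_apply k)) measurable_id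
    rw [Measure.map_id, h3, h1] at h4
    unfold seq
    rw [h4]
    rfl
  unfold Phi2 Phi
  rw [Measure.map_map (lin_meas p q) (out2_meas h β s), ← h2,
    Measure.map_map (h β _) (M_meas p q)]
  congr 1
  funext z
  exact out_lin β s p q z

end Pool.Agent.Q222.JD.TaskLin
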