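import Pool.Agent.Q222.JD.Stmts

set_option autoImplicit false

open MeasureTheory ProbabilityTheory Filter Topology
open scoped ENNReal NNReal

namespace Pool.Agent.Q222.JD.TaskM1

open Pool.Agent.Q222.JD

lemma measW (β : ℝ) : Measurable (W β) := by unfold W; fun_prop
lemma measC (β : ℝ) : Measurable (C β) := by
  unfold C
  have h : Measurable fun y : Y => 2 * β * (y.2.1 * y.2.2 * y.1.1 * y.1.2) := by fun_prop
  exact h.div (measW β)
lemma measT (β : ℝ) : Measurable (T β) := by
  unfold T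
  have h : Measurable fun y : Y => 2 * β * y.2.2 ^ 2 := by fun_prop
  exact h.div (measW β)

lemma measN {Z : Type} [MeasurableSpace Z] (f : (ℕ → Z) × ℕ → ℝ≥0∞)
    (h : ∀ r : ℕ, Measurable fun ω => f (ω, r)) : Measurable f :=
  measurable_from_prod_countable_left h

/-- The sign flip of `ξ`. -/
def sig (y : Y) : Y := (y.1, (-y.2.1, y.2.2))

lemma meas_sig : Measurable sig := by unfold sig; fun_prop

lemma T_sig (β : ℝ) (y : Y) : T β (sig y) = T β y := by simp [T, W, sig]
lemma C_sig (β : ℝ) (y : Y) : C β (sig y) = -C β y := by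
  simp only [C, W, sig]; ring

lemma T_upd (β : ℝ) (ω : ℕ → Y) (r k : ℕ) :
    T β (Function.update ω r (sig (ω r)) k) = T β (ω k) := by
  by_cases h : k = r
  · subst h; simp [T_sig]
  · simp [Function.update_of_ne h]

lemma map_sig (D : Measure ℝ) (π : Measure (ℝ × ℝ)) [IsProbabilityMeasure D]
    [IsProbabilityMeasure π] (hD : D.map (fun x => -x) = D) :
    (ing D π).map sig = ing D π := by
  have h1 : MeasurePreserving (fun x : ℝ => -x) D D := ⟨by fun_prop, hD⟩
  have h2 := (MeasurePreserving.id π).prod (h1.prod (MeasurePreserving.id D))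
  have h3 : (Prod.map id (Prod.map (fun x : ℝ => -x) id)) = sig := by
    funext y; rfl
  rw [h3] at h2
  exact h2.map_eq

/-- vertex weight -/
noncomputable def v (β : ℝ) (r : ℕ) (ω : ℕ → Y) : ℝ≥0∞ :=
  ENNReal.ofReal (1 / (1 + ∑ k ∈ Finset.range r, T β (ω k)))

lemma meas_v (β : ℝ) (r : ℕ) : Measurable (v β r) := by
  unfold v
  refine ENNReal.measurable_ofReal.comp ?_
  refine measurable_const.div (measurable_const.add ?_)
  exact Finset.measurable_sum _ fun k _ => (measT β).comp (measurable_pi_apply k)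

lemma alg (β x u ξ ζ x' : ℝ) (hβ : 0 < β) (hx : 0 ≤ x) (hx' : 0 ≤ x') :
    x' / (1 + x' * T β ((u, x), (ξ, ζ))) * C β ((u, x), (ξ, ζ)) ^ 2 =
      w1 (2 * β * ξ ^ 2 * x) (2 * β * ζ ^ 2 * x') * (x * u ^ 2) := by
  unfold T C W w1
  simp only
  have h1 : 0 < 1 + 2 * β * ξ ^ 2 * x := by positivity
  have h2 : 0 < 1 + 2 * β * ξ ^ 2 * x + 2 * β * ζ ^ 2 * x' := by positivity
  have h3 : 1 + x' * (2 * β * ζ ^ 2 / (1 + 2 * β * ξ ^ 2 * x)) =
    (1 + 2 * β * ξ ^ 2 * x + 2 * β * ζ ^ 2 * x') / (1 + 2 * β * ξ ^ 2 * x) := by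
    field_simp
  rw [h3]
  field_simp


instance inst_ing (D : Measure ℝ) (π : Measure (ℝ × ℝ)) [IsProbabilityMeasure D]
    [IsProbabilityMeasure π] : IsProbabilityMeasure (ing D π) := by unfold ing; infer_instance

/-- almost surely `∑ T ≥ 0`. -/
lemma ae_T (α : ℝ≥0) (β : ℝ) (D : Measure ℝ) (π : Measure (ℝ × ℝ)) [IsProbabilityMeasure D]
    [IsProbabilityMeasure π] (hβ : 0 < β) (hπ : ∀ᵐ z ∂π, 0 ≤ z.2) :
    ∀ᵐ z ∂(seq (2 * α) (ing D π)), 0 ≤ ∑ k ∈ Finset.range z.2, T β (z.1 k) := by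
  have h1 : ∀ᵐ y ∂(ing D π), 0 ≤ T β y := by
    have h0 : ∀ᵐ y ∂(ing D π), 0 ≤ y.1.2 := by
      unfold ing
      exact Measure.quasiMeasurePreserving_fst.ae hπ
    filter_upwards [h0] with y hy
    unfold T W
    positivity
  have h2 : ∀ᵐ ω ∂(Measure.infinitePi fun _ : ℕ => ing D π), ∀ k, 0 ≤ T β (ω k) := by
    rw [ae_all_iff]
    intro k
    exact (measurePreserving_eval_infinitePi (fun _ : ℕ => ing D π) k).quasiMeasurePreserving.ae h1
  have h3 : ∀ᵐ z ∂(seq (2 * α) (ing D π)), ∀ k, 0 ≤ T β (z.1 k) := by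
    unfold seq
    exact Measure.quasiMeasurePreserving_fst.ae h2
  filter_upwards [h3] with z hz
  exact Finset.sum_nonneg fun k _ => hz k

theorem main (hMecke : TaskMecke) (hFlip : TaskFlip) (hMarg : TaskMarg) (hMeas : TaskMeas) :
    TaskM1 := by
  intro α β s D μ π hS hA
  haveI := hS.D1
  haveI := hS.μ1
  haveI := hA.p1
  have hβ := hS.β0
  have hπ0 : ∀ᵐ z ∂π, 0 ≤ z.2 := by
    have h : ∀ᵐ x ∂(π.map Prod.snd), 0 ≤ x := by
      rw [hA.snd]
      filter_upwards [hS.μI] with x hx using hx.1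
    exact ae_of_ae_map measurable_snd.aemeasurable h
  have hmarg : (Phi α β s D π).map Prod.snd = μ := by
    rw [(hMarg α β s D π inferInstance inferInstance).2, hA.snd, hS.μfix]
  have hmC := measC β
  have hmT := measT β
  -- step 1: change of variables
  have e1 : F (Phi α β s D π) = ∫⁻ z, v β z.2 z.1 *
      ENNReal.ofReal ((s - ∑ k ∈ Finset.range z.2, C β (z.1 k)) ^ 2) ∂(seq (2 * α) (ing D π)) := by
    unfold F Phi
    rw [lintegral_map (by fun_prop) (hMeas β s)]
    refine lintegral_congr fun z => ?_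
    simp only [out, v]
    exact ENNReal.ofReal_mul' (sq_nonneg _)
  -- step 2: the flip
  have e2 : ∫⁻ z, v β z.2 z.1 *
      ENNReal.ofReal ((s - ∑ k ∈ Finset.range z.2, C β (z.1 k)) ^ 2) ∂(seq (2 * α) (ing D π)) =
      ∫⁻ z, v β z.2 z.1 * (ENNReal.ofReal (s ^ 2) + ∑ k ∈ Finset.range z.2,
        ENNReal.ofReal (C β (z.1 k) ^ 2)) ∂(seq (2 * α) (ing D π)) := by
    unfold seq
    rw [lintegral_prod_symm', lintegral_prod_symm']
    · refine lintegral_congr fun r => ?_
      refine hFlip Y (ing D π) sig (C β) meas_sig (map_sig D π hS.Dsymm) hmC (C_sig β) (v β r)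
        (meas_v β r) ?_ s r
      intro ω r'
      simp only [v, T_upd]
    · refine measN _ fun r => ?_
      have h : Measurable fun ω : ℕ → Y => ∑ k ∈ Finset.range r, ENNReal.ofReal (C β (ω k) ^ 2) :=
        Finset.measurable_sum _ fun k _ => ENNReal.measurable_ofReal.comp
          ((hmC.comp (measurable_pi_apply k)).pow_const 2)
      exact (meas_v β r).mul (h.const_add _)
    · refine measN _ fun r => ?_
      have h : Measurable fun ω : ℕ → Y => ∑ k ∈ Finset.range r, C β (ω k) :=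
        Finset.measurable_sum _ fun k _ => hmC.comp (measurable_pi_apply k)
      exact (meas_v β r).mul (ENNReal.measurable_ofReal.comp ((h.const_sub s).pow_const 2))
  have hmv : Measurable fun z : (ℕ → Y) × ℕ => v β z.2 z.1 := measN _ fun r => meas_v β r
  -- step 3: split
  have e3 : ∫⁻ z, v β z.2 z.1 * (ENNReal.ofReal (s ^ 2) + ∑ k ∈ Finset.range z.2,
        ENNReal.ofReal (C β (z.1 k) ^ 2)) ∂(seq (2 * α) (ing D π)) =
      ENNReal.ofReal (s ^ 2) * ∫⁻ z, v β z.2 z.1 ∂(seq (2 * α) (ing D π)) +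
      ∫⁻ z, ∑ k ∈ Finset.range z.2, ENNReal.ofReal (1 / (1 + ∑ j ∈ Finset.range z.2, T β (z.1 j))) *
        ENNReal.ofReal (C β (z.1 k) ^ 2) ∂(seq (2 * α) (ing D π)) := by
    rw [← lintegral_const_mul _ hmv, ← lintegral_add_left (hmv.const_mul _)]
    refine lintegral_congr fun z => ?_
    rw [mul_add, mul_comm (v β z.2 z.1) (ENNReal.ofReal (s ^ 2)), Finset.mul_sum]
    rfl
  -- step 4: the first term
  have e4 : ∫⁻ z, v β z.2 z.1 ∂(seq (2 * α) (ing D π)) = ∫⁻ x, ENNReal.ofReal x ∂μ := by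
    rw [← hmarg, lintegral_map ENNReal.measurable_ofReal measurable_snd]
    unfold Phi
    rw [lintegral_map (by fun_prop) (hMeas β s)]
    rfl
  -- step 5: Mecke
  have e5 : ∫⁻ z, ∑ k ∈ Finset.range z.2,
        ENNReal.ofReal (1 / (1 + ∑ j ∈ Finset.range z.2, T β (z.1 j))) *
        ENNReal.ofReal (C β (z.1 k) ^ 2) ∂(seq (2 * α) (ing D π)) =
      ((2 * α : ℝ≥0) : ℝ≥0∞) * ∫⁻ y, ∫⁻ z,
        ENNReal.ofReal (1 / (1 + (T β y + ∑ j ∈ Finset.range z.2, T β (z.1 j)))) *
        ENNReal.ofReal (C β y ^ 2) ∂(seq (2 * α) (ing D π)) ∂(ing D π) := by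
    have hf : Measurable (Function.uncurry fun (y : Y) (t : ℝ × ℝ) =>
        ENNReal.ofReal (1 / (1 + t.1)) * ENNReal.ofReal (C β y ^ 2)) := by
      refine Measurable.mul (ENNReal.measurable_ofReal.comp ?_) (ENNReal.measurable_ofReal.comp
        ((hmC.comp measurable_fst).pow_const 2))
      have : Measurable fun p : Y × (ℝ × ℝ) => 1 + p.2.1 := by fun_prop
      exact measurable_const.div this
    have hG : Measurable fun y : Y => ((T β y, (0 : ℝ)) : ℝ × ℝ) := hmT.prodMk measurable_const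
    have h := hMecke Y (ing D π) (2 * α) (fun y => (T β y, 0)) hG _ hf
    simpa only [Prod.fst_sum, Prod.fst_add] using h
  -- step 6: the inner integral
  have e6 : ∀ y : Y, ∫⁻ z,
        ENNReal.ofReal (1 / (1 + (T β y + ∑ j ∈ Finset.range z.2, T β (z.1 j)))) *
        ENNReal.ofReal (C β y ^ 2) ∂(seq (2 * α) (ing D π)) =
      ∫⁻ x', ENNReal.ofReal (x' / (1 + x' * T β y)) * ENNReal.ofReal (C β y ^ 2) ∂μ := by
    intro y
    have hm : Measurable fun x' : ℝ => ENNReal.ofReal (x' / (1 + x' * T β y)) *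
        ENNReal.ofReal (C β y ^ 2) := by
      refine Measurable.mul (ENNReal.measurable_ofReal.comp ?_) measurable_const
      have : Measurable fun x' : ℝ => 1 + x' * T β y := by fun_prop
      exact measurable_id.div this
    rw [← hmarg, lintegral_map hm measurable_snd]
    unfold Phi
    have hm2 : Measurable fun a : ℝ × ℝ => ENNReal.ofReal (a.2 / (1 + a.2 * T β y)) *
        ENNReal.ofReal (C β y ^ 2) := hm.comp measurable_snd
    rw [lintegral_map hm2 (hMeas β s)]
    refine lintegral_congr_ae ?_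
    filter_upwards [ae_T α β D π hβ hπ0] with z hz
    simp only [out]
    congr 2
    have h1 : (0 : ℝ) < 1 + ∑ j ∈ Finset.range z.2, T β (z.1 j) := by positivity
    generalize ∑ j ∈ Finset.range z.2, T β (z.1 j) = S at hz h1
    have h2 : 1 + 1 / (1 + S) * T β y = (1 + (T β y + S)) / (1 + S) := by
      field_simp
      ring
    rw [h2, div_div_div_cancel_right₀ h1.ne']
  have hmy : Measurable fun y : Y => ∫⁻ x', ENNReal.ofReal (x' / (1 + x' * T β y)) *
      ENNReal.ofReal (C β y ^ 2) ∂μ := by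
    have h : Measurable fun p : Y × ℝ => ENNReal.ofReal (p.2 / (1 + p.2 * T β p.1)) *
        ENNReal.ofReal (C β p.1 ^ 2) := by
      have h1 : Measurable fun p : Y × ℝ => 1 + p.2 * T β p.1 :=
        (measurable_snd.mul (hmT.comp measurable_fst)).const_add 1
      exact (ENNReal.measurable_ofReal.comp (measurable_snd.div h1)).mul
        (ENNReal.measurable_ofReal.comp ((hmC.comp measurable_fst).pow_const 2))
    exact h.lintegral_prod_right'
  -- assembly
  rw [e1, e2, e3, e4, e5]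
  congr 1
  unfold Q
  congr 1
  simp_rw [e6]
  unfold ing
  rw [lintegral_prod]
  · refine lintegral_congr_ae ?_
    filter_upwards [hπ0] with z hz
    rw [lintegral_prod]
    · refine lintegral_congr fun ξ => lintegral_congr fun ζ => lintegral_congr_ae ?_
      filter_upwards [hS.μI] with x' hx'
      rw [← ENNReal.ofReal_mul' (sq_nonneg _)]
      congr 1
      exact alg β z.2 z.1 ξ ζ x' hβ hz hx'.1
    · exact (hmy.comp measurable_prodMk_left).aemeasurable
  · exact hmy.aemeasurable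

end Pool.Agent.Q222.JD.TaskM1
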