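import Pool.Agent.Q222.JD.Stmts

set_option autoImplicit false

open MeasureTheory ProbabilityTheory Filter Topology
open scoped ENNReal NNReal

namespace Pool.Agent.Q222.JD.TaskM2alg

open Pool.Agent.Q222.JD

theorem alg (β ξ ζ u x u' x' : ℝ) (hβ : 0 < β) (hx : 0 ≤ x) (hx' : 0 ≤ x') :
    (2 * β * ζ ^ 2 / (1 + 2 * β * ξ ^ 2 * x)) *
      (x' / (1 + x' * (2 * β * ζ ^ 2 / (1 + 2 * β * ξ ^ 2 * x)))) ^ 2 *
      (u' ^ 2 + (2 * β * (ξ * ζ * u * x) / (1 + 2 * β * ξ ^ 2 * x)) ^ 2) =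
    w2 (2 * β * ζ ^ 2 * x') (2 * β * ξ ^ 2 * x) * (x' * u' ^ 2) +
      w3 (2 * β * ξ ^ 2 * x) (2 * β * ζ ^ 2 * x') * (x * u ^ 2) := by
  have ha : 0 ≤ 2 * β * ξ ^ 2 * x := by positivity
  have hb : 0 ≤ 2 * β * ζ ^ 2 * x' := by positivity
  unfold w2 w3
  have hW : (1 + 2 * β * ξ ^ 2 * x) ≠ 0 := by positivity
  have hV : (1 + 2 * β * ξ ^ 2 * x + 2 * β * ζ ^ 2 * x') ≠ 0 := by positivity
  have hV' : (1 + 2 * β * ζ ^ 2 * x' + 2 * β * ξ ^ 2 * x) ≠ 0 := by positivity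
  have h1 : x' / (1 + x' * (2 * β * ζ ^ 2 / (1 + 2 * β * ξ ^ 2 * x))) =
      x' * (1 + 2 * β * ξ ^ 2 * x) / (1 + 2 * β * ξ ^ 2 * x + 2 * β * ζ ^ 2 * x') := by
    have h2 : 1 + x' * (2 * β * ζ ^ 2 / (1 + 2 * β * ξ ^ 2 * x)) =
        (1 + 2 * β * ξ ^ 2 * x + 2 * β * ζ ^ 2 * x') / (1 + 2 * β * ξ ^ 2 * x) := by
      field_simp
    rw [h2, div_div_eq_mul_div]
  rw [h1]
  have h3 : (1 + 2 * β * ζ ^ 2 * x' + 2 * β * ξ ^ 2 * x) =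
    (1 + 2 * β * ξ ^ 2 * x + 2 * β * ζ ^ 2 * x') := by ring
  rw [h3]
  field_simp

theorem w2_nonneg {a b : ℝ} (ha : 0 ≤ a) (hb : 0 ≤ b) : 0 ≤ w2 a b := by
  unfold w2; positivity

theorem w3_nonneg {a b : ℝ} (ha : 0 ≤ a) (hb : 0 ≤ b) : 0 ≤ w3 a b := by
  unfold w3; positivity

theorem w2_meas {X : Type*} [MeasurableSpace X] {f g : X → ℝ} (hf : Measurable f)
    (hg : Measurable g) : Measurable fun x => w2 (f x) (g x) := by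
  unfold w2; fun_prop

theorem w3_meas {X : Type*} [MeasurableSpace X] {f g : X → ℝ} (hf : Measurable f)
    (hg : Measurable g) : Measurable fun x => w3 (f x) (g x) := by
  unfold w3; fun_prop

/-- the first term -/
noncomputable def FA (β ξ ζ x : ℝ) (z : ℝ × ℝ) : ℝ≥0∞ :=
  ENNReal.ofReal (w2 (2 * β * ζ ^ 2 * z.2) (2 * β * ξ ^ 2 * x) * (z.2 * z.1 ^ 2))

/-- the second term -/
noncomputable def FB (β ξ ζ : ℝ) (p : ℝ × ℝ) (x' : ℝ) : ℝ≥0∞ :=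
  ENNReal.ofReal (w3 (2 * β * ξ ^ 2 * p.2) (2 * β * ζ ^ 2 * x') * (p.2 * p.1 ^ 2))

theorem FA_meas {X : Type*} [MeasurableSpace X] (β : ℝ) {ξ ζ x : X → ℝ} {z : X → ℝ × ℝ}
    (h1 : Measurable ξ) (h2 : Measurable ζ) (h3 : Measurable x) (h4 : Measurable z) :
    Measurable fun t => FA β (ξ t) (ζ t) (x t) (z t) := by
  unfold FA
  apply ENNReal.measurable_ofReal.comp
  exact (w2_meas (by fun_prop) (by fun_prop)).mul (by fun_prop)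

theorem FB_meas {X : Type*} [MeasurableSpace X] (β : ℝ) {ξ ζ x : X → ℝ} {z : X → ℝ × ℝ}
    (h1 : Measurable ξ) (h2 : Measurable ζ) (h3 : Measurable x) (h4 : Measurable z) :
    Measurable fun t => FB β (ξ t) (ζ t) (z t) (x t) := by
  unfold FB
  apply ENNReal.measurable_ofReal.comp
  exact (w3_meas (by fun_prop) (by fun_prop)).mul (by fun_prop)

theorem swapA (D μ : Measure ℝ) (π π' : Measure (ℝ × ℝ)) [IsProbabilityMeasure D]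
    [IsProbabilityMeasure μ] [IsProbabilityMeasure π] [IsProbabilityMeasure π']
    (hπ : π.map Prod.snd = μ) (G : ℝ → ℝ → ℝ → (ℝ × ℝ) → ℝ≥0∞)
    (hG : ∀ {X : Type} [MeasurableSpace X] {a b c : X → ℝ} {d : X → ℝ × ℝ}, Measurable a →
      Measurable b → Measurable c → Measurable d → Measurable fun t => G (a t) (b t) (c t) (d t)) :
    ∫⁻ y : (ℝ × ℝ) × (ℝ × ℝ), ∫⁻ z, G y.2.1 y.2.2 y.1.2 z ∂π' ∂(π.prod (D.prod D)) =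
      ∫⁻ z, ∫⁻ ξ, ∫⁻ ζ, ∫⁻ x', G ζ ξ x' z ∂μ ∂D ∂D ∂π' := by
  have m1 : Measurable fun q : ((ℝ × ℝ) × (ℝ × ℝ)) × (ℝ × ℝ) => G q.1.2.1 q.1.2.2 q.1.1.2 q.2 :=
    hG (by fun_prop) (by fun_prop) (by fun_prop) (by fun_prop)
  have s1 : ∫⁻ y : (ℝ × ℝ) × (ℝ × ℝ), ∫⁻ z, G y.2.1 y.2.2 y.1.2 z ∂π' ∂(π.prod (D.prod D)) =
      ∫⁻ z, ∫⁻ y : (ℝ × ℝ) × (ℝ × ℝ), G y.2.1 y.2.2 y.1.2 z ∂(π.prod (D.prod D)) ∂π' :=
    lintegral_lintegral_swap (f := fun (y : (ℝ × ℝ) × (ℝ × ℝ)) z => G y.2.1 y.2.2 y.1.2 z)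
      m1.aemeasurable
  rw [s1]
  refine lintegral_congr fun z => ?_
  have m2 : Measurable fun y : (ℝ × ℝ) × (ℝ × ℝ) => G y.2.1 y.2.2 y.1.2 z :=
    hG (by fun_prop) (by fun_prop) (by fun_prop) measurable_const
  have s2 : ∫⁻ y : (ℝ × ℝ) × (ℝ × ℝ), G y.2.1 y.2.2 y.1.2 z ∂(π.prod (D.prod D)) =
      ∫⁻ p : ℝ × ℝ, ∫⁻ e : ℝ × ℝ, G e.1 e.2 p.2 z ∂(D.prod D) ∂π :=
    lintegral_prod _ m2.aemeasurable
  have m3 : Measurable fun q : ℝ × (ℝ × ℝ) => G q.2.1 q.2.2 q.1 z :=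
    hG (by fun_prop) (by fun_prop) (by fun_prop) measurable_const
  have m3' : Measurable fun x' : ℝ => ∫⁻ e : ℝ × ℝ, G e.1 e.2 x' z ∂(D.prod D) :=
    m3.lintegral_prod_right'
  have s3 : ∫⁻ p : ℝ × ℝ, ∫⁻ e : ℝ × ℝ, G e.1 e.2 p.2 z ∂(D.prod D) ∂π =
      ∫⁻ x', ∫⁻ e : ℝ × ℝ, G e.1 e.2 x' z ∂(D.prod D) ∂μ := by
    rw [← hπ]
    exact (lintegral_map m3' measurable_snd).symm
  have s4 : ∫⁻ x', ∫⁻ e : ℝ × ℝ, G e.1 e.2 x' z ∂(D.prod D) ∂μ =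
      ∫⁻ e : ℝ × ℝ, ∫⁻ x', G e.1 e.2 x' z ∂μ ∂(D.prod D) :=
    lintegral_lintegral_swap (f := fun x' (e : ℝ × ℝ) => G e.1 e.2 x' z) m3.aemeasurable
  have m4 : Measurable fun q : (ℝ × ℝ) × ℝ => G q.1.1 q.1.2 q.2 z :=
    hG (by fun_prop) (by fun_prop) (by fun_prop) measurable_const
  have m4' : Measurable fun e : ℝ × ℝ => ∫⁻ x', G e.1 e.2 x' z ∂μ := m4.lintegral_prod_right'
  have s5 : ∫⁻ e : ℝ × ℝ, ∫⁻ x', G e.1 e.2 x' z ∂μ ∂(D.prod D) =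
      ∫⁻ ζ, ∫⁻ ξ, ∫⁻ x', G ζ ξ x' z ∂μ ∂D ∂D := lintegral_prod _ m4'.aemeasurable
  have s6 : ∫⁻ ζ, ∫⁻ ξ, ∫⁻ x', G ζ ξ x' z ∂μ ∂D ∂D = ∫⁻ ξ, ∫⁻ ζ, ∫⁻ x', G ζ ξ x' z ∂μ ∂D ∂D :=
    lintegral_lintegral_swap (f := fun ζ ξ => ∫⁻ x', G ζ ξ x' z ∂μ) m4'.aemeasurable
  rw [s2, s3, s4, s5, s6]

theorem swapB (D μ : Measure ℝ) (π π' : Measure (ℝ × ℝ)) [IsProbabilityMeasure D]
    [IsProbabilityMeasure μ] [IsProbabilityMeasure π] [IsProbabilityMeasure π']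
    (hπ' : π'.map Prod.snd = μ) (G : ℝ → ℝ → (ℝ × ℝ) → ℝ → ℝ≥0∞)
    (hG : ∀ {X : Type} [MeasurableSpace X] {a b c : X → ℝ} {d : X → ℝ × ℝ}, Measurable a →
      Measurable b → Measurable c → Measurable d → Measurable fun t => G (a t) (b t) (d t) (c t)) :
    ∫⁻ y : (ℝ × ℝ) × (ℝ × ℝ), ∫⁻ z, G y.2.1 y.2.2 y.1 z.2 ∂π' ∂(π.prod (D.prod D)) =
      ∫⁻ z, ∫⁻ ξ, ∫⁻ ζ, ∫⁻ x', G ξ ζ z x' ∂μ ∂D ∂D ∂π := by
  have e2 : ∀ y : (ℝ × ℝ) × (ℝ × ℝ), ∫⁻ z, G y.2.1 y.2.2 y.1 z.2 ∂π' =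
      ∫⁻ x', G y.2.1 y.2.2 y.1 x' ∂μ := by
    intro y
    have m : Measurable fun x' : ℝ => G y.2.1 y.2.2 y.1 x' :=
      hG measurable_const measurable_const measurable_id measurable_const
    rw [← hπ']
    exact (lintegral_map m measurable_snd).symm
  have s0 : ∫⁻ y : (ℝ × ℝ) × (ℝ × ℝ), ∫⁻ z, G y.2.1 y.2.2 y.1 z.2 ∂π' ∂(π.prod (D.prod D)) =
      ∫⁻ y : (ℝ × ℝ) × (ℝ × ℝ), ∫⁻ x', G y.2.1 y.2.2 y.1 x' ∂μ ∂(π.prod (D.prod D)) :=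
    lintegral_congr e2
  have m1 : Measurable fun q : ((ℝ × ℝ) × (ℝ × ℝ)) × ℝ => G q.1.2.1 q.1.2.2 q.1.1 q.2 :=
    hG (by fun_prop) (by fun_prop) (by fun_prop) (by fun_prop)
  have m1' : Measurable fun y : (ℝ × ℝ) × (ℝ × ℝ) => ∫⁻ x', G y.2.1 y.2.2 y.1 x' ∂μ :=
    m1.lintegral_prod_right'
  have s1 : ∫⁻ y : (ℝ × ℝ) × (ℝ × ℝ), ∫⁻ x', G y.2.1 y.2.2 y.1 x' ∂μ ∂(π.prod (D.prod D)) =
      ∫⁻ p : ℝ × ℝ, ∫⁻ e : ℝ × ℝ, ∫⁻ x', G e.1 e.2 p x' ∂μ ∂(D.prod D) ∂π :=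
    lintegral_prod _ m1'.aemeasurable
  rw [s0, s1]
  refine lintegral_congr fun p => ?_
  have m2 : Measurable fun q : (ℝ × ℝ) × ℝ => G q.1.1 q.1.2 p q.2 :=
    hG (by fun_prop) (by fun_prop) (by fun_prop) measurable_const
  have m2' : Measurable fun e : ℝ × ℝ => ∫⁻ x', G e.1 e.2 p x' ∂μ := m2.lintegral_prod_right'
  exact lintegral_prod _ m2'.aemeasurable

theorem addAB (D μ : Measure ℝ) (π π' : Measure (ℝ × ℝ)) [IsProbabilityMeasure D]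
    [IsProbabilityMeasure μ] [IsProbabilityMeasure π] [IsProbabilityMeasure π']
    (G : ℝ → ℝ → ℝ → (ℝ × ℝ) → ℝ≥0∞) (G' : ℝ → ℝ → (ℝ × ℝ) → ℝ → ℝ≥0∞)
    (hG : ∀ {X : Type} [MeasurableSpace X] {a b c : X → ℝ} {d : X → ℝ × ℝ}, Measurable a →
      Measurable b → Measurable c → Measurable d → Measurable fun t => G (a t) (b t) (c t) (d t)) :
    ∫⁻ y : (ℝ × ℝ) × (ℝ × ℝ), ∫⁻ z, (G y.2.1 y.2.2 y.1.2 z + G' y.2.1 y.2.2 y.1 z.2) ∂π'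
        ∂(π.prod (D.prod D)) =
      (∫⁻ y : (ℝ × ℝ) × (ℝ × ℝ), ∫⁻ z, G y.2.1 y.2.2 y.1.2 z ∂π' ∂(π.prod (D.prod D))) +
        ∫⁻ y : (ℝ × ℝ) × (ℝ × ℝ), ∫⁻ z, G' y.2.1 y.2.2 y.1 z.2 ∂π' ∂(π.prod (D.prod D)) := by
  have m1 : Measurable fun q : ((ℝ × ℝ) × (ℝ × ℝ)) × (ℝ × ℝ) => G q.1.2.1 q.1.2.2 q.1.1.2 q.2 :=
    hG (by fun_prop) (by fun_prop) (by fun_prop) (by fun_prop)
  have m1' : Measurable fun y : (ℝ × ℝ) × (ℝ × ℝ) => ∫⁻ z, G y.2.1 y.2.2 y.1.2 z ∂π' :=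
    m1.lintegral_prod_right'
  rw [← lintegral_add_left m1']
  refine lintegral_congr fun y => ?_
  exact lintegral_add_left
    (hG measurable_const measurable_const measurable_const measurable_id) _

theorem main : Pool.Agent.Q222.JD.TaskM2alg := by
  intro α β D μ π π' hS hπ hπ'
  have := hS.D1
  have := hS.μ1
  have := hπ.p1
  have := hπ'.p1
  have hβ := hS.β0
  have h1 : ∀ᵐ p ∂π, (0:ℝ) ≤ p.2 := by
    have h := hS.μI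
    rw [← hπ.snd] at h
    filter_upwards [ae_of_ae_map measurable_snd.aemeasurable h] with p hp using hp.1
  have h1' : ∀ᵐ p ∂π', (0:ℝ) ≤ p.2 := by
    have h := hS.μI
    rw [← hπ'.snd] at h
    filter_upwards [ae_of_ae_map measurable_snd.aemeasurable h] with p hp using hp.1
  have h2 : ∀ᵐ y ∂(π.prod (D.prod D)), (0:ℝ) ≤ y.1.2 :=
    (Measure.quasiMeasurePreserving_fst (μ := π) (ν := D.prod D)).ae h1
  unfold Q ing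
  rw [← mul_add]
  congr 1
  have step1 : ∫⁻ y, ∫⁻ z, ENNReal.ofReal (T β y * (z.2 / (1 + z.2 * T β y)) ^ 2 *
      (z.1 ^ 2 + C β y ^ 2)) ∂π' ∂(π.prod (D.prod D)) =
      ∫⁻ y : (ℝ × ℝ) × (ℝ × ℝ), ∫⁻ z, (FA β y.2.1 y.2.2 y.1.2 z + FB β y.2.1 y.2.2 y.1 z.2) ∂π'
        ∂(π.prod (D.prod D)) := by
    refine lintegral_congr_ae ?_
    filter_upwards [h2] with y hy
    refine lintegral_congr_ae ?_
    filter_upwards [h1'] with z hz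
    unfold FA FB T C W
    rw [alg β y.2.1 y.2.2 y.1.1 y.1.2 z.1 z.2 hβ hy hz, ENNReal.ofReal_add]
    · exact mul_nonneg (w2_nonneg (by positivity) (by positivity)) (by positivity)
    · exact mul_nonneg (w3_nonneg (by positivity) (by positivity)) (by positivity)
  rw [step1, addAB D μ π π' (FA β) (FB β) (fun a b c d => FA_meas β a b c d),
    swapA D μ π π' hπ.snd (FA β) (fun a b c d => FA_meas β a b c d),
    swapB D μ π π' hπ'.snd (FB β) (fun a b c d => FB_meas β a b c d)]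
  rfl

end Pool.Agent.Q222.JD.TaskM2alg
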