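import Pool.Agent.Q222.JD.Stmts

set_option autoImplicit false

open MeasureTheory ProbabilityTheory Filter Topology
open scoped ENNReal NNReal

namespace Pool.Agent.Q222.JD.TaskM2raw

theorem meas_W (β : ℝ) : Measurable (W β) := by
  unfold W
  fun_prop

theorem meas_C (β : ℝ) : Measurable (C β) := by
  unfold C
  exact Measurable.div (by fun_prop) (meas_W β)

theorem meas_T (β : ℝ) : Measurable (T β) := by
  unfold T
  exact Measurable.div (by fun_prop) (meas_W β)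

/-- the flip of `ξ` -/
def flip (y : Y) : Y := (y.1, (-y.2.1, y.2.2))

theorem W_flip (β : ℝ) (y : Y) : W β (flip y) = W β y := by
  unfold W flip
  ring

theorem T_flip (β : ℝ) (y : Y) : T β (flip y) = T β y := by
  unfold T
  rw [W_flip]
  rfl

theorem C_flip (β : ℝ) (y : Y) : C β (flip y) = -C β y := by
  unfold C
  rw [W_flip, ← neg_div]
  congr 1
  unfold flip
  ring

theorem mp_flip (D : Measure ℝ) [IsProbabilityMeasure D] (hD : D.map (fun x => -x) = D)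
    (π : Measure (ℝ × ℝ)) [IsProbabilityMeasure π] : MeasurePreserving flip (ing D π) (ing D π) := by
  have h1 : MeasurePreserving (fun x : ℝ => -x) D D := ⟨measurable_neg, hD⟩
  have h2 := (MeasurePreserving.id π).prod (h1.prod (MeasurePreserving.id D))
  exact h2

theorem ae_T {α : ℝ≥0} {β : ℝ} {D μ : Measure ℝ} {π : Measure (ℝ × ℝ)} (hS : Std α β D μ)
    (hA : Adm μ π) : ∀ᵐ y ∂(ing D π), 0 ≤ T β y := by
  have h1 := hA.p1
  have h2 := hS.D1
  have h3 : ∀ᵐ x ∂(π.map Prod.snd), 0 ≤ x ∧ x ≤ 1 := by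
    rw [hA.snd]
    exact hS.μI
  have h4 : ∀ᵐ p ∂π, 0 ≤ p.2 ∧ p.2 ≤ 1 := ae_of_ae_map measurable_snd.aemeasurable h3
  have h5 : ∀ᵐ y ∂(ing D π), 0 ≤ y.1.2 ∧ y.1.2 ≤ 1 :=
    Measure.quasiMeasurePreserving_fst.ae h4
  filter_upwards [h5] with y hy
  have hβ := hS.β0
  unfold T W
  have hx := hy.1
  positivity

theorem ae_seq (l : ℝ≥0) (ν : Measure Y) [IsProbabilityMeasure ν] (β : ℝ)
    (hT : ∀ᵐ y ∂ν, 0 ≤ T β y) : ∀ᵐ z ∂(seq l ν), ∀ k, 0 ≤ T β (z.1 k) := by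
  have h1 : ∀ᵐ ω ∂(Measure.infinitePi fun _ : ℕ => ν), ∀ k, 0 ≤ T β (ω k) :=
    ae_all_iff.2 fun k =>
      (measurePreserving_eval_infinitePi (fun _ : ℕ => ν) k).quasiMeasurePreserving.ae hT
  exact Measure.quasiMeasurePreserving_fst.ae h1


theorem alg1 (S u : ℝ) (hS : 0 ≤ S) :
    1 / (1 + S) * u ^ 2 = (1 / (1 + S) * u) ^ 2 + S * (1 / (1 + S)) ^ 2 * u ^ 2 := by
  have hne : 1 + S ≠ 0 := by positivity
  field_simp

theorem alg2 (S t : ℝ) (hS : 0 ≤ S) (ht : 0 ≤ t) :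
    1 / (1 + (t + S)) = 1 / (1 + S) / (1 + 1 / (1 + S) * t) := by
  have hne : 1 + S ≠ 0 := by positivity
  have hne2 : 1 + (t + S) ≠ 0 := by positivity
  have hne3 : 1 + 1 / (1 + S) * t ≠ 0 := by positivity
  rw [div_div, div_eq_div_iff hne2 (mul_ne_zero hne hne3)]
  field_simp
  ring

/-- the marked integrand -/
noncomputable def J (β : ℝ) (y : Y) (w : ℝ × ℝ) : ℝ≥0∞ :=
  ENNReal.ofReal (T β y * (w.2 / (1 + w.2 * T β y)) ^ 2 * (w.1 - C β y) ^ 2)

noncomputable def J2 (β : ℝ) (y : Y) (w : ℝ × ℝ) : ℝ≥0∞ :=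
  ENNReal.ofReal (T β y * (w.2 / (1 + w.2 * T β y)) ^ 2 * (w.1 ^ 2 + C β y ^ 2))

noncomputable def fM (β s : ℝ) (y : Y) (w : ℝ × ℝ) : ℝ≥0∞ :=
  ENNReal.ofReal (T β y * (1 / (1 + w.2)) ^ 2 * (s - w.1) ^ 2)

noncomputable def GM (β : ℝ) (y : Y) : ℝ × ℝ := (C β y, T β y)

theorem meas_GM (β : ℝ) : Measurable (GM β) := (meas_C β).prodMk (meas_T β)

theorem meas_fM (β s : ℝ) : Measurable (Function.uncurry (fM β s)) := by
  have h1 : Measurable fun p : Y × (ℝ × ℝ) => T β p.1 := (meas_T β).comp measurable_fst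
  have h3 : Measurable fun p : Y × (ℝ × ℝ) => (1 / (1 + p.2.2)) ^ 2 := by fun_prop
  have h4 : Measurable fun p : Y × (ℝ × ℝ) => (s - p.2.1) ^ 2 := by fun_prop
  exact Measurable.ennreal_ofReal ((h1.mul h3).mul h4)

theorem meas_J (β : ℝ) : Measurable (Function.uncurry (J β)) := by
  have h1 : Measurable fun p : Y × (ℝ × ℝ) => T β p.1 := (meas_T β).comp measurable_fst
  have h2 : Measurable fun p : Y × (ℝ × ℝ) => C β p.1 := (meas_C β).comp measurable_fst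
  have h3 : Measurable fun p : Y × (ℝ × ℝ) => p.2.2 := by fun_prop
  have h4 : Measurable fun p : Y × (ℝ × ℝ) => p.2.1 := by fun_prop
  exact Measurable.ennreal_ofReal ((h1.mul ((h3.div ((h3.mul h1).const_add 1)).pow_const 2)).mul
    ((h4.sub h2).pow_const 2))

theorem sum_GM (β : ℝ) (z : (ℕ → Y) × ℕ) : ∑ j ∈ Finset.range z.2, GM β (z.1 j) =
    (∑ j ∈ Finset.range z.2, C β (z.1 j), ∑ j ∈ Finset.range z.2, T β (z.1 j)) := by
  rw [Prod.ext_iff, Prod.fst_sum, Prod.snd_sum]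
  exact ⟨rfl, rfl⟩

theorem point1 (β s : ℝ) (z : (ℕ → Y) × ℕ) (hz : ∀ k, 0 ≤ T β (z.1 k)) :
    ENNReal.ofReal ((out β s z).2 * (out β s z).1 ^ 2) =
      ENNReal.ofReal (((out β s z).2 * (out β s z).1) ^ 2) +
      ∑ k ∈ Finset.range z.2, fM β s (z.1 k) (∑ j ∈ Finset.range z.2, GM β (z.1 j)) := by
  have hS0 : 0 ≤ ∑ k ∈ Finset.range z.2, T β (z.1 k) := Finset.sum_nonneg fun k _ => hz k
  rw [sum_GM]
  unfold fM out
  simp only
  rw [← ENNReal.ofReal_sum_of_nonneg (fun k _ =>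
      mul_nonneg (mul_nonneg (hz k) (sq_nonneg _)) (sq_nonneg _)),
    ← ENNReal.ofReal_add (sq_nonneg _) (Finset.sum_nonneg fun k _ =>
      mul_nonneg (mul_nonneg (hz k) (sq_nonneg _)) (sq_nonneg _)),
    ← Finset.sum_mul, ← Finset.sum_mul]
  rw [alg1 _ _ hS0]

theorem point2 (β s : ℝ) (y : Y) (hy : 0 ≤ T β y) (z : (ℕ → Y) × ℕ)
    (hz : ∀ k, 0 ≤ T β (z.1 k)) :
    fM β s y (GM β y + ∑ j ∈ Finset.range z.2, GM β (z.1 j)) = J β y (out β s z) := by
  have hS0 : 0 ≤ ∑ k ∈ Finset.range z.2, T β (z.1 k) := Finset.sum_nonneg fun k _ => hz k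
  rw [sum_GM]
  unfold fM J out GM
  simp only [Prod.mk_add_mk]
  rw [alg2 _ _ hS0 hy]
  congr 2
  ring

theorem point3 (β : ℝ) (y : Y) (hy : 0 ≤ T β y) (w : ℝ × ℝ) :
    J β y w + J β (flip y) w = 2 * J2 β y w := by
  unfold J J2
  rw [T_flip, C_flip]
  have h2' : (2 : ℝ≥0∞) = ENNReal.ofReal 2 := by norm_num
  rw [← ENNReal.ofReal_add (mul_nonneg (mul_nonneg hy (sq_nonneg _)) (sq_nonneg _))
      (mul_nonneg (mul_nonneg hy (sq_nonneg _)) (sq_nonneg _)), h2',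
    ← ENNReal.ofReal_mul (by norm_num)]
  congr 1
  ring

theorem form1 (hO : TaskMeas) (α : ℝ≥0) (β s : ℝ) (D : Measure ℝ) (π : Measure (ℝ × ℝ))
    (hTs : ∀ᵐ z ∂(seq (2 * α) (ing D π)), ∀ k, 0 ≤ T β (z.1 k)) :
    F (Phi α β s D π) = H (Phi α β s D π) +
      ∫⁻ z, ∑ k ∈ Finset.range z.2, fM β s (z.1 k) (∑ j ∈ Finset.range z.2, GM β (z.1 j))
        ∂(seq (2 * α) (ing D π)) := by
  have e1 : F (Phi α β s D π) = ∫⁻ z, ENNReal.ofReal ((out β s z).2 * (out β s z).1 ^ 2)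
      ∂(seq (2 * α) (ing D π)) := by
    unfold F Phi
    rw [lintegral_map (by fun_prop) (hO β s)]
  have e2 : H (Phi α β s D π) = ∫⁻ z, ENNReal.ofReal (((out β s z).2 * (out β s z).1) ^ 2)
      ∂(seq (2 * α) (ing D π)) := by
    unfold H Phi
    rw [lintegral_map (by fun_prop) (hO β s)]
  have hm : Measurable fun z => ENNReal.ofReal (((out β s z).2 * (out β s z).1) ^ 2) :=
    Measurable.ennreal_ofReal (((hO β s).snd.mul (hO β s).fst).pow_const 2)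
  rw [e1, e2, ← lintegral_add_left hm]
  refine lintegral_congr_ae ?_
  filter_upwards [hTs] with z hz
  exact point1 β s z hz

theorem form2 (hO : TaskMeas) (α : ℝ≥0) (β s : ℝ) (D : Measure ℝ) (π : Measure (ℝ × ℝ))
    (hT : ∀ᵐ y ∂(ing D π), 0 ≤ T β y)
    (hTs : ∀ᵐ z ∂(seq (2 * α) (ing D π)), ∀ k, 0 ≤ T β (z.1 k)) :
    ∫⁻ y, ∫⁻ z, fM β s y (GM β y + ∑ j ∈ Finset.range z.2, GM β (z.1 j))
        ∂(seq (2 * α) (ing D π)) ∂(ing D π) =
      ∫⁻ y, ∫⁻ w, J β y w ∂(Phi α β s D π) ∂(ing D π) := by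
  refine lintegral_congr_ae ?_
  filter_upwards [hT] with y hy
  have hm : Measurable (J β y) := (meas_J β).comp (measurable_prodMk_left (x := y))
  unfold Phi
  rw [lintegral_map hm (hO β s)]
  refine lintegral_congr_ae ?_
  filter_upwards [hTs] with z hz
  exact point2 β s y hy z hz

theorem form3 (β : ℝ) (D : Measure ℝ) (π P : Measure (ℝ × ℝ)) [IsProbabilityMeasure D]
    [IsProbabilityMeasure π] [IsProbabilityMeasure P] (hD : D.map (fun x => -x) = D)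
    (hT : ∀ᵐ y ∂(ing D π), 0 ≤ T β y) :
    ∫⁻ y, ∫⁻ w, J β y w ∂P ∂(ing D π) = ∫⁻ y, ∫⁻ w, J2 β y w ∂P ∂(ing D π) := by
  have hΨ : Measurable fun y : Y => ∫⁻ w, J β y w ∂P := (meas_J β).lintegral_prod_right'
  have h1 : ∫⁻ y, ∫⁻ w, J β (flip y) w ∂P ∂(ing D π) = ∫⁻ y, ∫⁻ w, J β y w ∂P ∂(ing D π) :=
    (mp_flip D hD π).lintegral_comp hΨ
  have h2 : ∫⁻ y, ∫⁻ w, J β y w ∂P ∂(ing D π) + ∫⁻ y, ∫⁻ w, J β (flip y) w ∂P ∂(ing D π) =
      2 * ∫⁻ y, ∫⁻ w, J2 β y w ∂P ∂(ing D π) := by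
    rw [← lintegral_add_left hΨ, ← lintegral_const_mul' 2 _ (by norm_num)]
    refine lintegral_congr_ae ?_
    filter_upwards [hT] with y hy
    have hm : Measurable (J β y) := (meas_J β).comp (measurable_prodMk_left (x := y))
    rw [← lintegral_add_left hm, ← lintegral_const_mul' 2 _ (by norm_num)]
    exact lintegral_congr fun w => point3 β y hy w
  rw [h1, ← two_mul] at h2
  exact (ENNReal.mul_right_inj (by norm_num) (by norm_num)).1 h2

theorem main (hM : TaskMecke) (hO : TaskMeas) : Pool.Agent.Q222.JD.TaskM2raw := by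
  intro α β s D μ π hS hA
  have hπ1 := hA.p1
  have hD1 := hS.D1
  have hν : IsProbabilityMeasure (ing D π) := by unfold ing; infer_instance
  have hseqP : IsProbabilityMeasure (seq (2 * α) (ing D π)) := by unfold seq; infer_instance
  have hPhi : IsProbabilityMeasure (Phi α β s D π) := by
    unfold Phi
    exact Measure.isProbabilityMeasure_map (hO β s).aemeasurable
  have hT := ae_T hS hA
  have hTs := ae_seq (2 * α) (ing D π) β hT
  have e3 := hM Y (ing D π) (2 * α) (GM β) (meas_GM β) (fM β s) (meas_fM β s)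
  rw [form1 hO α β s D π hTs, e3, form2 hO α β s D π hT hTs,
    form3 β D π (Phi α β s D π) hS.Dsymm hT]
  rfl

end Pool.Agent.Q222.JD.TaskM2raw
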