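import Pool.Agent.Q222.JD.Stmts

/-! Backup proof of `TaskMarg` (helper133). -/

set_option autoImplicit false

open MeasureTheory ProbabilityTheory Filter Topology
open scoped ENNReal NNReal

namespace Pool.Agent.Q222.JD.TaskMargB

open Pool.Agent.Q222.JD

private def L (y : Y) : ℝ × (ℝ × ℝ) := (y.1.2, y.2)

private lemma L_meas : Measurable L := by
  unfold L
  exact (measurable_snd.comp measurable_fst).prodMk measurable_snd

private def M (z : (ℕ → Y) × ℕ) : (ℕ → ℝ × (ℝ × ℝ)) × ℕ := (fun k => L (z.1 k), z.2)

private lemma M_meas : Measurable M := by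
  unfold M
  refine Measurable.prodMk ?_ measurable_snd
  refine measurable_pi_lambda _ fun k => ?_
  exact L_meas.comp ((measurable_pi_apply k).comp measurable_fst)

/-- the output map for `X` alone -/
private noncomputable def xo (β : ℝ) (z : (ℕ → ℝ × (ℝ × ℝ)) × ℕ) : ℝ :=
  1 / (1 + ∑ k ∈ Finset.range z.2, 2 * β * (z.1 k).2.2 ^ 2 / (1 + 2 * β * (z.1 k).2.1 ^ 2 * (z.1 k).1))

private lemma xo_eq (β s : ℝ) (z : (ℕ → Y) × ℕ) : xo β (M z) = (out β s z).2 := by
  simp only [xo, M, out, T, W, L]

private lemma xo_meas (β : ℝ) (h : TaskMeas) : Measurable (xo β) := by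
  -- embed `(x, (ξ, ζ))` as `((0, x), (ξ, ζ))`
  have hE : Measurable (fun z : (ℕ → ℝ × (ℝ × ℝ)) × ℕ =>
      (((fun k => ((0, (z.1 k).1), (z.1 k).2)) : ℕ → Y), z.2)) := by
    refine Measurable.prodMk ?_ measurable_snd
    refine measurable_pi_lambda _ fun k => ?_
    have : Measurable (fun y : ℝ × (ℝ × ℝ) => (((0 : ℝ), y.1), y.2)) :=
      (measurable_const.prodMk measurable_fst).prodMk measurable_snd
    exact this.comp ((measurable_pi_apply k).comp measurable_fst)
  have h1 := (measurable_snd.comp ((h β 0).comp hE))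
  have he : xo β = (Prod.snd ∘ (out β 0 ∘ fun z : (ℕ → ℝ × (ℝ × ℝ)) × ℕ =>
      (((fun k => ((0, (z.1 k).1), (z.1 k).2)) : ℕ → Y), z.2))) := by
    funext z
    simp only [xo, out, T, W, Function.comp]
  rw [he]; exact h1

theorem main (h : TaskMeas) : Pool.Agent.Q222.JD.TaskMarg := by
  intro α β s D π hD hπ
  have hi : IsProbabilityMeasure (ing D π) := by unfold ing; infer_instance
  have hs : IsProbabilityMeasure (seq (2 * α) (ing D π)) := by
    unfold seq; infer_instance
  refine ⟨Measure.isProbabilityMeasure_map (h β s).aemeasurable, ?_⟩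
  have hsnd : IsProbabilityMeasure (π.map Prod.snd) :=
    Measure.isProbabilityMeasure_map measurable_snd.aemeasurable
  have h1 : (ing D π).map L = (π.map Prod.snd).prod (D.prod D) := by
    have := Measure.map_prod_map π (D.prod D) measurable_snd measurable_id
    rw [Measure.map_id] at this
    rw [ing, this]
    rfl
  have h2 : (seq (2 * α) (ing D π)).map M = seq (2 * α) ((π.map Prod.snd).prod (D.prod D)) := by
    have h3 : (Measure.infinitePi fun _ : ℕ => ing D π).map (fun ω k => L (ω k)) =
        Measure.infinitePi fun _ : ℕ => (ing D π).map L :=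
      Measure.infinitePi_map_pi (μ := fun _ : ℕ => ing D π) (f := fun _ => L)
        (fun _ => L_meas)
    have h4 := Measure.map_prod_map (Measure.infinitePi fun _ : ℕ => ing D π)
      (poissonMeasure (2 * α)) (f := fun ω k => L (ω k)) (g := id)
      (measurable_pi_lambda _ fun k => L_meas.comp (measurable_pi_apply k)) measurable_id
    rw [Measure.map_id, h3, h1] at h4
    unfold seq
    rw [h4]
    rfl
  unfold Phi XMap
  rw [Measure.map_map measurable_snd (h β s), ← h2]
  change _ = Measure.map (xo β) _
  rw [Measure.map_map (xo_meas β h) M_meas]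
  have hx : xo β ∘ M = Prod.snd ∘ out β s := funext fun z => xo_eq β s z
  rw [hx]

end Pool.Agent.Q222.JD.TaskMargB
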