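import Pool.Agent.Q222.JD.Stmts

set_option autoImplicit false

/-! Mecke formula for Poisson sums from the exchangeability identity. -/

open MeasureTheory ProbabilityTheory
open scoped ENNReal NNReal

namespace Pool.Agent.Q222.JD.TaskMecke

lemma seq_int {Z : Type} [MeasurableSpace Z] (l : ℝ≥0) (ν : Measure Z) [IsProbabilityMeasure ν]
    (h : (ℕ → Z) × ℕ → ℝ≥0∞) (hh : ∀ n, Measurable fun ω => h (ω, n)) :
    ∫⁻ z, h z ∂(seq l ν) =
      ∑' n, (∫⁻ ω, h (ω, n) ∂(Measure.infinitePi fun _ : ℕ => ν)) * poissonMeasure l {n} := by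
  unfold seq
  rw [lintegral_prod_symm' _ (measurable_from_prod_countable_left hh), lintegral_countable']

lemma weight (l : ℝ≥0) (r : ℕ) :
    ((r + 1 : ℕ) : ℝ≥0∞) * poissonMeasure l {r + 1} = l * poissonMeasure l {r} := by
  rw [poissonMeasure_singleton, poissonMeasure_singleton]
  rw [show ((r + 1 : ℕ) : ℝ≥0∞) = ENNReal.ofReal ((r + 1 : ℕ) : ℝ) from
      (ENNReal.ofReal_natCast _).symm,
    show (l : ℝ≥0∞) = ENNReal.ofReal (l : ℝ) from ENNReal.ofReal_coe_nnreal.symm,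
    ← ENNReal.ofReal_mul (by positivity), ← ENNReal.ofReal_mul (by positivity)]
  congr 1
  rw [Nat.factorial_succ, pow_succ]
  push_cast
  field_simp

theorem main (hfix : TaskMeckeFix) : Pool.Agent.Q222.JD.TaskMecke := by
  intro Z _ ν _ l G hG f hf
  have hS : ∀ n : ℕ, Measurable fun ω : ℕ → Z => ∑ j ∈ Finset.range n, G (ω j) := fun n =>
    Finset.measurable_sum _ (fun j _ => hG.comp (measurable_pi_apply j))
  have hf' : ∀ n k : ℕ, Measurable fun ω : ℕ → Z => f (ω k) (∑ j ∈ Finset.range n, G (ω j)) :=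
    fun n k => hf.comp ((measurable_pi_apply k).prodMk (hS n))
  have hf2 : ∀ n : ℕ, Measurable fun p : Z × (ℕ → Z) =>
      f p.1 (G p.1 + ∑ j ∈ Finset.range n, G (p.2 j)) := fun n =>
    hf.comp (measurable_fst.prodMk ((hG.comp measurable_fst).add ((hS n).comp measurable_snd)))
  have hm : ∀ n : ℕ, Measurable fun ω : ℕ → Z =>
      ∑ k ∈ Finset.range n, f (ω k) (∑ j ∈ Finset.range n, G (ω j)) := fun n =>
    Finset.measurable_sum _ (fun k _ => hf' n k)
  rw [seq_int l ν (fun z => ∑ k ∈ Finset.range z.2, f (z.1 k) (∑ j ∈ Finset.range z.2, G (z.1 j)))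
    (fun n => hm n), tsum_eq_zero_add' ENNReal.summable]
  have h0 : (∫⁻ ω, ∑ k ∈ Finset.range ((ω : ℕ → Z), 0).2,
      f (((ω : ℕ → Z), 0).1 k) (∑ j ∈ Finset.range ((ω : ℕ → Z), 0).2, G (((ω : ℕ → Z), 0).1 j))
        ∂(Measure.infinitePi fun _ : ℕ => ν)) * poissonMeasure l {0} = 0 := by
    simp
  rw [h0, zero_add]
  have hin : ∀ y : Z, ∫⁻ z, f y (G y + ∑ j ∈ Finset.range z.2, G (z.1 j)) ∂(seq l ν) =
      ∑' n, (∫⁻ ω, f y (G y + ∑ j ∈ Finset.range n, G (ω j))
        ∂(Measure.infinitePi fun _ : ℕ => ν)) * poissonMeasure l {n} := by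
    intro y
    exact seq_int l ν (fun z => f y (G y + ∑ j ∈ Finset.range z.2, G (z.1 j)))
      (fun n => (hf2 n).comp (measurable_const.prodMk measurable_id))
  simp only [hin]
  rw [lintegral_tsum]
  · rw [← ENNReal.tsum_mul_left]
    apply tsum_congr
    intro r
    have e := hfix Z ν G hG f hf r
    rw [lintegral_mul_const _ (hf2 r).lintegral_prod_right']
    simp only at e ⊢
    rw [e, mul_comm (((r + 1 : ℕ) : ℝ≥0∞)), mul_assoc, weight, ← mul_assoc, mul_comm _ (l : ℝ≥0∞),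
      mul_assoc]
  · intro n
    exact ((hf2 n).lintegral_prod_right'.mul_const _).aemeasurable

end Pool.Agent.Q222.JD.TaskMecke
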