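import Pool.Agent.Q222.JD.Stmts

/-!
# JD: exchangeability for `r + 1` summands (helper228)
-/

set_option autoImplicit false

open MeasureTheory ProbabilityTheory Filter Topology
open scoped ENNReal NNReal

namespace Pool.Agent.Q222.JD.TaskMeckeFix

variable {Z : Type} [MeasurableSpace Z] (ν : Measure Z) [IsProbabilityMeasure ν]

/-- put `p.1` in front of the sequence `p.2` -/
private def cons (p : Z × (ℕ → Z)) : ℕ → Z := fun n => Nat.casesOn n p.1 p.2

omit [MeasurableSpace Z] in
private lemma cons_zero (p : Z × (ℕ → Z)) : cons p 0 = p.1 := rfl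
omit [MeasurableSpace Z] in
private lemma cons_succ (p : Z × (ℕ → Z)) (n : ℕ) : cons p (n + 1) = p.2 n := rfl

private lemma measurable_cons : Measurable (cons (Z := Z)) := by
  refine measurable_pi_lambda _ fun n => ?_
  cases n with
  | zero => exact measurable_fst
  | succ n => exact (measurable_pi_apply n).comp measurable_snd

private lemma map_cons : (ν.prod (Measure.infinitePi fun _ : ℕ => ν)).map cons =
    Measure.infinitePi fun _ : ℕ => ν := by
  classical
  refine Measure.eq_infinitePi _ ?_
  intro s t ht
  set t' : ℕ → Set Z := fun i => if i ∈ s then t i else Set.univ with ht'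
  have mt' : ∀ i, MeasurableSet (t' i) := by
    intro i
    by_cases hi : i ∈ s
    · simpa [t', hi] using ht i
    · simp [t', hi]
  set N : ℕ := s.sup id with hN
  have hs : ∀ i ∈ s, i < N + 1 := fun i hi => Nat.lt_succ_of_le (Finset.le_sup (f := id) hi)
  have e1 : cons ⁻¹' (Set.pi (s : Set ℕ) t) =
      t' 0 ×ˢ (Set.pi (Finset.range N : Set ℕ) fun i => t' (i + 1)) := by
    ext p
    simp only [Set.mem_preimage, Set.mem_pi, Set.mem_prod, Finset.mem_coe, Finset.mem_range]
    constructor
    · intro h
      refine ⟨?_, fun i _ => ?_⟩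
      · by_cases h0 : 0 ∈ s
        · simpa [t', h0, cons_zero] using h 0 h0
        · simp [t', h0]
      · by_cases h0 : i + 1 ∈ s
        · simpa [t', h0, cons_succ] using h (i + 1) h0
        · simp [t', h0]
    · rintro ⟨h0, h1⟩ i hi
      cases i with
      | zero => simpa [t', hi, cons_zero] using h0
      | succ i =>
        have := h1 i (by have := hs _ hi; omega)
        simpa [t', hi, cons_succ] using this
  rw [Measure.map_apply measurable_cons (MeasurableSet.pi s.countable_toSet fun i _ => ht i), e1,
    Measure.prod_prod, Measure.infinitePi_pi _ (fun i _ => mt' (i + 1))]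
  have e2 : ∏ i ∈ Finset.range (N + 1), ν (t' i) = ∏ i ∈ s, ν (t i) := by
    have hsub : s ⊆ Finset.range (N + 1) := fun i hi => Finset.mem_range.2 (hs i hi)
    rw [← Finset.prod_subset hsub]
    · refine Finset.prod_congr rfl fun i hi => ?_
      simp [t', hi]
    · intro i _ hi
      simp [t', hi]
  rw [← e2, Finset.prod_range_succ', mul_comm]

private lemma map_swap (k : ℕ) : (Measure.infinitePi fun _ : ℕ => ν).map
    (fun ω i => ω (Equiv.swap 0 k i)) = Measure.infinitePi fun _ : ℕ => ν := by
  classical
  have hm : Measurable (fun (ω : ℕ → Z) i => ω (Equiv.swap 0 k i)) :=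
    measurable_pi_lambda _ fun i => measurable_pi_apply _
  have hss : ∀ i, Equiv.swap 0 k (Equiv.swap 0 k i) = i := fun i => by
    rw [← Equiv.trans_apply, Equiv.swap_swap]; rfl
  refine Measure.eq_infinitePi _ ?_
  intro s t ht
  have e1 : (fun (ω : ℕ → Z) i => ω (Equiv.swap 0 k i)) ⁻¹' (Set.pi (s : Set ℕ) t) =
      Set.pi ((s.map (Equiv.swap 0 k).toEmbedding : Finset ℕ) : Set ℕ)
        fun i => t (Equiv.swap 0 k i) := by
    ext ω
    simp only [Set.mem_preimage, Set.mem_pi, Finset.mem_coe, Finset.mem_map_equiv,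
      Equiv.symm_swap]
    constructor
    · intro h i hi
      have := h _ hi
      rw [hss] at this
      exact this
    · intro h i hi
      have := h (Equiv.swap 0 k i) (by rw [hss]; exact hi)
      rw [hss] at this
      exact this
  rw [Measure.map_apply hm (MeasurableSet.pi s.countable_toSet fun i _ => ht i), e1,
    Measure.infinitePi_pi _ (fun i _ => ht _), Finset.prod_map]
  refine Finset.prod_congr rfl fun i _ => ?_
  exact congrArg (fun j => ν (t j)) (hss i)

theorem main : Pool.Agent.Q222.JD.TaskMeckeFix := by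
  intro Z _ ν _ G hG f hf r
  set P : Measure (ℕ → Z) := Measure.infinitePi fun _ : ℕ => ν with hP
  have mS : ∀ n : ℕ, Measurable fun ω : ℕ → Z => ∑ j ∈ Finset.range n, G (ω j) := fun n =>
    Finset.measurable_sum _ fun j _ => hG.comp (measurable_pi_apply j)
  have mf : ∀ k, Measurable fun ω : ℕ → Z => f (ω k) (∑ j ∈ Finset.range (r + 1), G (ω j)) :=
    fun k => hf.comp ((measurable_pi_apply k).prodMk (mS (r + 1)))
  rw [lintegral_finsetSum _ fun k _ => mf k]
  have h1 : ∀ k ∈ Finset.range (r + 1),
      ∫⁻ ω, f (ω k) (∑ j ∈ Finset.range (r + 1), G (ω j)) ∂P =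
        ∫⁻ y, ∫⁻ ω, f y (G y + ∑ j ∈ Finset.range r, G (ω j)) ∂P ∂ν := by
    intro k hk
    have hm : Measurable (fun (ω : ℕ → Z) i => ω (Equiv.swap 0 k i)) :=
      measurable_pi_lambda _ fun i => measurable_pi_apply _
    have e0 : ∫⁻ ω, f (ω k) (∑ j ∈ Finset.range (r + 1), G (ω j)) ∂P =
        ∫⁻ ω, f (ω 0) (∑ j ∈ Finset.range (r + 1), G (ω j)) ∂P := by
      conv_lhs => rw [hP, ← map_swap ν k]
      rw [lintegral_map (mf k) hm]
      refine lintegral_congr fun ω => ?_
      have e3 : ∑ j ∈ Finset.range (r + 1), G (ω (Equiv.swap 0 k j)) =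
          ∑ j ∈ Finset.range (r + 1), G (ω j) := by
        refine Finset.sum_equiv (Equiv.swap 0 k) (fun i => ?_) (fun i _ => rfl)
        have hk' := Finset.mem_range.1 hk
        simp only [Finset.mem_range]
        by_cases hi0 : i = 0
        · subst hi0; simp; omega
        by_cases hik : i = k
        · subst hik; simp; omega
        · rw [Equiv.swap_apply_of_ne_of_ne hi0 hik]
      simp only [Equiv.swap_apply_right, e3]
    rw [e0]
    conv_lhs => rw [hP, ← map_cons ν]
    rw [lintegral_map (mf 0) measurable_cons]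
    rw [lintegral_prod]
    · refine lintegral_congr fun y => lintegral_congr fun ω => ?_
      have : ∑ j ∈ Finset.range (r + 1), G (cons (y, ω) j) =
          G y + ∑ j ∈ Finset.range r, G (ω j) := by
        rw [Finset.sum_range_succ', add_comm]
        rfl
      rw [this]
      rfl
    · exact ((mf 0).comp measurable_cons).aemeasurable
  rw [Finset.sum_congr rfl h1, Finset.sum_const, Finset.card_range, nsmul_eq_mul]

end Pool.Agent.Q222.JD.TaskMeckeFix
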