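import Pool.Agent.Q222.JD.Stmts

set_option autoImplicit false

open MeasureTheory ProbabilityTheory Filter Topology
open scoped ENNReal NNReal

namespace Pool.Agent.Q222.JD.TaskPos

open Pool.Agent.Q222.JD

theorem main : TaskPos := by
  intro α β D μ h
  have hD := h.D1
  have hμ := h.μ1
  have hβ := h.β0
  rw [← h.μfix]
  unfold XMap
  set f : (ℕ → ℝ × (ℝ × ℝ)) × ℕ → ℝ := fun z =>
    1 / (1 + ∑ k ∈ Finset.range z.2, 2 * β * (z.1 k).2.2 ^ 2 / (1 + 2 * β * (z.1 k).2.1 ^ 2 * (z.1 k).1))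
    with hf
  by_cases hm : AEMeasurable f (seq (2 * α) (μ.prod (D.prod D)))
  · rw [ae_map_iff hm measurableSet_Ioi]
    have h1 : ∀ᵐ y ∂(μ.prod (D.prod D)), 0 ≤ y.1 := by
      have : ∀ᵐ x ∂μ, 0 ≤ x := by
        filter_upwards [h.μI] with x hx using hx.1
      exact Measure.quasiMeasurePreserving_fst.ae this
    have h2 : ∀ᵐ ω ∂(Measure.infinitePi fun _ : ℕ => μ.prod (D.prod D)), ∀ k : ℕ, 0 ≤ (ω k).1 := by
      rw [ae_all_iff]
      intro k
      have hmp : (Measure.infinitePi fun _ : ℕ => μ.prod (D.prod D)).map (fun ω => ω k) =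
          μ.prod (D.prod D) := Measure.infinitePi_map_eval _ k
      have h3 : ∀ᵐ y ∂((Measure.infinitePi fun _ : ℕ => μ.prod (D.prod D)).map (fun ω => ω k)),
          0 ≤ y.1 := by rw [hmp]; exact h1
      exact ae_of_ae_map (measurable_pi_apply k).aemeasurable h3
    have h4 : ∀ᵐ z ∂(seq (2 * α) (μ.prod (D.prod D))), ∀ k : ℕ, 0 ≤ (z.1 k).1 := by
      unfold seq
      exact Measure.quasiMeasurePreserving_fst.ae h2
    filter_upwards [h4] with z hz
    change 0 < f z
    rw [hf]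
    apply div_pos one_pos
    have : 0 ≤ ∑ k ∈ Finset.range z.2, 2 * β * (z.1 k).2.2 ^ 2 / (1 + 2 * β * (z.1 k).2.1 ^ 2 * (z.1 k).1) := by
      apply Finset.sum_nonneg
      intro k _
      have := hz k
      positivity
    linarith
  · rw [Measure.map_of_not_aemeasurable hm]
    simp

end Pool.Agent.Q222.JD.TaskPos
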