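import Pool.Agent.Q222.JD.Stmts

set_option autoImplicit false

namespace Pool.Agent.Q222.JD.TaskQalg

open MeasureTheory ProbabilityTheory Filter Topology
open scoped ENNReal NNReal

lemma w1_eq {a b : ℝ} (ha : 0 ≤ a) (hb : 0 ≤ b) : w1 a b = w3 a b + g a b := by
  have h1 : 1 + a ≠ 0 := by positivity
  have h2 : 1 + a + b ≠ 0 := by positivity
  unfold w1 w3 g
  field_simp
  ring

lemma g_le {a b : ℝ} (ha : 0 ≤ a) (hb : 0 ≤ b) : g a b ≤ w2 a b := by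
  unfold g w2
  have h2 : 0 < (1 + a + b) ^ 2 := by positivity
  apply div_le_div_of_nonneg_right _ h2.le
  nlinarith

lemma w3_nonneg {a b : ℝ} (ha : 0 ≤ a) (hb : 0 ≤ b) : 0 ≤ w3 a b := by
  unfold w3; positivity

lemma g_nonneg {a b : ℝ} (ha : 0 ≤ a) (hb : 0 ≤ b) : 0 ≤ g a b := by
  unfold g; positivity

lemma meas4 (w : ℝ → ℝ → ℝ) (hw : Measurable (Function.uncurry w)) {Z : Type}
    [MeasurableSpace Z] (A B E : Z → ℝ) (hA : Measurable A) (hB : Measurable B)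
    (hE : Measurable E) : Measurable (fun p : Z => ENNReal.ofReal (w (A p) (B p) * E p)) :=
  ((hw.comp (hA.prodMk hB)).mul hE).ennreal_ofReal

lemma qadd (u w v : ℝ → ℝ → ℝ) (hw : Measurable (Function.uncurry w))
    (hu : ∀ a b, 0 ≤ a → 0 ≤ b → u a b = w a b + v a b)
    (hw0 : ∀ a b, 0 ≤ a → 0 ≤ b → 0 ≤ w a b) (hv0 : ∀ a b, 0 ≤ a → 0 ≤ b → 0 ≤ v a b)
    (α : ℝ≥0) (β : ℝ) (hβ : 0 < β) (D μ : Measure ℝ) [IsProbabilityMeasure D]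
    [IsProbabilityMeasure μ] (π : Measure (ℝ × ℝ)) (hz : ∀ᵐ z ∂π, 0 ≤ z.2)
    (hx : ∀ᵐ x ∂μ, 0 ≤ x) : Q α β D μ u π = Q α β D μ w π + Q α β D μ v π := by
  have h1 : Measurable (fun z : ℝ × ℝ => ∫⁻ ξ, ∫⁻ ζ, ∫⁻ x', ENNReal.ofReal
        (w (2 * β * ξ ^ 2 * z.2) (2 * β * ζ ^ 2 * x') * (z.2 * z.1 ^ 2)) ∂μ ∂D ∂D) := by
    have h4 : Measurable (fun p : (((ℝ × ℝ) × ℝ) × ℝ) × ℝ => ENNReal.ofReal
        (w (2 * β * p.1.1.2 ^ 2 * p.1.1.1.2) (2 * β * p.1.2 ^ 2 * p.2) *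
          (p.1.1.1.2 * p.1.1.1.1 ^ 2))) :=
      meas4 w hw _ _ _ (by fun_prop) (by fun_prop) (by fun_prop)
    have h3 : Measurable (fun p : ((ℝ × ℝ) × ℝ) × ℝ => ∫⁻ x', ENNReal.ofReal
        (w (2 * β * p.1.2 ^ 2 * p.1.1.2) (2 * β * p.2 ^ 2 * x') *
          (p.1.1.2 * p.1.1.1 ^ 2)) ∂μ) := h4.lintegral_prod_right'
    have h2 : Measurable (fun p : (ℝ × ℝ) × ℝ => ∫⁻ ζ, ∫⁻ x', ENNReal.ofReal
        (w (2 * β * p.2 ^ 2 * p.1.2) (2 * β * ζ ^ 2 * x') *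
          (p.1.2 * p.1.1 ^ 2)) ∂μ ∂D) := h3.lintegral_prod_right'
    exact h2.lintegral_prod_right'
  unfold Q
  rw [← mul_add, ← lintegral_add_left h1]
  congr 1
  apply lintegral_congr_ae
  filter_upwards [hz] with z hz
  have h2' : Measurable (fun ξ : ℝ => ∫⁻ ζ, ∫⁻ x', ENNReal.ofReal
      (w (2 * β * ξ ^ 2 * z.2) (2 * β * ζ ^ 2 * x') * (z.2 * z.1 ^ 2)) ∂μ ∂D) := by
    have h4 : Measurable (fun p : (ℝ × ℝ) × ℝ => ENNReal.ofReal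
        (w (2 * β * p.1.1 ^ 2 * z.2) (2 * β * p.1.2 ^ 2 * p.2) * (z.2 * z.1 ^ 2))) :=
      meas4 w hw _ _ _ (by fun_prop) (by fun_prop) (by fun_prop)
    have h3 : Measurable (fun p : ℝ × ℝ => ∫⁻ x', ENNReal.ofReal
        (w (2 * β * p.1 ^ 2 * z.2) (2 * β * p.2 ^ 2 * x') * (z.2 * z.1 ^ 2)) ∂μ) :=
      h4.lintegral_prod_right'
    exact h3.lintegral_prod_right'
  rw [← lintegral_add_left h2']
  apply lintegral_congr
  intro ξ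
  have h3' : Measurable (fun ζ : ℝ => ∫⁻ x', ENNReal.ofReal
      (w (2 * β * ξ ^ 2 * z.2) (2 * β * ζ ^ 2 * x') * (z.2 * z.1 ^ 2)) ∂μ) := by
    have h4 : Measurable (fun p : ℝ × ℝ => ENNReal.ofReal
        (w (2 * β * ξ ^ 2 * z.2) (2 * β * p.1 ^ 2 * p.2) * (z.2 * z.1 ^ 2))) :=
      meas4 w hw _ _ _ (by fun_prop) (by fun_prop) (by fun_prop)
    exact h4.lintegral_prod_right'
  rw [← lintegral_add_left h3']
  apply lintegral_congr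
  intro ζ
  have h4' : Measurable (fun x' : ℝ => ENNReal.ofReal
      (w (2 * β * ξ ^ 2 * z.2) (2 * β * ζ ^ 2 * x') * (z.2 * z.1 ^ 2))) :=
    meas4 w hw _ _ _ (by fun_prop) (by fun_prop) (by fun_prop)
  rw [← lintegral_add_left h4']
  apply lintegral_congr_ae
  filter_upwards [hx] with x hx
  have ha : 0 ≤ 2 * β * ξ ^ 2 * z.2 := by positivity
  have hb : 0 ≤ 2 * β * ζ ^ 2 * x := by positivity
  have ht : 0 ≤ z.2 * z.1 ^ 2 := by positivity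
  rw [hu _ _ ha hb, add_mul, ENNReal.ofReal_add (mul_nonneg (hw0 _ _ ha hb) ht)
    (mul_nonneg (hv0 _ _ ha hb) ht)]

lemma qmono (u w : ℝ → ℝ → ℝ)
    (hu : ∀ a b, 0 ≤ a → 0 ≤ b → u a b ≤ w a b)
    (α : ℝ≥0) (β : ℝ) (hβ : 0 < β) (D μ : Measure ℝ)
    (π : Measure (ℝ × ℝ)) (hz : ∀ᵐ z ∂π, 0 ≤ z.2)
    (hx : ∀ᵐ x ∂μ, 0 ≤ x) : Q α β D μ u π ≤ Q α β D μ w π := by
  unfold Q
  refine mul_le_mul' le_rfl ?_
  apply lintegral_mono_ae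
  filter_upwards [hz] with z hz
  apply lintegral_mono
  intro ξ
  apply lintegral_mono
  intro ζ
  apply lintegral_mono_ae
  filter_upwards [hx] with x hx
  have ha : 0 ≤ 2 * β * ξ ^ 2 * z.2 := by positivity
  have hb : 0 ≤ 2 * β * ζ ^ 2 * x := by positivity
  have ht : 0 ≤ z.2 * z.1 ^ 2 := by positivity
  exact ENNReal.ofReal_le_ofReal (mul_le_mul_of_nonneg_right (hu _ _ ha hb) ht)

lemma meas_w3 : Measurable (Function.uncurry w3) := by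
  have : Function.uncurry w3 = fun p : ℝ × ℝ =>
      p.1 * p.2 ^ 2 / ((1 + p.1) * (1 + p.1 + p.2) ^ 2) := by
    funext p; rfl
  rw [this]
  fun_prop

theorem main : Pool.Agent.Q222.JD.TaskQalg := by
  intro α β D μ π hS hA
  have i1 := hS.D1
  have i2 := hS.μ1
  have hβ := hS.β0
  have hz : ∀ᵐ z ∂π, 0 ≤ z.2 := by
    have h0 : ∀ᵐ x ∂(π.map Prod.snd), 0 ≤ x ∧ x ≤ 1 := by rw [hA.snd]; exact hS.μI
    exact (ae_of_ae_map measurable_snd.aemeasurable h0).mono fun z h => h.1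
  have hx : ∀ᵐ x ∂μ, 0 ≤ x := hS.μI.mono fun x h => h.1
  exact ⟨qadd w1 w3 g meas_w3 (fun a b ha hb => w1_eq ha hb) (fun a b ha hb => w3_nonneg ha hb)
      (fun a b ha hb => g_nonneg ha hb) α β hβ D μ π hz hx,
    qmono g w2 (fun a b ha hb => g_le ha hb) α β hβ D μ π hz hx⟩

end Pool.Agent.Q222.JD.TaskQalg
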