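import Pool.Agent.Q222.JD.Stmts

set_option autoImplicit false

open MeasureTheory ProbabilityTheory Filter Topology
open scoped ENNReal NNReal

namespace Pool.Agent.Q222.JD.TaskQfin

open Pool.Agent.Q222.JD

theorem main : TaskQfin := by
  intro α β D μ h
  have hD := h.D1
  have hμ := h.μ1
  have hβ := h.β0
  set M : ℝ≥0∞ := ∫⁻ x, ENNReal.ofReal (x ^ 2) ∂D with hM
  have hMf : M < ∞ := h.D2
  set c : ℝ≥0∞ := ENNReal.ofReal (4 * β ^ 2) with hc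
  have hcf : c < ∞ := ENNReal.ofReal_lt_top
  set K : ℝ≥0∞ := ((2 * α : ℝ≥0) : ℝ≥0∞) * (c * M * M) with hK
  have hKf : K ≠ ∞ := by
    rw [hK]
    exact (ENNReal.mul_lt_top ENNReal.coe_lt_top (ENNReal.mul_lt_top (ENNReal.mul_lt_top hcf hMf) hMf)).ne
  refine ⟨K.toNNReal, fun π hπ => ?_⟩
  rw [ENNReal.coe_toNNReal hKf]
  have hz : ∀ᵐ z ∂π, 0 ≤ z.2 := by
    have h3 : ∀ᵐ x ∂(π.map Prod.snd), 0 ≤ x := by
      rw [hπ.snd]
      filter_upwards [h.μI] with x hx using hx.1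
    exact ae_of_ae_map measurable_snd.aemeasurable h3
  unfold Q H
  rw [hK, mul_assoc]
  gcongr
  have key : ∀ z : ℝ × ℝ, 0 ≤ z.2 → ∀ ξ ζ : ℝ,
      ∫⁻ x', ENNReal.ofReal (w1 (2 * β * ξ ^ 2 * z.2) (2 * β * ζ ^ 2 * x') * (z.2 * z.1 ^ 2)) ∂μ ≤
        c * ENNReal.ofReal ((z.2 * z.1) ^ 2) * ENNReal.ofReal (ξ ^ 2) * ENNReal.ofReal (ζ ^ 2) := by
    intro z hz ξ ζ
    have hb : ∀ᵐ x' ∂μ, ENNReal.ofReal (w1 (2 * β * ξ ^ 2 * z.2) (2 * β * ζ ^ 2 * x') * (z.2 * z.1 ^ 2)) ≤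
        c * ENNReal.ofReal ((z.2 * z.1) ^ 2) * ENNReal.ofReal (ξ ^ 2) * ENNReal.ofReal (ζ ^ 2) := by
      filter_upwards [h.μI] with x' hx'
      rw [hc, ← ENNReal.ofReal_mul (by positivity), ← ENNReal.ofReal_mul (by positivity),
        ← ENNReal.ofReal_mul (by positivity)]
      apply ENNReal.ofReal_le_ofReal
      have hx0 := hx'.1
      have hx1 := hx'.2
      have ha : 0 ≤ 2 * β * ξ ^ 2 * z.2 := by positivity
      have hb : 0 ≤ 2 * β * ζ ^ 2 * x' := by positivity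
      have hw : w1 (2 * β * ξ ^ 2 * z.2) (2 * β * ζ ^ 2 * x') ≤
          (2 * β * ξ ^ 2 * z.2) * (2 * β * ζ ^ 2 * x') := by
        unfold w1
        generalize 2 * β * ξ ^ 2 * z.2 = a at *
        generalize 2 * β * ζ ^ 2 * x' = b at *
        apply div_le_self (by positivity)
        nlinarith [mul_nonneg ha hb, mul_nonneg ha ha]
      have hw2 : (2 * β * ξ ^ 2 * z.2) * (2 * β * ζ ^ 2 * x') ≤
          (2 * β * ξ ^ 2 * z.2) * (2 * β * ζ ^ 2) := by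
        apply mul_le_mul_of_nonneg_left _ ha
        have : 0 ≤ 2 * β * ζ ^ 2 := by positivity
        nlinarith
      calc w1 (2 * β * ξ ^ 2 * z.2) (2 * β * ζ ^ 2 * x') * (z.2 * z.1 ^ 2)
          ≤ (2 * β * ξ ^ 2 * z.2) * (2 * β * ζ ^ 2) * (z.2 * z.1 ^ 2) :=
            mul_le_mul_of_nonneg_right (hw.trans hw2) (by positivity)
        _ = 4 * β ^ 2 * (z.2 * z.1) ^ 2 * ξ ^ 2 * ζ ^ 2 := by ring
    calc _ ≤ ∫⁻ _x', c * ENNReal.ofReal ((z.2 * z.1) ^ 2) * ENNReal.ofReal (ξ ^ 2) * ENNReal.ofReal (ζ ^ 2) ∂μ :=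
          lintegral_mono_ae hb
      _ = _ := by rw [lintegral_const, measure_univ, mul_one]
  have hms : Measurable fun x : ℝ => ENNReal.ofReal (x ^ 2) := by fun_prop
  calc ∫⁻ z, ∫⁻ ξ, ∫⁻ ζ, ∫⁻ x', ENNReal.ofReal
        (w1 (2 * β * ξ ^ 2 * z.2) (2 * β * ζ ^ 2 * x') * (z.2 * z.1 ^ 2)) ∂μ ∂D ∂D ∂π
      ≤ ∫⁻ z, ∫⁻ ξ, ∫⁻ ζ, c * ENNReal.ofReal ((z.2 * z.1) ^ 2) * ENNReal.ofReal (ξ ^ 2) *
          ENNReal.ofReal (ζ ^ 2) ∂D ∂D ∂π := by
        apply lintegral_mono_ae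
        filter_upwards [hz] with z hz
        exact lintegral_mono fun ξ => lintegral_mono fun ζ => key z hz ξ ζ
    _ = ∫⁻ z, (c * M * M) * ENNReal.ofReal ((z.2 * z.1) ^ 2) ∂π := by
        apply lintegral_congr
        intro z
        simp_rw [lintegral_const_mul _ hms, ← hM]
        rw [lintegral_mul_const _ (by fun_prop), lintegral_const_mul _ hms, ← hM]
        ring
    _ = c * M * M * ∫⁻ z, ENNReal.ofReal ((z.2 * z.1) ^ 2) ∂π := by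
        rw [lintegral_const_mul _ (by fun_prop)]

end Pool.Agent.Q222.JD.TaskQfin
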