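import Pool.Agent.Q222.JD.Stmts

/-!
# Bounded Lipschitz functions separate probability laws on the plane (helper57)
-/

set_option autoImplicit false

open MeasureTheory Filter Topology

namespace Pool.Agent.Q222.JD.TaskSep

theorem main : Pool.Agent.Q222.JD.TaskSep := by
  intro π1 π2 h1 h2 h
  have key : ∀ F : Set (ℝ × ℝ), IsClosed F → π1 F = π2 F := by
    intro F hF
    have hpos : ∀ n : ℕ, (0 : ℝ) < 1 / ((n : ℝ) + 1) := fun n => Nat.one_div_pos_of_nat
    have t1 := tendsto_integral_thickenedIndicator_of_isClosed π1 hF hpos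
      tendsto_one_div_add_atTop_nhds_zero_nat
    have t2 := tendsto_integral_thickenedIndicator_of_isClosed π2 hF hpos
      tendsto_one_div_add_atTop_nhds_zero_nat
    have h3 : ∀ n : ℕ, ∫ ω, (thickenedIndicator (hpos n) F ω : ℝ) ∂π1 =
        ∫ ω, (thickenedIndicator (hpos n) F ω : ℝ) ∂π2 := by
      intro n
      let f : BoundedContinuousFunction (ℝ × ℝ) ℝ :=
        ⟨⟨fun x => ((thickenedIndicator (hpos n) F x : NNReal) : ℝ),
          Continuous.comp' NNReal.continuous_coe (thickenedIndicator (hpos n) F).continuous⟩,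
          (thickenedIndicator (hpos n) F).map_bounded'⟩
      refine h f ⟨(1 / ((n : ℝ) + 1)).toNNReal⁻¹, ?_⟩
      exact lipschitzWith_thickenedIndicator (hpos n) F
    simp only [h3] at t1
    have h4 := tendsto_nhds_unique t1 t2
    exact (ENNReal.toReal_eq_toReal_iff' (measure_ne_top _ _) (measure_ne_top _ _)).1 h4
  apply ext_of_generate_finite _ ?_ isPiSystem_isClosed
  · exact fun F F_closed => key F F_closed
  · exact key _ isClosed_univ
  · rw [BorelSpace.measurable_eq (α := ℝ × ℝ), borel_eq_generateFrom_isClosed]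

end Pool.Agent.Q222.JD.TaskSep
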