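import Pool.Agent.Q222.JD.Stmts

set_option autoImplicit false

open MeasureTheory ProbabilityTheory Filter Topology
open scoped ENNReal NNReal

namespace Pool.Agent.Q222.JD.TaskSndLim

open Pool.Agent.Q222.JD

theorem main : TaskSndLim := by
  intro μ π π0 hlim hmap
  have hs : Continuous (Prod.snd : ℝ × ℝ → ℝ) := continuous_snd
  have h1 := ProbabilityMeasure.tendsto_map_of_tendsto_of_continuous π π0 hlim hs
  have h2 : (fun n => (π n).map hs.measurable.aemeasurable) =
      fun _ => (π 0).map hs.measurable.aemeasurable := by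
    funext n
    apply Subtype.ext
    have e1 := hmap n
    have e2 := hmap 0
    change Measure.map Prod.snd (π n : Measure (ℝ × ℝ)) = Measure.map Prod.snd (π 0 : Measure (ℝ × ℝ))
    rw [e1, e2]
  rw [h2] at h1
  have h3 := tendsto_nhds_unique h1 tendsto_const_nhds
  have h4 := congrArg (fun ν : ProbabilityMeasure ℝ => (ν : Measure ℝ)) h3
  have h5 : Measure.map Prod.snd (π0 : Measure (ℝ × ℝ)) = Measure.map Prod.snd (π 0 : Measure (ℝ × ℝ)) := h4
  rw [h5, hmap 0]

end Pool.Agent.Q222.JD.TaskSndLim
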