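import Pool.Agent.Q222.JD.Stmts

/-!
# Tightness (helper89)
-/

set_option autoImplicit false

open MeasureTheory ProbabilityTheory Filter Topology
open scoped ENNReal NNReal

namespace Pool.Agent.Q222.JD.TaskTight

theorem main : Pool.Agent.Q222.JD.TaskTight := by
  intro μ hμ hI
  rw [isTightMeasureSet_iff_exists_isCompact_measure_compl_le]
  intro ε hε
  -- choice of `n`
  obtain ⟨n, hn⟩ := ENNReal.exists_inv_nat_lt (a := ε / 4) (by
    rw [Ne, ENNReal.div_eq_zero_iff, not_or]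
    exact ⟨hε.ne', by norm_num⟩)
  have hn0 : n ≠ 0 := by
    rintro rfl
    simp at hn
  have hn1 : 1 ≤ n := Nat.one_le_iff_ne_zero.2 hn0
  -- choice of `δ`
  have hlim : Tendsto (fun m : ℕ => μ (Set.Iio (1 / ((m : ℝ) + 1)))) atTop
      (𝓝 (μ (⋂ m : ℕ, Set.Iio (1 / ((m : ℝ) + 1))))) := by
    apply tendsto_measure_iInter_atTop
    · intro i
      exact measurableSet_Iio.nullMeasurableSet
    · intro a b hab
      apply Set.Iio_subset_Iio
      apply one_div_le_one_div_of_le (by positivity)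
      have : (a : ℝ) ≤ b := by exact_mod_cast hab
      linarith
    · exact ⟨0, measure_ne_top _ _⟩
  have hzero : μ (⋂ m : ℕ, Set.Iio (1 / ((m : ℝ) + 1))) = 0 := by
    rw [← nonpos_iff_eq_zero]
    refine (measure_mono (t := {x | ¬ (0 < x ∧ x ≤ 1)}) ?_).trans (le_of_eq (ae_iff.1 hI))
    intro x hx
    simp only [Set.mem_iInter, Set.mem_Iio] at hx
    simp only [Set.mem_ofPred_eq, not_and]
    intro h0
    exfalso
    obtain ⟨m, hm⟩ := exists_nat_one_div_lt h0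
    exact absurd (hx m) (not_lt.2 hm.le)
  rw [hzero] at hlim
  have hε2 : (0 : ℝ≥0∞) < ε / 2 := by
    apply ENNReal.div_pos hε.ne' (by norm_num)
  obtain ⟨m, hm⟩ := ((tendsto_order.1 hlim).2 _ hε2).exists
  set δ : ℝ := 1 / ((m : ℝ) + 1) with hδ
  have hδ0 : 0 < δ := by positivity
  refine ⟨Set.Icc (-(n / δ)) (n / δ) ×ˢ Set.Icc δ 1, isCompact_Icc.prod isCompact_Icc, ?_⟩
  rintro π ⟨hA, hH⟩
  have := hA.p1
  have hsub : (Set.Icc (-((n : ℝ) / δ)) (n / δ) ×ˢ Set.Icc δ 1)ᶜ ⊆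
      (Prod.snd ⁻¹' Set.Iio δ) ∪ ((Prod.snd ⁻¹' {x | ¬ (0 < x ∧ x ≤ 1)}) ∪
        {z : ℝ × ℝ | (n : ℝ≥0∞) ≤ ENNReal.ofReal ((z.2 * z.1) ^ 2)}) := by
    rintro ⟨u, x⟩ hz
    by_cases h1 : x < δ
    · left; exact h1
    by_cases h2 : ¬ (0 < x ∧ x ≤ 1)
    · right; left; exact h2
    rw [not_not] at h2
    right; right
    have h3 : ¬ (-((n : ℝ) / δ) ≤ u ∧ u ≤ n / δ) := by
      intro h4
      exact hz ⟨h4, ⟨not_lt.1 h1, h2.2⟩⟩
    have h5 : (n : ℝ) / δ < |u| := by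
      by_contra h6
      exact h3 (abs_le.1 (not_lt.1 h6))
    have h6 : (n : ℝ) < |x * u| := by
      rw [abs_mul, abs_of_pos h2.1]
      rw [div_lt_iff₀ hδ0] at h5
      have h7 : |u| * δ ≤ |u| * x := mul_le_mul_of_nonneg_left (not_lt.1 h1) (abs_nonneg _)
      linarith
    have h8 : (n : ℝ) ≤ (x * u) ^ 2 := by
      rw [← sq_abs]
      have h9 : (1 : ℝ) ≤ n := by exact_mod_cast hn1
      nlinarith
    simp only [Set.mem_ofPred_eq]
    rw [← ENNReal.ofReal_natCast]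
    exact ENNReal.ofReal_le_ofReal h8
  refine (measure_mono hsub).trans ((measure_union_le _ _).trans ?_)
  have e1 : π (Prod.snd ⁻¹' Set.Iio δ) ≤ ε / 2 := by
    rw [← Measure.map_apply measurable_snd measurableSet_Iio, hA.snd]
    exact hm.le
  have e2 : π (Prod.snd ⁻¹' {x | ¬ (0 < x ∧ x ≤ 1)}) = 0 := by
    rw [← Measure.map_apply measurable_snd, hA.snd]
    · exact ae_iff.1 hI
    · exact ((measurableSet_Ioc (a := (0 : ℝ)) (b := 1)).compl)
  have e3 : π {z : ℝ × ℝ | (n : ℝ≥0∞) ≤ ENNReal.ofReal ((z.2 * z.1) ^ 2)} ≤ ε / 2 := by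
    refine (meas_ge_le_lintegral_div ?_ (by exact_mod_cast hn0) (ENNReal.natCast_ne_top n)).trans ?_
    · exact (((measurable_snd.mul measurable_fst).pow_const 2).ennreal_ofReal).aemeasurable
    · calc H π / n ≤ 2 / n := ENNReal.div_le_div_right hH _
        _ = 2 * (n : ℝ≥0∞)⁻¹ := by rw [div_eq_mul_inv]
        _ ≤ 2 * (ε / 4) := by gcongr
        _ = ε / 2 := by
          rw [div_eq_mul_inv, div_eq_mul_inv, mul_left_comm]
          congr 1
          rw [show (4 : ℝ≥0∞) = 2 * 2 by norm_num, ENNReal.mul_inv (by norm_num) (by norm_num),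
            ← mul_assoc, ENNReal.mul_inv_cancel (by norm_num) (by norm_num), one_mul]
  calc π (Prod.snd ⁻¹' Set.Iio δ) + π ((Prod.snd ⁻¹' {x | ¬ (0 < x ∧ x ≤ 1)}) ∪
        {z : ℝ × ℝ | (n : ℝ≥0∞) ≤ ENNReal.ofReal ((z.2 * z.1) ^ 2)}) ≤
      ε / 2 + (π (Prod.snd ⁻¹' {x | ¬ (0 < x ∧ x ≤ 1)}) +
        π {z : ℝ × ℝ | (n : ℝ≥0∞) ≤ ENNReal.ofReal ((z.2 * z.1) ^ 2)}) :=
        add_le_add e1 (measure_union_le _ _)
    _ ≤ ε / 2 + (0 + ε / 2) := by
        gcongr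
        exact e2.le
    _ = ε := by rw [zero_add, ENNReal.add_halves]

end Pool.Agent.Q222.JD.TaskTight
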