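import Pool.Agent.Q222.JD.Stmts

set_option autoImplicit false

open MeasureTheory ProbabilityTheory Filter Topology
open scoped ENNReal NNReal

namespace Pool.Agent.Q222.JD.TaskUniq

theorem lin_one_zero : lin 1 0 = fun z : (ℝ × ℝ) × ℝ => (z.1.1, z.2) := by
  funext z; simp [lin]

theorem lin_zero_one : lin 0 1 = fun z : (ℝ × ℝ) × ℝ => (z.1.2, z.2) := by
  funext z; simp [lin]

theorem main (hC : TaskCouple) (hI : TaskIter2) (hL : TaskLimit) (hP : TaskPos) (hHd : TaskHd)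
    (hS : TaskSep) : Pool.Agent.Q222.JD.TaskUniq := by
  intro α β D μ π1 π2 hStd hA1 hA2 hH1 hH2 hf1 hf2
  have hp1 := hA1.p1
  have hp2 := hA2.p1
  obtain ⟨κ, hκ, hκ1, hκ2⟩ := hC π1 π2 hp1 hp2 (hA1.snd.trans hA2.snd.symm)
  have e1 : κ.map (lin 1 0) = π1 := by rw [lin_one_zero]; exact hκ1
  have e2 : κ.map (lin 0 1) = π2 := by rw [lin_zero_one]; exact hκ2
  have hm1 : Measurable (fun z : (ℝ × ℝ) × ℝ => (z.1.1, z.2)) := by fun_prop
  have hsnd : ∀ ρ : Measure ((ℝ × ℝ) × ℝ),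
      (ρ.map (lin 1 0)).map Prod.snd = ρ.map Prod.snd := by
    intro ρ
    rw [lin_one_zero, Measure.map_map measurable_snd hm1]
    rfl
  have hκs : κ.map Prod.snd = μ := by
    rw [← hsnd, e1]; exact hA1.snd
  have hfin : H (κ.map (lin 1 (-1))) < ∞ := by
    refine lt_of_le_of_lt (hHd κ) ?_
    rw [e1, e2]
    exact ENNReal.mul_lt_top (by simp) (ENNReal.add_lt_top.2 ⟨hH1, hH2⟩)
  obtain ⟨hn, hlim⟩ := hI α β D μ κ hStd hκ hκs hfin
  have f1 : ∀ n : ℕ, ((Phi2 α β 1 D)^[n] κ).map (lin 1 0) = π1 := by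
    intro n
    rw [(hn n).2.1, e1]
    exact Function.iterate_fixed hf1 n
  have f2 : ∀ n : ℕ, ((Phi2 α β 1 D)^[n] κ).map (lin 0 1) = π2 := by
    intro n
    rw [(hn n).2.2, e2]
    exact Function.iterate_fixed hf2 n
  have hss : ∀ n : ℕ, ((Phi2 α β 1 D)^[n] κ).map Prod.snd = μ := by
    intro n
    rw [← hsnd, f1 n]; exact hA1.snd
  have hl := hL μ (fun n => (Phi2 α β 1 D)^[n] κ) hStd.μ1 (hP α β D μ hStd)
    (fun n => (hn n).1) hss hlim
  refine hS π1 π2 hp1 hp2 ?_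
  intro f hf
  have h := hl f hf
  simp only [f1, f2] at h
  have h0 := tendsto_nhds_unique h tendsto_const_nhds
  linarith

end Pool.Agent.Q222.JD.TaskUniq
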