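import Pool.Agent.Q222.JD.Stmts2

set_option autoImplicit false

open MeasureTheory ProbabilityTheory Filter Topology
open scoped ENNReal NNReal

namespace Pool.Agent.Q222.JD.TaskX

theorem main (hTop : TaskXTop) (hId : TaskXId) (hCmp : TaskXCmp) (hEq : TaskXEq) :
    Pool.Agent.Q222.JD.TaskX := by
  intro α β D hβ hD
  obtain ⟨μ0, hl, hf, htop⟩ := hTop α β D hβ hD
  refine ⟨μ0, ⟨hl, hf⟩, ?_⟩
  rintro μ ⟨hl', hf'⟩
  have hle := htop μ hl' hf'
  refine hEq μ μ0 hl' hl hle ?_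
  rw [hId α β D μ0 hβ hD hl hf, hId α β D μ hβ hD hl' hf']
  have h := hCmp β D μ μ0 hβ hD hl' hl hle
  have hα : (0 : ℝ) ≤ (α : ℝ) := α.coe_nonneg
  exact add_le_add_right (mul_le_mul_of_nonneg_left h hα) _

end Pool.Agent.Q222.JD.TaskX
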