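import Pool.Agent.Q222.JD.Stmts2

/-! MP_75c26c_pr blueprint: TaskXCmp. -/

set_option autoImplicit false

open MeasureTheory ProbabilityTheory Filter Topology
open scoped ENNReal NNReal

namespace Pool.Agent.Q222.JD.TaskXCmp

open Pool.Agent.Q222.JD

private theorem int_of {μ : Measure ℝ} [IsProbabilityMeasure μ] {f : ℝ → ℝ} (hf : Continuous f)
    (hb : ∀ y, 0 ≤ f y ∧ f y ≤ 1) : Integrable f μ := by
  refine (integrable_const (1 : ℝ)).mono' hf.aestronglyMeasurable (Eventually.of_forall fun y => ?_)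
  rw [Real.norm_eq_abs, abs_of_nonneg (hb y).1]
  exact (hb y).2

private theorem par {X : Type} [TopologicalSpace X] [FirstCountableTopology X] (μ : Measure ℝ)
    [IsProbabilityMeasure μ] (F : X → ℝ → ℝ) (hF : Continuous (Function.uncurry F))
    (hb : ∀ x y, 0 ≤ F x y ∧ F x y ≤ 1) :
    Continuous (fun x => ∫ y, F x y ∂μ) ∧ ∀ x, 0 ≤ ∫ y, F x y ∂μ ∧ ∫ y, F x y ∂μ ≤ 1 := by
  have h1 : ∀ x, Continuous (F x) := fun x => hF.comp (Continuous.prodMk_right x)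
  have h2 : ∀ y, Continuous (fun x => F x y) := fun y => hF.comp (Continuous.prodMk_left y)
  refine ⟨?_, fun x => ⟨integral_nonneg fun y => (hb x y).1, ?_⟩⟩
  · refine continuous_of_dominated (bound := fun _ => (1 : ℝ)) (fun x => (h1 x).aestronglyMeasurable)
      (fun x => Eventually.of_forall fun y => ?_) (integrable_const _)
      (Eventually.of_forall fun y => h2 y)
    rw [Real.norm_eq_abs, abs_of_nonneg (hb x y).1]
    exact (hb x y).2
  · calc ∫ y, F x y ∂μ ≤ ∫ _, (1 : ℝ) ∂μ :=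
        integral_mono (int_of (h1 x) (hb x)) (integrable_const _) (fun y => (hb x y).2)
      _ = 1 := by simp

private theorem use {μ ν : Measure ℝ} [IsProbabilityMeasure μ] [IsProbabilityMeasure ν]
    (hL : LeM μ ν) (f : ℝ → ℝ) (hf : Continuous f) (hb : ∀ y, 0 ≤ f y ∧ f y ≤ 1)
    (ha : Antitone f) : ∫ x, f x ∂ν ≤ ∫ x, f x ∂μ := by
  have h := hL (BoundedContinuousFunction.ofNormedAddCommGroup (fun x => -f x) hf.neg 1
    (fun x => by rw [norm_neg, Real.norm_eq_abs, abs_of_nonneg (hb x).1]; exact (hb x).2))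
    (fun x y hxy => by
      change -f x ≤ -f y
      exact neg_le_neg (ha hxy))
  change ∫ x, -f x ∂μ ≤ ∫ x, -f x ∂ν at h
  rw [integral_neg, integral_neg] at h
  linarith

theorem main : Pool.Agent.Q222.JD.TaskXCmp := by
  intro β D μ ν hβ hD hμ hν hL
  have i1 := hμ.p1
  have i2 := hν.p1
  set h : ℝ × ℝ × ℝ → ℝ → ℝ := fun q ζ =>
    1 / (1 + 2 * β * q.2.2 ^ 2 * max q.1 0 + 2 * β * ζ ^ 2 * max q.2.1 0) with hh
  have hden : ∀ (q : ℝ × ℝ × ℝ) (ζ : ℝ), 1 ≤ 1 + 2 * β * q.2.2 ^ 2 * max q.1 0 + 2 * β * ζ ^ 2 * max q.2.1 0 := by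
    intro q ζ
    have e1 : 0 ≤ 2 * β * q.2.2 ^ 2 * max q.1 0 := by positivity
    have e2 : 0 ≤ 2 * β * ζ ^ 2 * max q.2.1 0 := by positivity
    linarith
  have hb : ∀ (q : ℝ × ℝ × ℝ) (ζ : ℝ), 0 ≤ h q ζ ∧ h q ζ ≤ 1 := by
    intro q ζ
    have := hden q ζ
    constructor
    · exact div_nonneg zero_le_one (by linarith)
    · simp only [hh]
      rw [div_le_one (by linarith)]
      exact this
  have hc : Continuous (Function.uncurry h) := by
    simp only [hh]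
    apply Continuous.div continuous_const
    · fun_prop
    · intro q
      have := hden q.1 q.2
      exact (by linarith : (0 : ℝ) < _).ne'
  obtain ⟨c1, b1⟩ := par D h hc hb
  set K : ℝ × ℝ → ℝ := fun q => ∫ ξ, ∫ ζ, h (q.1, q.2, ξ) ζ ∂D ∂D with hK
  obtain ⟨c2, b2⟩ := par D (fun (q : ℝ × ℝ) ξ => ∫ ζ, h (q.1, q.2, ξ) ζ ∂D)
    (c1.comp (f := fun z : (ℝ × ℝ) × ℝ => (z.1.1, z.1.2, z.2)) (by fun_prop))
    (fun q ξ => b1 (q.1, q.2, ξ))
  have hin : ∀ q : ℝ × ℝ, ∀ ξ, Integrable (fun ζ => h (q.1, q.2, ξ) ζ) D := fun q ξ =>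
    int_of (hc.comp (Continuous.prodMk_right (q.1, q.2, ξ))) (hb _)
  have hin2 : ∀ q : ℝ × ℝ, Integrable (fun ξ => ∫ ζ, h (q.1, q.2, ξ) ζ ∂D) D := fun q =>
    int_of (c1.comp (f := fun ξ : ℝ => (q.1, q.2, ξ)) (by fun_prop)) (fun ξ => b1 (q.1, q.2, ξ))
  have hmono : ∀ q q' : ℝ × ℝ, q.1 ≤ q'.1 → q.2 ≤ q'.2 → K q' ≤ K q := by
    intro q q' h1 h2
    refine integral_mono (hin2 q') (hin2 q) fun ξ => integral_mono (hin q' ξ) (hin q ξ) fun ζ => ?_
    simp only [hh]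
    have e0 := hden (q.1, q.2, ξ) ζ
    apply one_div_le_one_div_of_le (by linarith)
    have e1 : max q.1 0 ≤ max q'.1 0 := max_le_max h1 le_rfl
    have e2 : max q.2 0 ≤ max q'.2 0 := max_le_max h2 le_rfl
    have e3 : 2 * β * ξ ^ 2 * max q.1 0 ≤ 2 * β * ξ ^ 2 * max q'.1 0 :=
      mul_le_mul_of_nonneg_left e1 (by positivity)
    have e4 : 2 * β * ζ ^ 2 * max q.2 0 ≤ 2 * β * ζ ^ 2 * max q'.2 0 :=
      mul_le_mul_of_nonneg_left e2 (by positivity)
    linarith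
  -- the original integrals
  have horig : ∀ ρ : Measure ℝ, Law01 ρ →
      ∫ x, ∫ x', ∫ ξ, ∫ ζ, 1 / (1 + 2 * β * ξ ^ 2 * x + 2 * β * ζ ^ 2 * x') ∂D ∂D ∂ρ ∂ρ =
        ∫ x, ∫ x', K (x, x') ∂ρ ∂ρ := by
    intro ρ hρ
    apply integral_congr_ae
    filter_upwards [hρ.I] with x hx
    apply integral_congr_ae
    filter_upwards [hρ.I] with x' hx'
    simp only [hK, hh]
    rw [max_eq_left hx.1, max_eq_left hx'.1]
  rw [horig μ hμ, horig ν hν]
  obtain ⟨c3, b3⟩ := par μ (fun x x' => K (x, x')) c2 (fun x x' => b2 (x, x'))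
  obtain ⟨c4, b4⟩ := par ν (fun x x' => K (x, x')) c2 (fun x x' => b2 (x, x'))
  have hKi : ∀ (ρ : Measure ℝ) [IsProbabilityMeasure ρ] (x : ℝ), Integrable (fun x' => K (x, x')) ρ :=
    fun ρ _ x => int_of (c2.comp (Continuous.prodMk_right x)) (fun x' => b2 (x, x'))
  calc ∫ x, ∫ x', K (x, x') ∂ν ∂ν ≤ ∫ x, ∫ x', K (x, x') ∂μ ∂ν := by
        refine integral_mono (int_of c4 b4) (int_of c3 b3) fun x => ?_
        exact use hL (fun x' => K (x, x')) (c2.comp (Continuous.prodMk_right x))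
          (fun x' => b2 (x, x')) (fun a b hab => hmono (x, a) (x, b) le_rfl hab)
    _ ≤ ∫ x, ∫ x', K (x, x') ∂μ ∂μ := by
        refine use hL (fun x => ∫ x', K (x, x') ∂μ) c3 b3 fun a b hab => ?_
        exact integral_mono (hKi μ b) (hKi μ a) fun x' => hmono (a, x') (b, x') hab le_rfl

end Pool.Agent.Q222.JD.TaskXCmp
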