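import Pool.Agent.Q222.JD.Stmts2

set_option autoImplicit false

open MeasureTheory ProbabilityTheory Filter Topology Set
open scoped ENNReal NNReal

namespace Pool.Agent.Q222.JD.TaskXEq

/-- clamping to `[0,1]` -/
noncomputable def cl (x : ℝ) : ℝ := max 0 (min 1 x)

theorem cl_cont : Continuous cl := by unfold cl; fun_prop

theorem cl_mono : Monotone cl := by
  intro a b h
  unfold cl
  exact max_le_max le_rfl (min_le_min le_rfl h)

theorem cl_nonneg (x : ℝ) : 0 ≤ cl x := le_max_left _ _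
theorem cl_le (x : ℝ) : cl x ≤ 1 := max_le zero_le_one (min_le_left _ _)
theorem cl_eq {x : ℝ} (h : 0 ≤ x ∧ x ≤ 1) : cl x = x := by
  unfold cl; rw [min_eq_right h.2, max_eq_right h.1]

theorem key {μ ν : Measure ℝ} (hl : LeM μ ν) (h : ℝ → ℝ) (hc : Continuous h) (hm : Monotone h) :
    ∫ x, h (cl x) ∂μ ≤ ∫ x, h (cl x) ∂ν := by
  have hb : ∀ x, ‖h (cl x)‖ ≤ max |h 0| |h 1| := by
    intro x
    rw [Real.norm_eq_abs]
    exact abs_le_max_abs_abs (hm (cl_nonneg x)) (hm (cl_le x))
  have := hl (BoundedContinuousFunction.ofNormedAddCommGroup (fun x => h (cl x))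
    (hc.comp cl_cont) (max |h 0| |h 1|) hb) (fun a b hab => hm (cl_mono hab))
  simpa using this

/-- the ramp -/
noncomputable def rp (n : ℕ) (c y : ℝ) : ℝ := max 0 (min 1 ((n : ℝ) * (y - c)))

theorem rp_cont (n : ℕ) (c : ℝ) : Continuous (rp n c) := by unfold rp; fun_prop

theorem rp_mono (n : ℕ) (c : ℝ) : Monotone (rp n c) := by
  intro a b h
  unfold rp
  refine max_le_max le_rfl (min_le_min le_rfl ?_)
  exact mul_le_mul_of_nonneg_left (by linarith) (Nat.cast_nonneg n)

theorem rp_bd (n : ℕ) (c y : ℝ) : 0 ≤ rp n c y ∧ rp n c y ≤ 1 :=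
  ⟨le_max_left _ _, max_le zero_le_one (min_le_left _ _)⟩

theorem rp_diff (n : ℕ) (c : ℝ) : Monotone fun y => (n : ℝ) * y - rp n c y := by
  intro a b h
  have h1 : (n : ℝ) * a ≤ n * b := mul_le_mul_of_nonneg_left h (Nat.cast_nonneg n)
  have h2 : (n : ℝ) * (b - c) - n * (a - c) = n * b - n * a := by ring
  simp only [rp, max_def, min_def]
  split_ifs <;> linarith

theorem law_int {μ : Measure ℝ} (h : Law01 μ) : ∫ x, x ∂μ = ∫ x, cl x ∂μ := by
  refine integral_congr_ae ?_
  filter_upwards [h.I] with x hx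
  exact (cl_eq hx).symm

theorem rp_eq {μ ν : Measure ℝ} (hμ : Law01 μ) (hν : Law01 ν) (hl : LeM μ ν)
    (hm : ∫ x, x ∂ν ≤ ∫ x, x ∂μ) (n : ℕ) (c : ℝ) :
    ∫ x, rp n c (cl x) ∂μ = ∫ x, rp n c (cl x) ∂ν := by
  have := hμ.p1
  have := hν.p1
  have i1 : ∀ (ρ : Measure ℝ) [IsProbabilityMeasure ρ], Integrable (fun x => rp n c (cl x)) ρ := by
    intro ρ _
    refine Integrable.of_bound ((rp_cont n c).comp cl_cont).aestronglyMeasurable 1 ?_
    refine Eventually.of_forall fun x => ?_
    rw [Real.norm_eq_abs, abs_of_nonneg (rp_bd n c _).1]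
    exact (rp_bd n c _).2
  have i2 : ∀ (ρ : Measure ℝ) [IsProbabilityMeasure ρ], Integrable (fun x => (n : ℝ) * cl x) ρ := by
    intro ρ _
    refine Integrable.const_mul ?_ _
    refine Integrable.of_bound cl_cont.aestronglyMeasurable 1 ?_
    refine Eventually.of_forall fun x => ?_
    rw [Real.norm_eq_abs, abs_of_nonneg (cl_nonneg _)]
    exact cl_le _
  have h1 := key hl (rp n c) (rp_cont n c) (rp_mono n c)
  have h2 := key hl (fun y => (n : ℝ) * y - rp n c y)
    (by have := rp_cont n c; fun_prop) (rp_diff n c)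
  rw [integral_sub (i2 μ) (i1 μ), integral_sub (i2 ν) (i1 ν), integral_const_mul,
    integral_const_mul] at h2
  rw [law_int hμ, law_int hν] at hm
  have h3 := mul_le_mul_of_nonneg_left hm (Nat.cast_nonneg (α := ℝ) n)
  linarith

theorem rp_lim {μ : Measure ℝ} (hμ : Law01 μ) (c : ℝ) :
    Tendsto (fun n : ℕ => ∫ x, rp n c (cl x) ∂μ) atTop (𝓝 (μ.real (Ioi c))) := by
  have := hμ.p1
  have e : μ.real (Ioi c) = ∫ x, (Ioi c).indicator (fun _ => (1 : ℝ)) x ∂μ := by
    rw [integral_indicator measurableSet_Ioi]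
    simp
  rw [e]
  refine tendsto_integral_of_dominated_convergence (fun _ => (1 : ℝ)) ?_ (integrable_const _) ?_ ?_
  · intro n
    exact ((rp_cont n c).comp cl_cont).aestronglyMeasurable
  · intro n
    refine Eventually.of_forall fun x => ?_
    rw [Real.norm_eq_abs, abs_of_nonneg (rp_bd n c _).1]
    exact (rp_bd n c _).2
  · filter_upwards [hμ.I] with x hx
    rw [cl_eq hx]
    by_cases hc : c < x
    · rw [indicator_of_mem (show x ∈ Ioi c from hc)]
      refine tendsto_const_nhds.congr' ?_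
      obtain ⟨N, hN⟩ := exists_nat_gt (1 / (x - c))
      filter_upwards [eventually_ge_atTop N] with n hn
      have h1 : 1 / (x - c) < n := lt_of_lt_of_le hN (by exact_mod_cast hn)
      have h2 : 0 < x - c := sub_pos.2 hc
      rw [div_lt_iff₀ h2] at h1
      unfold rp
      rw [min_eq_left h1.le, max_eq_right zero_le_one]
    · rw [indicator_of_notMem (show x ∉ Ioi c from hc)]
      refine tendsto_const_nhds.congr fun n => ?_
      have h2 : x - c ≤ 0 := by linarith [not_lt.1 hc]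
      have h3 : (n : ℝ) * (x - c) ≤ 0 := mul_nonpos_of_nonneg_of_nonpos (Nat.cast_nonneg n) h2
      unfold rp
      rw [min_eq_right (by linarith), max_eq_left h3]

theorem main : Pool.Agent.Q222.JD.TaskXEq := by
  intro μ ν hμ hν hl hm
  have := hμ.p1
  have := hν.p1
  refine Measure.ext_of_Iic μ ν fun c => ?_
  have h1 : μ.real (Ioi c) = ν.real (Ioi c) := by
    refine tendsto_nhds_unique (rp_lim hμ c) ?_
    have := rp_lim hν c
    refine this.congr fun n => ?_
    exact (rp_eq hμ hν hl hm n c).symm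
  have h2 : μ (Ioi c) = ν (Ioi c) := (measureReal_eq_measureReal_iff).1 h1
  have e : Iic c = (Ioi c)ᶜ := by ext; simp
  rw [e, prob_compl_eq_one_sub measurableSet_Ioi, prob_compl_eq_one_sub measurableSet_Ioi, h2]

end Pool.Agent.Q222.JD.TaskXEq
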