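import Pool.Agent.Q222.JD.Stmts2

set_option autoImplicit false

open MeasureTheory ProbabilityTheory Filter Topology
open scoped ENNReal NNReal

namespace Pool.Agent.Q222.JD.XId

/-- `T` of an ingredient of the law of `X` -/
noncomputable def T0 (β : ℝ) (y : ℝ × (ℝ × ℝ)) : ℝ :=
  2 * β * y.2.2 ^ 2 / (1 + 2 * β * y.2.1 ^ 2 * y.1)

theorem T0_meas (β : ℝ) : Measurable (T0 β) := by
  unfold T0
  fun_prop

noncomputable def SS (β : ℝ) (z : (ℕ → ℝ × (ℝ × ℝ)) × ℕ) : ℝ :=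
  ∑ k ∈ Finset.range z.2, T0 β (z.1 k)

theorem SS_meas (β : ℝ) : Measurable (SS β) := by
  refine measurable_from_prod_countable_left fun n => ?_
  have h : ∀ k : ℕ, Measurable (fun ω : ℕ → ℝ × (ℝ × ℝ) => T0 β (ω k)) := fun k =>
    (T0_meas β).comp (measurable_pi_apply k)
  change Measurable fun ω : ℕ → ℝ × (ℝ × ℝ) => ∑ k ∈ Finset.range n, T0 β (ω k)
  exact Finset.measurable_sum _ fun k _ => h k

/-- the clamped quantities -/
noncomputable def aa (β ξ x : ℝ) : ℝ := 2 * β * ξ ^ 2 * max x 0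

theorem aa_nonneg {β : ℝ} (hβ : 0 < β) (ξ x : ℝ) : 0 ≤ aa β ξ x := by
  unfold aa
  positivity

/-- a point of the four variables `((x, x'), (ξ, ζ))` -/
abbrev V := (ℝ × ℝ) × (ℝ × ℝ)

noncomputable def h1 (β : ℝ) (p : V) : ℝ := 1 / (1 + aa β p.2.1 p.1.1 + aa β p.2.2 p.1.2)
noncomputable def ha (β : ℝ) (p : V) : ℝ :=
  aa β p.2.1 p.1.1 / (1 + aa β p.2.1 p.1.1 + aa β p.2.2 p.1.2)
noncomputable def hb (β : ℝ) (p : V) : ℝ :=
  aa β p.2.2 p.1.2 / (1 + aa β p.2.1 p.1.1 + aa β p.2.2 p.1.2)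

theorem h1_meas (β : ℝ) : Measurable (h1 β) := by unfold h1 aa; fun_prop
theorem ha_meas (β : ℝ) : Measurable (ha β) := by unfold ha aa; fun_prop
theorem hb_meas (β : ℝ) : Measurable (hb β) := by unfold hb aa; fun_prop

theorem h1_mem {β : ℝ} (hβ : 0 < β) (p : V) : 0 ≤ h1 β p ∧ h1 β p ≤ 1 := by
  have e1 := aa_nonneg hβ p.2.1 p.1.1
  have e2 := aa_nonneg hβ p.2.2 p.1.2
  unfold h1
  exact ⟨by positivity, by rw [div_le_one (by positivity)]; linarith⟩

theorem ha_mem {β : ℝ} (hβ : 0 < β) (p : V) : 0 ≤ ha β p ∧ ha β p ≤ 1 := by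
  have e1 := aa_nonneg hβ p.2.1 p.1.1
  have e2 := aa_nonneg hβ p.2.2 p.1.2
  unfold ha
  exact ⟨by positivity, by rw [div_le_one (by positivity)]; linarith⟩

theorem hb_mem {β : ℝ} (hβ : 0 < β) (p : V) : 0 ≤ hb β p ∧ hb β p ≤ 1 := by
  have e1 := aa_nonneg hβ p.2.1 p.1.1
  have e2 := aa_nonneg hβ p.2.2 p.1.2
  unfold hb
  exact ⟨by positivity, by rw [div_le_one (by positivity)]; linarith⟩

theorem h_sum {β : ℝ} (hβ : 0 < β) (p : V) : h1 β p + ha β p + hb β p = 1 := by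
  have e1 := aa_nonneg hβ p.2.1 p.1.1
  have e2 := aa_nonneg hβ p.2.2 p.1.2
  unfold h1 ha hb
  rw [← add_div, ← add_div, div_self (by positivity)]

theorem integrable_of_mem {Z : Type} [MeasurableSpace Z] (m : Measure Z) [IsFiniteMeasure m]
    (h : Z → ℝ) (hm : Measurable h) (hb : ∀ z, 0 ≤ h z ∧ h z ≤ 1) : Integrable h m :=
  Integrable.of_bound hm.aestronglyMeasurable 1 (Eventually.of_forall fun z => by
    rw [Real.norm_eq_abs, abs_of_nonneg (hb z).1]; exact (hb z).2)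

/-- iterated integrals -/
theorem quad (D μ : Measure ℝ) [IsProbabilityMeasure D] [IsProbabilityMeasure μ] (h : V → ℝ)
    (hm : Measurable h) (hb : ∀ z, 0 ≤ h z ∧ h z ≤ 1) :
    ∫ x, ∫ x', ∫ ξ, ∫ ζ, h ((x, x'), (ξ, ζ)) ∂D ∂D ∂μ ∂μ =
      ∫ p, h p ∂((μ.prod μ).prod (D.prod D)) := by
  have e1 : Integrable h ((μ.prod μ).prod (D.prod D)) := integrable_of_mem _ h hm hb
  rw [integral_prod _ e1]
  have e2 : ∀ q : ℝ × ℝ, ∫ r, h (q, r) ∂(D.prod D) = ∫ ξ, ∫ ζ, h (q, (ξ, ζ)) ∂D ∂D := by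
    intro q
    rw [integral_prod _ (integrable_of_mem _ (fun r => h (q, r))
      (hm.comp measurable_prodMk_left) fun r => hb _)]
  have e3 : Integrable (fun q : ℝ × ℝ => ∫ r, h (q, r) ∂(D.prod D)) (μ.prod μ) :=
    e1.integral_prod_left
  rw [integral_prod _ e3]
  simp only [e2]

theorem swap_eq (β : ℝ) (D μ : Measure ℝ) [IsProbabilityMeasure D] [IsProbabilityMeasure μ] :
    ∫ p, ha β p ∂((μ.prod μ).prod (D.prod D)) = ∫ p, hb β p ∂((μ.prod μ).prod (D.prod D)) := by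
  have e1 : MeasurePreserving (Prod.map Prod.swap Prod.swap : V → V)
      ((μ.prod μ).prod (D.prod D)) ((μ.prod μ).prod (D.prod D)) :=
    (Measure.measurePreserving_swap).prod (Measure.measurePreserving_swap)
  have e2 := integral_map (μ := (μ.prod μ).prod (D.prod D)) e1.measurable.aemeasurable
    (f := hb β) (hb_meas β).aestronglyMeasurable
  rw [e1.map_eq] at e2
  rw [e2]
  refine integral_congr_ae (Eventually.of_forall fun p => ?_)
  change aa β p.2.1 p.1.1 / (1 + aa β p.2.1 p.1.1 + aa β p.2.2 p.1.2) =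
    aa β p.2.1 p.1.1 / (1 + aa β p.2.2 p.1.2 + aa β p.2.1 p.1.1)
  rw [add_right_comm]

theorem half_eq {β : ℝ} (hβ : 0 < β) (D μ : Measure ℝ) [IsProbabilityMeasure D]
    [IsProbabilityMeasure μ] : 2 * ∫ p, hb β p ∂((μ.prod μ).prod (D.prod D)) =
      1 - ∫ p, h1 β p ∂((μ.prod μ).prod (D.prod D)) := by
  have e1 := integrable_of_mem ((μ.prod μ).prod (D.prod D)) (h1 β) (h1_meas β) (h1_mem hβ)
  have e2 := integrable_of_mem ((μ.prod μ).prod (D.prod D)) (ha β) (ha_meas β) (ha_mem hβ)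
  have e3 := integrable_of_mem ((μ.prod μ).prod (D.prod D)) (hb β) (hb_meas β) (hb_mem hβ)
  have e4 : ∫ p, (h1 β p + ha β p + hb β p) ∂((μ.prod μ).prod (D.prod D)) = 1 := by
    have : (fun p => h1 β p + ha β p + hb β p) = fun _ : V => (1 : ℝ) := funext fun p => h_sum hβ p
    rw [this, integral_const]
    simp
  have e5 : ∫ p, (h1 β p + ha β p + hb β p) ∂((μ.prod μ).prod (D.prod D)) =
      (∫ p, (h1 β p + ha β p) ∂((μ.prod μ).prod (D.prod D))) +
        ∫ p, hb β p ∂((μ.prod μ).prod (D.prod D)) := integral_add (e1.add e2) e3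
  have e6 : ∫ p, (h1 β p + ha β p) ∂((μ.prod μ).prod (D.prod D)) =
      (∫ p, h1 β p ∂((μ.prod μ).prod (D.prod D))) +
        ∫ p, ha β p ∂((μ.prod μ).prod (D.prod D)) := integral_add e1 e2
  rw [e5, e6, swap_eq] at e4
  linarith

/-- the iterated lower integral -/
theorem lquad (D μ : Measure ℝ) [IsProbabilityMeasure D] [IsProbabilityMeasure μ] (h : V → ℝ)
    (hm : Measurable h) (hb : ∀ z, 0 ≤ h z ∧ h z ≤ 1) :
    ∫⁻ y, ∫⁻ x', ENNReal.ofReal (h ((y.1, x'), y.2)) ∂μ ∂(μ.prod (D.prod D)) =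
      ENNReal.ofReal (∫ p, h p ∂((μ.prod μ).prod (D.prod D))) := by
  rw [ofReal_integral_eq_lintegral_ofReal (integrable_of_mem _ h hm hb)
    (Eventually.of_forall fun p => (hb p).1)]
  have hmo : Measurable (fun p : V => ENNReal.ofReal (h p)) := hm.ennreal_ofReal
  rw [lintegral_prod _ hmo.aemeasurable, lintegral_prod (μ := μ) (ν := μ) _
    hmo.lintegral_prod_right'.aemeasurable]
  have e1 : Measurable (fun q : (ℝ × (ℝ × ℝ)) × ℝ => ENNReal.ofReal (h ((q.1.1, q.2), q.1.2))) := by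
    refine hmo.comp ?_
    fun_prop
  rw [lintegral_prod _ (e1.lintegral_prod_right').aemeasurable]
  refine lintegral_congr fun x => ?_
  refine lintegral_lintegral_swap (f := fun (r : ℝ × ℝ) (x' : ℝ) => ENNReal.ofReal
    (h ((x, x'), r))) ?_
  refine Measurable.aemeasurable ?_
  refine hmo.comp ?_
  fun_prop

theorem main (hMe : TaskMecke) : TaskXId := by
  intro α β D μ hβ hD hμ hfix
  have _i1 := hμ.p1
  obtain ⟨ν, hν⟩ : ∃ ν : Measure (ℝ × (ℝ × ℝ)), ν = μ.prod (D.prod D) := ⟨_, rfl⟩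
  have _i2 : IsProbabilityMeasure ν := by rw [hν]; infer_instance
  have hXm : XMap α β D μ = (seq (2 * α) ν).map (fun z => 1 / (1 + SS β z)) := by rw [hν]; rfl
  have hSm : Measurable (fun z : (ℕ → ℝ × (ℝ × ℝ)) × ℕ => 1 / (1 + SS β z)) :=
    measurable_const.div (measurable_const.add (SS_meas β))
  have hx0 : ∀ᵐ x ∂μ, 0 ≤ x := hμ.I.mono fun x hx => hx.1
  have hy0 : ∀ᵐ y ∂ν, 0 ≤ y.1 := by
    rw [hν]
    exact Measure.quasiMeasurePreserving_fst.ae hx0
  have hT0 : ∀ᵐ y ∂ν, 0 ≤ T0 β y := by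
    filter_upwards [hy0] with y hy
    unfold T0
    positivity
  have hpos : ∀ᵐ z ∂(seq (2 * α) ν), ∀ k, 0 ≤ T0 β (z.1 k) := by
    have e1 : ∀ᵐ ω ∂(Measure.infinitePi fun _ : ℕ => ν), ∀ k, 0 ≤ T0 β (ω k) := by
      rw [ae_all_iff]
      intro k
      exact (measurePreserving_eval_infinitePi (fun _ : ℕ => ν) k).quasiMeasurePreserving.ae hT0
    exact Measure.quasiMeasurePreserving_fst.ae e1
  have hM := hMe (ℝ × (ℝ × ℝ)) ν (2 * α) (fun z => (0, T0 β z))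
    (measurable_const.prodMk (T0_meas β)) (fun y S => ENNReal.ofReal (T0 β y / (1 + S.2))) (by
      refine Measurable.ennreal_ofReal ?_
      exact ((T0_meas β).comp measurable_fst).div (measurable_const.add
        (measurable_snd.comp measurable_snd)))
  have hsum : ∀ z : (ℕ → ℝ × (ℝ × ℝ)) × ℕ, (∑ j ∈ Finset.range z.2, ((0 : ℝ), T0 β (z.1 j))).2 =
      SS β z := fun z => by rw [Prod.snd_sum]; rfl
  have hL : ∫⁻ z, ∑ k ∈ Finset.range z.2, ENNReal.ofReal (T0 β (z.1 k) /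
      (1 + (∑ j ∈ Finset.range z.2, ((0 : ℝ), T0 β (z.1 j))).2)) ∂(seq (2 * α) ν) =
      ENNReal.ofReal (1 - ∫ x, x ∂μ) := by
    have e1 : ∫⁻ z, ∑ k ∈ Finset.range z.2, ENNReal.ofReal (T0 β (z.1 k) /
        (1 + (∑ j ∈ Finset.range z.2, ((0 : ℝ), T0 β (z.1 j))).2)) ∂(seq (2 * α) ν) =
        ∫⁻ z, ENNReal.ofReal (1 - 1 / (1 + SS β z)) ∂(seq (2 * α) ν) := by
      refine lintegral_congr_ae ?_
      filter_upwards [hpos] with z hz
      have hS : 0 ≤ SS β z := Finset.sum_nonneg fun k _ => hz k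
      rw [hsum, ← ENNReal.ofReal_sum_of_nonneg (fun k _ => div_nonneg (hz k) (by linarith)),
        ← Finset.sum_div]
      congr 1
      change SS β z / (1 + SS β z) = _
      field_simp
      ring
    have e2 : ∫⁻ z, ENNReal.ofReal (1 - 1 / (1 + SS β z)) ∂(seq (2 * α) ν) =
        ∫⁻ x, ENNReal.ofReal (1 - x) ∂μ := by
      conv_rhs => rw [← hfix, hXm]
      rw [lintegral_map (by fun_prop) hSm]
    have e3 : Integrable (fun x : ℝ => x) μ := by
      refine Integrable.of_bound measurable_id.aestronglyMeasurable 1 ?_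
      filter_upwards [hμ.I] with x hx
      rw [Real.norm_eq_abs, abs_of_nonneg hx.1]
      exact hx.2
    have e5 : Integrable (fun x : ℝ => 1 - x) μ := (integrable_const 1).sub e3
    rw [e1, e2, ← ofReal_integral_eq_lintegral_ofReal e5
      (hμ.I.mono fun x hx => sub_nonneg.2 hx.2)]
    congr 1
    have e4 : ∫ x, ((1 : ℝ) - x) ∂μ = (∫ _x, (1 : ℝ) ∂μ) - ∫ x, x ∂μ :=
      integral_sub (integrable_const 1) e3
    change ∫ x, ((1 : ℝ) - x) ∂μ = _
    rw [e4, integral_const]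
    simp
  have hR : ∫⁻ y, ∫⁻ z, ENNReal.ofReal (T0 β y / (1 + (((0 : ℝ), T0 β y) +
      ∑ j ∈ Finset.range z.2, ((0 : ℝ), T0 β (z.1 j))).2)) ∂(seq (2 * α) ν) ∂ν =
      ENNReal.ofReal (∫ p, hb β p ∂((μ.prod μ).prod (D.prod D))) := by
    rw [← lquad D μ (hb β) (hb_meas β) (hb_mem hβ), ← hν]
    refine lintegral_congr_ae ?_
    filter_upwards [hT0, hy0] with y hy hy'
    have e1 : ∫⁻ z, ENNReal.ofReal (T0 β y / (1 + (((0 : ℝ), T0 β y) +
        ∑ j ∈ Finset.range z.2, ((0 : ℝ), T0 β (z.1 j))).2)) ∂(seq (2 * α) ν) =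
        ∫⁻ z, ENNReal.ofReal (T0 β y * (1 / (1 + SS β z)) / (1 + T0 β y * (1 / (1 + SS β z))))
          ∂(seq (2 * α) ν) := by
      refine lintegral_congr_ae ?_
      filter_upwards [hpos] with z hz
      have hS : 0 ≤ SS β z := Finset.sum_nonneg fun k _ => hz k
      rw [Prod.snd_add, hsum]
      congr 1
      field_simp
      ring
    have e2 : ∫⁻ z, ENNReal.ofReal (T0 β y * (1 / (1 + SS β z)) / (1 + T0 β y * (1 / (1 + SS β z))))
          ∂(seq (2 * α) ν) = ∫⁻ x, ENNReal.ofReal (T0 β y * x / (1 + T0 β y * x)) ∂μ := by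
      conv_rhs => rw [← hfix, hXm]
      rw [lintegral_map (by fun_prop) hSm]
    rw [e1, e2]
    refine lintegral_congr_ae ?_
    filter_upwards [hx0] with x' hx'
    congr 1
    unfold hb aa T0
    rw [max_eq_left hx', max_eq_left hy']
    have e3 : 0 < 1 + 2 * β * y.2.1 ^ 2 * y.1 := by positivity
    field_simp
  have hM' : ENNReal.ofReal (1 - ∫ x, x ∂μ) = ((2 * α : ℝ≥0) : ℝ≥0∞) *
      ENNReal.ofReal (∫ p, hb β p ∂((μ.prod μ).prod (D.prod D))) := by
    rw [← hL, ← hR]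
    exact hM
  have hE1 : ∫ x, x ∂μ ≤ 1 := by
    have e3 : Integrable (fun x : ℝ => x) μ := by
      refine Integrable.of_bound measurable_id.aestronglyMeasurable 1 ?_
      filter_upwards [hμ.I] with x hx
      rw [Real.norm_eq_abs, abs_of_nonneg hx.1]
      exact hx.2
    have e4 : ∫ x, x ∂μ ≤ ∫ _x, (1 : ℝ) ∂μ :=
      integral_mono_ae e3 (integrable_const 1) (hμ.I.mono fun x hx => hx.2)
    rw [integral_const] at e4
    simpa using e4
  have hB0 : 0 ≤ ∫ p, hb β p ∂((μ.prod μ).prod (D.prod D)) :=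
    integral_nonneg fun p => (hb_mem hβ p).1
  have hreal : 1 - ∫ x, x ∂μ = 2 * (α : ℝ) * ∫ p, hb β p ∂((μ.prod μ).prod (D.prod D)) := by
    have e1 := congrArg ENNReal.toReal hM'
    rw [ENNReal.toReal_mul, ENNReal.toReal_ofReal (by linarith), ENNReal.toReal_ofReal hB0] at e1
    rw [e1]
    simp
  have hI : ∫ x, ∫ x', ∫ ξ, ∫ ζ, 1 / (1 + 2 * β * ξ ^ 2 * x + 2 * β * ζ ^ 2 * x') ∂D ∂D ∂μ ∂μ =
      ∫ p, h1 β p ∂((μ.prod μ).prod (D.prod D)) := by
    rw [← quad D μ (h1 β) (h1_meas β) (h1_mem hβ)]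
    refine integral_congr_ae ?_
    filter_upwards [hx0] with x hx
    refine integral_congr_ae ?_
    filter_upwards [hx0] with x' hx'
    change _ = ∫ ξ, ∫ ζ, 1 / (1 + 2 * β * ξ ^ 2 * max x 0 + 2 * β * ζ ^ 2 * max x' 0) ∂D ∂D
    rw [max_eq_left hx, max_eq_left hx']
  have hh := half_eq hβ D μ
  rw [hI]
  linear_combination -hreal - (α : ℝ) * hh

end Pool.Agent.Q222.JD.XId
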