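import Pool.Agent.Q222.JD.Stmts2

set_option autoImplicit false

open MeasureTheory ProbabilityTheory Filter Topology
open scoped ENNReal NNReal

namespace Pool.Agent.Q222.JD.TaskXLaw

theorem main : Pool.Agent.Q222.JD.TaskXLaw := by
  intro α β D μ hβ hD hμ
  have := hμ.p1
  have hmeas : Measurable fun z : (ℕ → ℝ × (ℝ × ℝ)) × ℕ =>
      1 / (1 + ∑ k ∈ Finset.range z.2,
        2 * β * (z.1 k).2.2 ^ 2 / (1 + 2 * β * (z.1 k).2.1 ^ 2 * (z.1 k).1)) := by
    refine measurable_from_prod_countable_left fun n => ?_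
    dsimp only
    refine Measurable.const_div (Measurable.const_add (Finset.measurable_fun_sum _ fun k _ => ?_) _) _
    have e : Measurable fun ω : ℕ → ℝ × (ℝ × ℝ) => ω k := measurable_pi_apply k
    exact ((e.snd.snd.pow_const 2).const_mul _).div
      (((((e.snd.fst.pow_const 2).const_mul _).mul e.fst)).const_add _)
  have h1 : ∀ᵐ y ∂(μ.prod (D.prod D)), 0 ≤ y.1 :=
    (Measure.quasiMeasurePreserving_fst).ae (hμ.I.mono fun x hx => hx.1)
  have h2 : ∀ᵐ z ∂(seq (2 * α) (μ.prod (D.prod D))), ∀ k, 0 ≤ (z.1 k).1 := by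
    rw [ae_all_iff]
    intro k
    have h3 : ∀ᵐ ω ∂(Measure.infinitePi fun _ : ℕ => μ.prod (D.prod D)), 0 ≤ (ω k).1 :=
      (measurePreserving_eval_infinitePi (fun _ : ℕ => μ.prod (D.prod D)) k).quasiMeasurePreserving.ae
        h1
    exact Measure.quasiMeasurePreserving_fst.ae h3
  have hprob : IsProbabilityMeasure (seq (2 * α) (μ.prod (D.prod D))) := by
    unfold seq
    infer_instance
  refine ⟨?_, ?_⟩
  · unfold XMap
    exact Measure.isProbabilityMeasure_map hmeas.aemeasurable
  · unfold XMap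
    rw [ae_map_iff hmeas.aemeasurable (measurableSet_Icc (a := (0 : ℝ)) (b := 1))]
    filter_upwards [h2] with z hz
    have hS : 0 ≤ ∑ k ∈ Finset.range z.2,
        2 * β * (z.1 k).2.2 ^ 2 / (1 + 2 * β * (z.1 k).2.1 ^ 2 * (z.1 k).1) := by
      refine Finset.sum_nonneg fun k _ => ?_
      have := hz k
      positivity
    constructor
    · positivity
    · rw [div_le_one (by positivity)]
      linarith

end Pool.Agent.Q222.JD.TaskXLaw
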