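import Pool.Agent.Q222.JD.Stmts2

/-!
Decreasing sequences of laws on `[0, 1]` converge (blueprint of helper222 for MP_75c26c_pr).
-/

set_option autoImplicit false

open MeasureTheory ProbabilityTheory Filter Topology Set
open scoped ENNReal NNReal

namespace Pool.Agent.Q222.JD.TaskXLim

open Pool.Agent.Q222.JD

lemma compl_null {μ : Measure ℝ} (h : Law01 μ) : μ (Icc (0 : ℝ) 1)ᶜ = 0 := by
  have := h.I
  rw [ae_iff] at this
  have e : {a : ℝ | ¬ (0 ≤ a ∧ a ≤ 1)} = (Icc (0 : ℝ) 1)ᶜ := by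
    ext x; simp [mem_Icc]
  rw [← e]
  exact this

theorem main : Pool.Agent.Q222.JD.TaskXLim := by
  intro μ hμ hdec
  let P : ℕ → ProbabilityMeasure ℝ := fun n => ⟨μ n, (hμ n).p1⟩
  have hP : ∀ n, ((P n : ProbabilityMeasure ℝ) : Measure ℝ) = μ n := fun n => rfl
  have htight : IsTightMeasureSet {((ν : ProbabilityMeasure ℝ) : Measure ℝ) | ν ∈ range P} := by
    rw [isTightMeasureSet_iff_exists_isCompact_measure_compl_le]
    intro ε _
    refine ⟨Icc 0 1, isCompact_Icc, ?_⟩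
    rintro _ ⟨_, ⟨n, rfl⟩, rfl⟩
    rw [hP, compl_null (hμ n)]
    exact bot_le
  have hcomp := isCompact_closure_of_isTightMeasureSet htight
  obtain ⟨ν, _, φ, hφ, hlim⟩ := hcomp.tendsto_subseq (x := P) fun n => subset_closure ⟨n, rfl⟩
  have hint : ∀ f : BoundedContinuousFunction ℝ ℝ,
      Tendsto (fun k => ∫ x, f x ∂(μ (φ k))) atTop (𝓝 (∫ x, f x ∂(ν : Measure ℝ))) :=
    fun f => (ProbabilityMeasure.tendsto_iff_forall_integral_tendsto.1 hlim) f
  have hnull : (ν : Measure ℝ) (Icc (0 : ℝ) 1)ᶜ = 0 := by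
    have h1 := ProbabilityMeasure.le_liminf_measure_open_of_tendsto hlim
      (isClosed_Icc (a := (0 : ℝ)) (b := 1)).isOpen_compl
    have h2 : (fun k => (((P ∘ φ) k : ProbabilityMeasure ℝ) : Measure ℝ) (Icc (0 : ℝ) 1)ᶜ) =
        fun _ => 0 := by
      funext k
      exact compl_null (hμ (φ k))
    rw [h2, liminf_const] at h1
    exact le_antisymm h1 bot_le
  refine ⟨ν, ⟨inferInstance, ?_⟩, φ, hφ, hint, ?_⟩
  · rw [ae_iff]
    have e : {a : ℝ | ¬ (0 ≤ a ∧ a ≤ 1)} = (Icc (0 : ℝ) 1)ᶜ := by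
      ext x; simp [mem_Icc]
    rw [e]
    exact hnull
  · intro f hf
    have hanti : Antitone fun n => ∫ x, f x ∂(μ n) := antitone_nat_of_succ_le fun n => hdec n f hf
    have hbdd : BddBelow (range fun n => ∫ x, f x ∂(μ n)) := by
      refine ⟨-‖f‖, ?_⟩
      rintro _ ⟨n, rfl⟩
      have := (hμ n).p1
      have h1 : ‖∫ x, f x ∂(μ n)‖ ≤ ‖f‖ := f.norm_integral_le_norm (μ n)
      exact (abs_le.1 h1).1
    have hL := tendsto_atTop_ciInf hanti hbdd
    have h2 := tendsto_nhds_unique (hL.comp hφ.tendsto_atTop) (hint f)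
    rw [← h2]
    exact hL

end Pool.Agent.Q222.JD.TaskXLim
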