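import Pool.Agent.Q222.JD.Stmts2

/-!
# `XMap` is monotone for the stochastic order (helper96): quantile coupling
-/

set_option autoImplicit false

open MeasureTheory ProbabilityTheory Filter Topology
open scoped ENNReal NNReal

namespace Pool.Agent.Q222.JD.TaskXMono

theorem infEDist_mono (a : ℝ) {x y : ℝ} (h : x ≤ y) :
    Metric.infEDist x (Set.Iic a) ≤ Metric.infEDist y (Set.Iic a) := by
  by_cases hx : x ≤ a
  · rw [Metric.infEDist_zero_of_mem (Set.mem_Iic.2 hx)]
    exact zero_le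
  · push Not at hx
    refine Metric.le_infEDist.2 fun z hz => (Metric.infEDist_le_edist_of_mem hz).trans ?_
    rw [edist_dist, edist_dist]
    refine ENNReal.ofReal_le_ofReal ?_
    rw [Set.mem_Iic] at hz
    rw [Real.dist_eq, Real.dist_eq, abs_of_nonneg (by linarith), abs_of_nonneg (by linarith)]
    linarith

theorem Iic_le {μ ν : Measure ℝ} (h1 : IsProbabilityMeasure μ) (h2 : IsProbabilityMeasure ν)
    (h : LeM μ ν) (t : ℝ) : ν.real (Set.Iic t) ≤ μ.real (Set.Iic t) := by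
  have hF : IsClosed (Set.Iic t) := isClosed_Iic
  have hpos : ∀ n : ℕ, (0 : ℝ) < 1 / ((n : ℝ) + 1) := fun n => Nat.one_div_pos_of_nat
  have t1 := tendsto_integral_thickenedIndicator_of_isClosed μ hF hpos
    tendsto_one_div_add_atTop_nhds_zero_nat
  have t2 := tendsto_integral_thickenedIndicator_of_isClosed ν hF hpos
    tendsto_one_div_add_atTop_nhds_zero_nat
  refine le_of_tendsto_of_tendsto' t2 t1 fun n => ?_
  let f : BoundedContinuousFunction ℝ ℝ :=
    ⟨⟨fun x => ((thickenedIndicator (hpos n) (Set.Iic t) x : NNReal) : ℝ),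
      Continuous.comp' NNReal.continuous_coe (thickenedIndicator (hpos n) (Set.Iic t)).continuous⟩,
      (thickenedIndicator (hpos n) (Set.Iic t)).map_bounded'⟩
  have hf : Monotone (-f) := by
    intro x y hxy
    exact neg_le_neg
      (NNReal.coe_le_coe.2 (thickenedIndicator_mono_infEDist (hpos n) (infEDist_mono t hxy)))
  have h3 := h (-f) hf
  have h4 : ∀ ρ : Measure ℝ, ∫ x, (-f) x ∂ρ = - ∫ x, f x ∂ρ := by
    intro ρ
    rw [← integral_neg]
    rfl
  rw [h4, h4] at h3
  exact neg_le_neg_iff.mp h3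

/-- the quantile function -/
noncomputable def q (μ : Measure ℝ) (u : ℝ) : ℝ := by
  classical exact if u ∈ Set.Ioc (0 : ℝ) 1 then sInf {t | u ≤ μ.real (Set.Iic t)} else 0

theorem real_neg {μ : Measure ℝ} (h : Law01 μ) {t : ℝ} (ht : t < 0) :
    μ.real (Set.Iic t) = 0 := by
  have : μ (Set.Iic t) = 0 := by
    refine measure_mono_null ?_ (ae_iff.mp h.I)
    intro x hx h0
    exact absurd (h0.1.trans hx) (not_le.mpr ht)
  simp [Measure.real, this]

theorem real_one {μ : Measure ℝ} (h : Law01 μ) : μ.real (Set.Iic 1) = 1 := by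
  have := h.p1
  have h1 : μ (Set.Iic 1)ᶜ = 0 := by
    refine measure_mono_null ?_ (ae_iff.mp h.I)
    intro x hx h0
    exact hx h0.2
  have h2 := (prob_compl_eq_zero_iff measurableSet_Iic).mp h1
  simp [Measure.real, h2]

theorem q_nonneg {μ : Measure ℝ} (h : Law01 μ) (u : ℝ) : 0 ≤ q μ u := by
  unfold q
  split_ifs with hu
  · refine le_csInf ⟨1, ?_⟩ ?_
    · show u ≤ μ.real (Set.Iic 1)
      rw [real_one h]; exact hu.2
    · intro t ht
      by_contra hc
      have : u ≤ μ.real (Set.Iic t) := ht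
      rw [real_neg h (not_le.mp hc)] at this
      exact absurd hu.1 (not_lt.mpr this)
  · exact le_rfl

theorem q_le_iff {μ : Measure ℝ} (h : Law01 μ) {u : ℝ} (hu : u ∈ Set.Ioc (0 : ℝ) 1) (t : ℝ) :
    q μ u ≤ t ↔ u ≤ μ.real (Set.Iic t) := by
  have hp := h.p1
  have hq : q μ u = sInf {t | u ≤ μ.real (Set.Iic t)} := by
    unfold q
    rw [if_pos hu]
  rw [hq]
  set A : Set ℝ := {t | u ≤ μ.real (Set.Iic t)} with hA
  have hne : A.Nonempty := ⟨1, by
    show u ≤ μ.real (Set.Iic 1)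
    rw [real_one h]; exact hu.2⟩
  have hbd : BddBelow A := ⟨0, by
    intro t ht
    by_contra hc
    have : u ≤ μ.real (Set.Iic t) := ht
    rw [real_neg h (not_le.mp hc)] at this
    exact absurd hu.1 (not_lt.mpr this)⟩
  have hmono : ∀ s t : ℝ, s ≤ t → μ.real (Set.Iic s) ≤ μ.real (Set.Iic t) := fun s t hst =>
    measureReal_mono (Set.Iic_subset_Iic.mpr hst)
  have hatt : u ≤ μ.real (Set.Iic (sInf A)) := by
    have h1 : Tendsto (fun n : ℕ => sInf A + 1 / ((n : ℝ) + 1)) atTop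
        (𝓝[≥] (sInf A)) := by
      refine tendsto_nhdsWithin_iff.mpr ⟨?_, Eventually.of_forall fun n => ?_⟩
      · simpa using tendsto_const_nhds.add (tendsto_one_div_add_atTop_nhds_zero_nat (𝕜 := ℝ))
      · have : (0 : ℝ) < 1 / ((n : ℝ) + 1) := Nat.one_div_pos_of_nat
        show sInf A ≤ _
        linarith
    have h2 : Tendsto (cdf μ) (𝓝[≥] (sInf A)) (𝓝 (cdf μ (sInf A))) :=
      (cdf μ).right_continuous (sInf A)
    have h3 := h2.comp h1
    rw [cdf_eq_real] at h3
    refine ge_of_tendsto' h3 fun n => ?_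
    show u ≤ cdf μ (sInf A + 1 / ((n : ℝ) + 1))
    rw [cdf_eq_real]
    have : (0 : ℝ) < 1 / ((n : ℝ) + 1) := Nat.one_div_pos_of_nat
    obtain ⟨t, ht, htlt⟩ := exists_lt_of_csInf_lt hne (show sInf A < sInf A + 1 / ((n : ℝ) + 1) by
      linarith)
    exact le_trans ht (hmono _ _ htlt.le)
  constructor
  · intro hle
    exact hatt.trans (hmono _ _ hle)
  · intro hle
    exact csInf_le hbd hle

theorem q_meas {μ : Measure ℝ} (h : Law01 μ) : Measurable (q μ) := by
  refine measurable_of_Iic fun t => ?_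
  have : q μ ⁻¹' Set.Iic t = (Set.Ioc (0 : ℝ) 1 ∩ Set.Iic (μ.real (Set.Iic t))) ∪
      ((Set.Ioc (0 : ℝ) 1)ᶜ ∩ {_u : ℝ | 0 ≤ t}) := by
    ext u
    by_cases hu : u ∈ Set.Ioc (0 : ℝ) 1
    · constructor
      · intro hx
        exact Or.inl ⟨hu, (q_le_iff h hu t).mp hx⟩
      · rintro (hx | hx)
        · exact (q_le_iff h hu t).mpr hx.2
        · exact absurd hu hx.1
    · have hq : q μ u = 0 := by
        unfold q
        rw [if_neg hu]
      constructor
      · intro hx
        refine Or.inr ⟨hu, ?_⟩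
        have : q μ u ≤ t := hx
        rwa [hq] at this
      · rintro (hx | hx)
        · exact absurd hx.1 hu
        · show q μ u ≤ t
          rw [hq]
          exact hx.2
  rw [this]
  exact (measurableSet_Ioc.inter measurableSet_Iic).union
    (measurableSet_Ioc.compl.inter (MeasurableSet.const _))

/-- the uniform law -/
noncomputable def lam : Measure ℝ := volume.restrict (Set.Ioc (0 : ℝ) 1)

instance : IsProbabilityMeasure lam := ⟨by simp [lam]⟩

theorem q_map {μ : Measure ℝ} (h : Law01 μ) : lam.map (q μ) = μ := by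
  have hp := h.p1
  have : IsProbabilityMeasure (lam.map (q μ)) :=
    Measure.isProbabilityMeasure_map (q_meas h).aemeasurable
  refine Measure.ext_of_Iic _ _ fun t => ?_
  rw [Measure.map_apply (q_meas h) measurableSet_Iic, lam,
    Measure.restrict_apply ((q_meas h) measurableSet_Iic)]
  have e : q μ ⁻¹' Set.Iic t ∩ Set.Ioc (0 : ℝ) 1 = Set.Ioc 0 (μ.real (Set.Iic t)) := by
    ext u
    constructor
    · rintro ⟨hx, hu⟩
      exact ⟨hu.1, (q_le_iff h hu t).mp hx⟩
    · rintro ⟨h0, h1⟩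
      have hu : u ∈ Set.Ioc (0 : ℝ) 1 := ⟨h0, h1.trans measureReal_le_one⟩
      exact ⟨(q_le_iff h hu t).mpr h1, hu⟩
  rw [e, Real.volume_Ioc, sub_zero, ofReal_measureReal]

theorem q_mono {μ ν : Measure ℝ} (hμ : Law01 μ) (hν : Law01 ν) (h : LeM μ ν) (u : ℝ) :
    q μ u ≤ q ν u := by
  by_cases hu : u ∈ Set.Ioc (0 : ℝ) 1
  · rw [q_le_iff hμ hu]
    exact ((q_le_iff hν hu _).mp le_rfl).trans (Iic_le hμ.p1 hν.p1 h _)
  · unfold q
    rw [if_neg hu, if_neg hu]

/-- the function of `XMap` -/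
noncomputable def G (β : ℝ) (z : (ℕ → ℝ × (ℝ × ℝ)) × ℕ) : ℝ :=
  1 / (1 + ∑ k ∈ Finset.range z.2,
    2 * β * (z.1 k).2.2 ^ 2 / (1 + 2 * β * (z.1 k).2.1 ^ 2 * (z.1 k).1))

theorem G_meas (β : ℝ) : Measurable (G β) := by
  refine measurable_from_prod_countable_left fun r => ?_
  show Measurable fun ω : ℕ → ℝ × (ℝ × ℝ) => 1 / (1 + ∑ k ∈ Finset.range r,
    2 * β * (ω k).2.2 ^ 2 / (1 + 2 * β * (ω k).2.1 ^ 2 * (ω k).1))
  refine Measurable.const_div (Measurable.const_add (Finset.measurable_fun_sum _ fun k _ => ?_) 1) 1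
  fun_prop

/-- the change of variables -/
def Psi (f : ℝ → ℝ) (z : (ℕ → ℝ × (ℝ × ℝ)) × ℕ) : (ℕ → ℝ × (ℝ × ℝ)) × ℕ :=
  (fun k => (f (z.1 k).1, (z.1 k).2), z.2)

theorem seq_map (l : ℝ≥0) (E : Measure (ℝ × ℝ)) [IsProbabilityMeasure E] {μ : Measure ℝ}
    (h : Law01 μ) : seq l (μ.prod E) = (seq l (lam.prod E)).map (Psi (q μ)) := by
  have hm := q_meas h
  have e1 : μ.prod E = (lam.prod E).map (Prod.map (q μ) id) := by
    rw [← Measure.map_prod_map _ _ hm measurable_id, Measure.map_id, q_map h]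
  have hm2 : Measurable (Prod.map (q μ) (id : ℝ × ℝ → ℝ × ℝ)) := hm.prodMap measurable_id
  have hm3 : Measurable (fun (ω : ℕ → ℝ × (ℝ × ℝ)) (k : ℕ) => Prod.map (q μ) id (ω k)) :=
    measurable_pi_lambda _ fun k => hm2.comp (measurable_pi_apply k)
  have e2 : (Measure.infinitePi fun _ : ℕ => μ.prod E) =
      (Measure.infinitePi fun _ : ℕ => lam.prod E).map
        (fun (ω : ℕ → ℝ × (ℝ × ℝ)) (k : ℕ) => Prod.map (q μ) id (ω k)) := by
    rw [e1]
    exact (Measure.infinitePi_map_pi (μ := fun _ : ℕ => lam.prod E)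
      (f := fun _ : ℕ => Prod.map (q μ) id) (fun _ => hm2)).symm
  unfold seq
  rw [e2]
  have e3 := Measure.map_prod_map (Measure.infinitePi fun _ : ℕ => lam.prod E) (poissonMeasure l)
    hm3 measurable_id
  rw [Measure.map_id] at e3
  rw [e3]
  rfl

theorem main : Pool.Agent.Q222.JD.TaskXMono := by
  intro α β D μ ν hβ hD hμ hν h f hf
  have hE : IsProbabilityMeasure (D.prod D) := inferInstance
  have hPm : ∀ g : ℝ → ℝ, Measurable g → Measurable (Psi g) := by
    intro g hg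
    unfold Psi
    refine Measurable.prodMk ?_ measurable_snd
    refine measurable_pi_lambda _ fun k => ?_
    have h1 : Measurable (fun z : (ℕ → ℝ × (ℝ × ℝ)) × ℕ => z.1 k) :=
      (measurable_pi_apply k).comp measurable_fst
    exact (hg.comp (measurable_fst.comp h1)).prodMk (measurable_snd.comp h1)
  have key : ∀ ρ : Measure ℝ, Law01 ρ → ∫ x, f x ∂(XMap α β D ρ) =
      ∫ z, f (G β (Psi (q ρ) z)) ∂(seq (2 * α) (lam.prod (D.prod D))) := by
    intro ρ hρ
    have e : XMap α β D ρ = (seq (2 * α) (ρ.prod (D.prod D))).map (G β) := rfl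
    rw [e, seq_map (2 * α) (D.prod D) hρ, Measure.map_map (G_meas β) (hPm _ (q_meas hρ)),
      integral_map ((G_meas β).comp (hPm _ (q_meas hρ))).aemeasurable
        f.continuous.aestronglyMeasurable]
    rfl
  rw [key μ hμ, key ν hν]
  have hseq : IsProbabilityMeasure (seq (2 * α) (lam.prod (D.prod D))) := by
    unfold seq
    infer_instance
  have hint : ∀ ρ : Measure ℝ, Law01 ρ → Integrable (fun z => f (G β (Psi (q ρ) z)))
      (seq (2 * α) (lam.prod (D.prod D))) := by
    intro ρ hρ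
    refine Integrable.of_bound (f.continuous.measurable.comp
      ((G_meas β).comp (hPm _ (q_meas hρ)))).aestronglyMeasurable ‖f‖ ?_
    exact Eventually.of_forall fun z => f.norm_coe_le_norm _
  refine integral_mono (hint μ hμ) (hint ν hν) fun z => ?_
  refine hf ?_
  unfold G Psi
  simp only
  have hpos : ∀ (ρ : Measure ℝ), Law01 ρ → 0 ≤ ∑ k ∈ Finset.range z.2,
      2 * β * (z.1 k).2.2 ^ 2 / (1 + 2 * β * (z.1 k).2.1 ^ 2 * q ρ (z.1 k).1) := by
    intro ρ hρ
    refine Finset.sum_nonneg fun k _ => ?_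
    have := q_nonneg hρ (z.1 k).1
    positivity
  have hle : ∑ k ∈ Finset.range z.2,
      2 * β * (z.1 k).2.2 ^ 2 / (1 + 2 * β * (z.1 k).2.1 ^ 2 * q ν (z.1 k).1) ≤
      ∑ k ∈ Finset.range z.2,
      2 * β * (z.1 k).2.2 ^ 2 / (1 + 2 * β * (z.1 k).2.1 ^ 2 * q μ (z.1 k).1) := by
    refine Finset.sum_le_sum fun k _ => ?_
    have h1 := q_nonneg hμ (z.1 k).1
    have h2 := q_mono hμ hν h (z.1 k).1
    refine div_le_div_of_nonneg_left (by positivity) (by positivity) ?_
    have h3 : 0 ≤ 2 * β * (z.1 k).2.1 ^ 2 := by positivity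
    have := mul_le_mul_of_nonneg_left h2 h3
    linarith
  exact one_div_le_one_div_of_le (by linarith [hpos ν hν]) (by linarith)

end Pool.Agent.Q222.JD.TaskXMono
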