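import Pool.Agent.Q222.JD.Stmts2

/-!
# Monotone bounded continuous functions separate laws (helper57)
-/

set_option autoImplicit false

open MeasureTheory Filter Topology

namespace Pool.Agent.Q222.JD.TaskXSep

theorem infEDist_anti (a : ℝ) {x y : ℝ} (h : x ≤ y) :
    Metric.infEDist y (Set.Ici a) ≤ Metric.infEDist x (Set.Ici a) := by
  by_cases hy : a ≤ y
  · rw [Metric.infEDist_zero_of_mem (Set.mem_Ici.2 hy)]
    exact zero_le
  · push Not at hy
    refine Metric.le_infEDist.2 fun z hz => (Metric.infEDist_le_edist_of_mem hz).trans ?_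
    rw [edist_dist, edist_dist]
    refine ENNReal.ofReal_le_ofReal ?_
    rw [Set.mem_Ici] at hz
    rw [Real.dist_eq, Real.dist_eq, abs_of_nonpos (by linarith), abs_of_nonpos (by linarith)]
    linarith

theorem main : Pool.Agent.Q222.JD.TaskXSep := by
  intro μ ν h1 h2 h h'
  refine Measure.ext_of_Ici μ ν fun a => ?_
  have hF : IsClosed (Set.Ici a) := isClosed_Ici
  have hpos : ∀ n : ℕ, (0 : ℝ) < 1 / ((n : ℝ) + 1) := fun n => Nat.one_div_pos_of_nat
  have t1 := tendsto_integral_thickenedIndicator_of_isClosed μ hF hpos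
    tendsto_one_div_add_atTop_nhds_zero_nat
  have t2 := tendsto_integral_thickenedIndicator_of_isClosed ν hF hpos
    tendsto_one_div_add_atTop_nhds_zero_nat
  have h3 : ∀ n : ℕ, ∫ ω, (thickenedIndicator (hpos n) (Set.Ici a) ω : ℝ) ∂μ =
      ∫ ω, (thickenedIndicator (hpos n) (Set.Ici a) ω : ℝ) ∂ν := by
    intro n
    let f : BoundedContinuousFunction ℝ ℝ :=
      ⟨⟨fun x => ((thickenedIndicator (hpos n) (Set.Ici a) x : NNReal) : ℝ),
        Continuous.comp' NNReal.continuous_coe (thickenedIndicator (hpos n) (Set.Ici a)).continuous⟩,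
        (thickenedIndicator (hpos n) (Set.Ici a)).map_bounded'⟩
    have hf : Monotone f := by
      intro x y hxy
      exact NNReal.coe_le_coe.2 (thickenedIndicator_mono_infEDist (hpos n) (infEDist_anti a hxy))
    exact le_antisymm (h f hf) (h' f hf)
  simp only [h3] at t1
  have h4 := tendsto_nhds_unique t1 t2
  exact (ENNReal.toReal_eq_toReal_iff' (measure_ne_top _ _) (measure_ne_top _ _)).1 h4

end Pool.Agent.Q222.JD.TaskXSep
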