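import Pool.Agent.Q222.JD.Stmts2

set_option autoImplicit false

open MeasureTheory ProbabilityTheory Filter Topology
open scoped ENNReal NNReal

namespace Pool.Agent.Q222.JD.TaskXTop

open Pool.Agent.Q222.JD

theorem law_dirac : Law01 (Measure.dirac (1 : ℝ)) := by
  refine ⟨inferInstance, ?_⟩
  rw [ae_dirac_iff]
  · norm_num
  · exact (measurableSet_Icc : MeasurableSet (Set.Icc (0 : ℝ) 1))

theorem le_dirac {μ : Measure ℝ} (h : Law01 μ) : LeM μ (Measure.dirac 1) := by
  intro f hf
  haveI := h.p1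
  rw [integral_dirac]
  calc ∫ x, f x ∂μ ≤ ∫ _x, f 1 ∂μ := by
        refine integral_mono_ae (f.integrable μ) (integrable_const _) ?_
        filter_upwards [h.I] with x hx
        exact hf hx.2
    _ = f 1 := by simp

theorem main (hLaw : TaskXLaw) (hMono : TaskXMono) (hLim : TaskXLim) (hCont : TaskXCont)
    (hSep : TaskXSep) : Pool.Agent.Q222.JD.TaskXTop := by
  intro α β D hβ hD
  set ν : ℕ → Measure ℝ := fun n => (XMap α β D)^[n] (Measure.dirac 1) with hν
  have hs : ∀ n, ν (n + 1) = XMap α β D (ν n) := by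
    intro n
    simp only [hν, Function.iterate_succ_apply']
  have h0 : ν 0 = Measure.dirac 1 := rfl
  have hL : ∀ n, Law01 (ν n) := by
    intro n
    induction n with
    | zero => rw [h0]; exact law_dirac
    | succ n ih => rw [hs]; exact hLaw α β D _ hβ hD ih
  have hdec : ∀ n, LeM (ν (n + 1)) (ν n) := by
    intro n
    induction n with
    | zero => rw [h0]; exact le_dirac (hL 1)
    | succ n ih =>
      rw [hs (n + 1), hs n]
      rw [hs n] at ih
      exact hMono α β D _ _ hβ hD (hs n ▸ hL (n + 1)) (hL n) ih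
  obtain ⟨μ0, hμ0, φ, hφ, hw, hm⟩ := hLim ν hL hdec
  haveI := hμ0.p1
  haveI := fun n => (hL n).p1
  haveI : IsProbabilityMeasure (XMap α β D μ0) := (hLaw α β D _ hβ hD hμ0).p1
  have hfix : XMap α β D μ0 = μ0 := by
    let P : ℕ → ProbabilityMeasure ℝ := fun k => ⟨ν (φ k), (hL (φ k)).p1⟩
    let P0 : ProbabilityMeasure ℝ := ⟨μ0, hμ0.p1⟩
    have hP : Tendsto P atTop (𝓝 P0) := by
      rw [ProbabilityMeasure.tendsto_iff_forall_integral_tendsto]
      exact fun f => hw f
    have hc := hCont α β D hβ hD P P0 (fun k => hL (φ k)) hμ0 hP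
    have key : ∀ f : BoundedContinuousFunction ℝ ℝ, Monotone f →
        ∫ x, f x ∂(XMap α β D μ0) = ∫ x, f x ∂μ0 := by
      intro f hf
      have h1 : Tendsto (fun k => ∫ z, f z ∂(XMap α β D (ν (φ k)))) atTop
        (𝓝 (∫ z, f z ∂(XMap α β D μ0))) := hc f
      have h2 : Tendsto (fun k => ∫ z, f z ∂(ν (φ k + 1))) atTop (𝓝 (∫ z, f z ∂μ0)) :=
        (hm f hf).comp ((tendsto_add_atTop_nat 1).comp hφ.tendsto_atTop)
      simp only [hs] at h2
      exact tendsto_nhds_unique h1 h2
    exact hSep _ _ inferInstance inferInstance (fun f hf => (key f hf).le)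
      (fun f hf => (key f hf).ge)
  refine ⟨μ0, hμ0, hfix, fun μ hμ hμf => ?_⟩
  have hle : ∀ n, LeM μ (ν n) := by
    intro n
    induction n with
    | zero => rw [h0]; exact le_dirac hμ
    | succ n ih =>
      have := hMono α β D _ _ hβ hD hμ (hL n) ih
      rw [hμf, ← hs] at this
      exact this
  intro f hf
  exact ge_of_tendsto (hm f hf) (Eventually.of_forall fun n => hle n f hf)

end Pool.Agent.Q222.JD.TaskXTop
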