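import Pool.Agent.Q222.JD.Stmts

/-! # TaskUpd, TaskMeas, TaskHd (helper150) -/

set_option autoImplicit false

open MeasureTheory ProbabilityTheory Filter Topology
open scoped ENNReal NNReal

namespace Pool.Agent.Q222.JD

theorem taskUpd : TaskUpd := by
  intro Z _ ν _ σ hσ hmap r
  have h := Measure.infinitePi_map_pi (fun _ : ℕ => ν)
    (f := fun i => if i = r then σ else id) (fun i => by
      by_cases h : i = r
      · simp only [h, if_true]; exact hσ
      · simp only [h, if_false]; exact measurable_id)
  have e1 : (fun ω : ℕ → Z => Function.update ω r (σ (ω r))) =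
      fun (x : ℕ → Z) i => (if i = r then σ else id) (x i) := by
    funext ω i
    by_cases h : i = r
    · subst h; simp
    · simp [Function.update_of_ne h, h]
  rw [e1, h]
  congr 1
  funext i
  by_cases h : i = r
  · simp only [h, if_true]; exact hmap
  · simp only [h, if_false]; exact Measure.map_id

theorem meas_W (β : ℝ) : Measurable (W β) := by unfold W; fun_prop
theorem meas_C (β : ℝ) : Measurable (C β) := by
  unfold C
  exact Measurable.div (by fun_prop) (meas_W β)
theorem meas_T (β : ℝ) : Measurable (T β) := by
  unfold T
  exact Measurable.div (by fun_prop) (meas_W β)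

theorem meas_sum {Z E : Type} [MeasurableSpace Z] [AddCommMonoid E] [MeasurableSpace E]
    [MeasurableAdd₂ E] {c : Z → E} (hc : Measurable c) :
    Measurable (fun z : (ℕ → Z) × ℕ => ∑ k ∈ Finset.range z.2, c (z.1 k)) := by
  refine measurable_from_prod_countable_left fun r => ?_
  have h : Measurable fun x : ℕ → Z => ∑ k ∈ Finset.range r, c (x k) :=
    Finset.measurable_fun_sum _ fun k _ => hc.comp (measurable_pi_apply k)
  exact h

theorem taskMeas : TaskMeas := by
  intro β s
  unfold out
  refine Measurable.prodMk ?_ ?_
  · exact measurable_const.sub (meas_sum (meas_C β))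
  · exact measurable_const.div (measurable_const.add (meas_sum (meas_T β)))

theorem meas_lin (p q : ℝ) : Measurable (lin p q) := by unfold lin; fun_prop

theorem taskHd : TaskHd := by
  intro κ
  unfold H
  rw [lintegral_map (by fun_prop) (meas_lin _ _), lintegral_map (by fun_prop) (meas_lin _ _),
    lintegral_map (by fun_prop) (meas_lin _ _), ← lintegral_add_left, ← lintegral_const_mul]
  · refine lintegral_mono fun z => ?_
    unfold lin
    simp only
    rw [← ENNReal.ofReal_add (sq_nonneg _) (sq_nonneg _),
      show (2 : ℝ≥0∞) = ENNReal.ofReal 2 by simp, ← ENNReal.ofReal_mul (by norm_num)]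
    apply ENNReal.ofReal_le_ofReal
    nlinarith [sq_nonneg (z.2 * z.1.1 + z.2 * z.1.2)]
  · have := meas_lin 1 0
    have := meas_lin 0 1
    fun_prop
  · have := meas_lin 1 0
    fun_prop

end Pool.Agent.Q222.JD
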