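import Pool.Agent.Q222.JD.Assembly
import Pool.Agent.Q222.JD.Upd
import Pool.Agent.Q222.JD.Flip
import Pool.Agent.Q222.JD.TaskMeckeFix
import Pool.Agent.Q222.JD.TaskMecke
import Pool.Agent.Q222.JD.TaskCouple
import Pool.Agent.Q222.JD.TaskMargB
import Pool.Agent.Q222.JD.TaskPos
import Pool.Agent.Q222.JD.TaskM1
import Pool.Agent.Q222.JD.TaskM2raw
import Pool.Agent.Q222.JD.TaskM2alg
import Pool.Agent.Q222.JD.TaskQalg
import Pool.Agent.Q222.JD.TaskQfin
import Pool.Agent.Q222.JD.TaskE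
import Pool.Agent.Q222.JD.TaskLin
import Pool.Agent.Q222.JD.TaskIter2
import Pool.Agent.Q222.JD.TaskLimit
import Pool.Agent.Q222.JD.TaskSep
import Pool.Agent.Q222.JD.TaskUniq
import Pool.Agent.Q222.JD.TaskInf
import Pool.Agent.Q222.JD.TaskTight
import Pool.Agent.Q222.JD.TaskFatou
import Pool.Agent.Q222.JD.TaskSndLim
import Pool.Agent.Q222.JD.TaskCont
import Pool.Agent.Q222.JD.TaskExist
import Pool.Agent.Q222.JD.TaskXLaw
import Pool.Agent.Q222.JD.TaskXMono
import Pool.Agent.Q222.JD.TaskXCont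
import Pool.Agent.Q222.JD.TaskXSep
import Pool.Agent.Q222.JD.TaskXLim
import Pool.Agent.Q222.JD.TaskXTop
import Pool.Agent.Q222.JD.TaskXId
import Pool.Agent.Q222.JD.TaskXCmp
import Pool.Agent.Q222.JD.TaskXEq
import Pool.Agent.Q222.JD.TaskX

/-!
# MP_75c26c_pr: all tasks together
-/

set_option autoImplicit false

open MeasureTheory ProbabilityTheory
open scoped ENNReal NNReal

namespace Pool.Agent.Q222.JD

theorem tMecke : TaskMecke := TaskMecke.main TaskMeckeFix.main
theorem tMarg : TaskMarg := TaskMargB.main taskMeas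
theorem tM1 : TaskM1 := TaskM1.main tMecke taskFlip tMarg taskMeas
theorem tM2raw : TaskM2raw := TaskM2raw.main tMecke taskMeas
theorem tE : TaskE :=
  TaskE.main tMarg tM1 tM2raw TaskM2alg.main TaskQalg.main TaskQfin.main
theorem tIter2 : TaskIter2 := TaskIter2.main (TaskLin.main taskMeas) (taskIter0 tE)
theorem tUniq : TaskUniq :=
  TaskUniq.main TaskCouple.main tIter2 TaskLimit.main TaskPos.main taskHd TaskSep.main
theorem tExist : TaskExist :=
  TaskExist.main (TaskInf.main tE) TaskTight.main TaskFatou.main TaskSndLim.main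
    (TaskCont.main taskMeas) TaskCouple.main tIter2 TaskLimit.main taskHd TaskSep.main TaskPos.main
theorem tXTop : TaskXTop :=
  TaskXTop.main TaskXLaw.main TaskXMono.main TaskXLim.main TaskXCont.main
    TaskXSep.main
theorem tX : TaskX :=
  TaskX.main tXTop (Pool.Agent.Q222.JD.XId.main tMecke) TaskXCmp.main TaskXEq.main

theorem all (α : ℝ≥0) (β : ℝ) (D : Measure ℝ) (hα : 0 < α) (hβ : 0 < β)
    (hD : IsProbabilityMeasure D) (hsymm : D.map (fun x => -x) = D)
    (hsq : ∫⁻ x, ENNReal.ofReal (x ^ 2) ∂D < ∞) :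
    ∃ π : Measure (ℝ × ℝ), Cls π ∧ ∫⁻ z, ENNReal.ofReal (z.2 * z.1 ^ 2) ∂π < ∞ ∧
      Phi α β 1 D π = π ∧ ∀ π' : Measure (ℝ × ℝ), Cls π' → Phi α β 1 D π' = π' → π' = π :=
  final tX tUniq tExist tMarg tM1 TaskQfin.main α β D hα hβ hD hsymm hsq

end Pool.Agent.Q222.JD
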