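import Pool.Agent.Q222.JD.Stmts2

/-!
# MP_75c26c_pr: assembly
-/

set_option autoImplicit false

open MeasureTheory ProbabilityTheory Filter Topology
open scoped ENNReal NNReal

namespace Pool.Agent.Q222.JD

/-- The class of laws. -/
structure Cls (π : Measure (ℝ × ℝ)) : Prop where
  p1 : IsProbabilityMeasure π
  I : ∀ᵐ z ∂π, 0 ≤ z.2 ∧ z.2 ≤ 1
  sq : ∫⁻ z, ENNReal.ofReal ((z.1 * z.2) ^ 2) ∂π < ∞

theorem H_eq (π : Measure (ℝ × ℝ)) :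
    H π = ∫⁻ z, ENNReal.ofReal ((z.1 * z.2) ^ 2) ∂π := by
  unfold H
  refine lintegral_congr fun z => ?_
  rw [mul_comm]

theorem ae_snd {π : Measure (ℝ × ℝ)} {μ : Measure ℝ} (h : π.map Prod.snd = μ) :
    (∀ᵐ z ∂π, 0 ≤ z.2 ∧ z.2 ≤ 1) ↔ ∀ᵐ x ∂μ, 0 ≤ x ∧ x ≤ 1 := by
  rw [← h, ae_map_iff measurable_snd.aemeasurable]
  have h1 : MeasurableSet {x : ℝ | 0 ≤ x ∧ x ≤ 1} := by
    have : {x : ℝ | 0 ≤ x ∧ x ≤ 1} = Set.Icc 0 1 := rfl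
    rw [this]; exact measurableSet_Icc
  exact h1

theorem final (hX : TaskX) (hU : TaskUniq) (hE : TaskExist) (hM : TaskMarg) (h1 : TaskM1)
    (hQ : TaskQfin) (α : ℝ≥0) (β : ℝ) (D : Measure ℝ) (hα : 0 < α) (hβ : 0 < β)
    (hD : IsProbabilityMeasure D) (hsymm : D.map (fun x => -x) = D)
    (hsq : ∫⁻ x, ENNReal.ofReal (x ^ 2) ∂D < ∞) :
    ∃ π : Measure (ℝ × ℝ), Cls π ∧ ∫⁻ z, ENNReal.ofReal (z.2 * z.1 ^ 2) ∂π < ∞ ∧
      Phi α β 1 D π = π ∧ ∀ π' : Measure (ℝ × ℝ), Cls π' → Phi α β 1 D π' = π' → π' = π := by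
  obtain ⟨μ, ⟨hμ1, hμ2⟩, hμ3⟩ := hX α β D hβ hD
  have hS : Std α β D μ := ⟨hα, hβ, hD, hsymm, hsq, hμ1.p1, hμ1.I, hμ2⟩
  obtain ⟨π, hA, hH, hfix⟩ := hE α β D μ hS
  refine ⟨π, ⟨hA.p1, (ae_snd hA.snd).2 hμ1.I, by rw [← H_eq]; exact hH⟩, ?_, hfix, ?_⟩
  · have e1 := h1 α β 1 D μ π hS hA
    rw [hfix] at e1
    obtain ⟨K, hK⟩ := hQ α β D μ hS
    show F π < ∞
    rw [e1]
    refine ENNReal.add_lt_top.2 ⟨ENNReal.mul_lt_top ENNReal.ofReal_lt_top ?_,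
      (hK π hA).trans_lt (ENNReal.mul_lt_top ENNReal.coe_lt_top hH)⟩
    have := hμ1.p1
    calc ∫⁻ x, ENNReal.ofReal x ∂μ ≤ ∫⁻ _, 1 ∂μ := by
          refine lintegral_mono_ae ?_
          filter_upwards [hμ1.I] with x hx
          rw [← ENNReal.ofReal_one]
          exact ENNReal.ofReal_le_ofReal hx.2
      _ = 1 := by simp
      _ < ∞ := ENNReal.one_lt_top
  · intro π' hC hfix'
    have hp := hC.p1
    set μ' := π'.map Prod.snd with hμ'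
    have hL : Law01 μ' :=
      ⟨Measure.isProbabilityMeasure_map measurable_snd.aemeasurable, (ae_snd rfl).1 hC.I⟩
    have h2 := (hM α β 1 D π' hD hC.p1).2
    rw [hfix'] at h2
    have h3 : μ' = μ := hμ3 μ' ⟨hL, h2.symm⟩
    exact hU α β D μ π' π hS ⟨hC.p1, by rw [← h3]⟩ hA (by rw [H_eq]; exact hC.sq) hH hfix' hfix

end Pool.Agent.Q222.JD
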