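import Pool.Agent.Q222.JD.Stmts

set_option autoImplicit false

/-! MP_75c26c_pr, blueprint of helper222: TaskMeas and TaskMarg (helper190). -/

open MeasureTheory ProbabilityTheory Filter Topology
open scoped ENNReal NNReal

namespace Pool.Agent.Q222.JD.Marg190

open Pool.Agent.Q222.JD

lemma measC (β : ℝ) : Measurable (C β) := by
  unfold C W; fun_prop

lemma measT (β : ℝ) : Measurable (T β) := by
  unfold T W; fun_prop

lemma measSum {Z : Type} [MeasurableSpace Z] {G : Z → ℝ} (hG : Measurable G) :
    Measurable fun z : (ℕ → Z) × ℕ => ∑ k ∈ Finset.range z.2, G (z.1 k) := by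
  refine measurable_from_prod_countable_left fun r => ?_
  exact Finset.measurable_sum (Finset.range r) (f := fun k (x : ℕ → Z) => G (x k)) fun k _ =>
    hG.comp (measurable_pi_apply k)

lemma measOut (β s : ℝ) : Measurable (out β s) := by
  unfold out
  exact (measurable_const.sub (measSum (measC β))).prodMk
    (measurable_const.div (measurable_const.add (measSum (measT β))))

lemma seqMap {Z Z' : Type} [MeasurableSpace Z] [MeasurableSpace Z'] (l : ℝ≥0) (ν : Measure Z)
    [IsProbabilityMeasure ν] (φ : Z → Z') (hφ : Measurable φ) :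
    (seq l ν).map (Prod.map (fun ω k => φ (ω k)) id) = seq l (ν.map φ) := by
  have h1 : (Measure.infinitePi fun _ : ℕ => ν).map (fun ω k => φ (ω k)) =
      Measure.infinitePi fun _ : ℕ => ν.map φ :=
    Measure.infinitePi_map_pi (μ := fun _ : ℕ => ν) (f := fun _ => φ) (fun _ => hφ)
  unfold seq
  haveI : IsProbabilityMeasure (ν.map φ) := Measure.isProbabilityMeasure_map hφ.aemeasurable
  rw [← h1, ← Measure.map_prod_map _ _ (by fun_prop) measurable_id, Measure.map_id]

theorem meas : Pool.Agent.Q222.JD.TaskMeas := measOut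

theorem main : Pool.Agent.Q222.JD.TaskMarg := by
  intro α β s D π hD hπ
  haveI := hD
  haveI := hπ
  haveI i0 : IsProbabilityMeasure (ing D π) := by unfold ing; infer_instance
  haveI i1 : IsProbabilityMeasure (seq (2 * α) (ing D π)) := by unfold seq; infer_instance
  refine ⟨Measure.isProbabilityMeasure_map (measOut β s).aemeasurable, ?_⟩
  have hφ : Measurable fun y : Y => (y.1.2, y.2) := by fun_prop
  have hing : (ing D π).map (fun y : Y => (y.1.2, y.2)) = (π.map Prod.snd).prod (D.prod D) := by
    unfold ing
    have h := Measure.map_prod_map π (D.prod D) (f := Prod.snd) (g := id) measurable_snd measurable_id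
    rw [Measure.map_id] at h
    rw [h]
    rfl
  unfold Phi XMap
  rw [← hing, ← seqMap _ _ _ hφ, Measure.map_map measurable_snd (measOut β s), Measure.map_map _ (by fun_prop)]
  · rfl
  · exact measurable_const.div (measurable_const.add (measSum
      (G := fun y : ℝ × (ℝ × ℝ) => 2 * β * y.2.2 ^ 2 / (1 + 2 * β * y.2.1 ^ 2 * y.1)) (by fun_prop)))

end Pool.Agent.Q222.JD.Marg190
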