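import Mathlib

/-!
# MP_75c26c_pr: crowd blueprint (statements)

`y = ((u, x), (ξ, ζ))` is one ingredient, `W = 1 + 2βξ²x`, `C = 2βξζux/W`, `T = 2βζ²/W`.
`Phi s π` is the law of `(s - ∑ C, 1/(1 + ∑ T))`, sums over a Poisson(2α) number of independent
ingredients with law `π ⊗ D ⊗ D`; `s = 1` is the map of the problem, `s = 0` the homogeneous map
(for differences of two solutions).

Proof in one paragraph. With `a = 2βξ²x` (child) and `b = 2βζ²x'` (`x'` an independent copy of the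
law `μ` of `X`), `H π = E (xu)²`, the Mecke formula for Poisson sums and the symmetry of `D` give
E x u² (Phi s π) = s² E x + Q(w1)(π)  and
E x u² (Phi s π) = E x²u²(1 + ∑ T) = H(Phi s π) + Q(w2)(Phi s π) + Q(w3)(π),
`w1 = ab/((1+a)(1+a+b))`, `w2 = a(1+b)/(1+a+b)²`, `w3 = ab²/((1+a)(1+a+b)²)`. As
`w1 - w3 = g := ab/(1+a+b)² <= w2`: `H(Phi s π) + Q(g)(Phi s π) <= s² + Q(g)(π)`. For `s = 0` this
telescopes: the iterates of the homogeneous map have `∑ H < ∞`, hence uniqueness (couplings). For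
`s = 1`: `H <= 2` infinitely often along the iterates of `δ_0 ⊗ μ`, so a subsequence converges
weakly (Prokhorov), consecutive iterates are asymptotically equal, the limit is a fixed point.
-/

set_option autoImplicit false

open MeasureTheory ProbabilityTheory Filter Topology
open scoped ENNReal NNReal

namespace Pool.Agent.Q222.JD

/-- One ingredient `((u, x), (ξ, ζ))`. -/
abbrev Y := (ℝ × ℝ) × (ℝ × ℝ)

noncomputable def W (β : ℝ) (y : Y) : ℝ := 1 + 2 * β * y.2.1 ^ 2 * y.1.2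
noncomputable def C (β : ℝ) (y : Y) : ℝ := 2 * β * (y.2.1 * y.2.2 * y.1.1 * y.1.2) / W β y
noncomputable def T (β : ℝ) (y : Y) : ℝ := 2 * β * y.2.2 ^ 2 / W β y

/-- The law of one ingredient. -/
noncomputable def ing (D : Measure ℝ) (π : Measure (ℝ × ℝ)) : Measure Y := π.prod (D.prod D)

/-- A sequence of independent copies and an independent Poisson number. -/
noncomputable def seq {Z : Type} [MeasurableSpace Z] (l : ℝ≥0) (ν : Measure Z) :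
    Measure ((ℕ → Z) × ℕ) :=
  (Measure.infinitePi fun _ : ℕ => ν).prod (poissonMeasure l)

noncomputable def out (β s : ℝ) (z : (ℕ → Y) × ℕ) : ℝ × ℝ :=
  (s - ∑ k ∈ Finset.range z.2, C β (z.1 k), 1 / (1 + ∑ k ∈ Finset.range z.2, T β (z.1 k)))

/-- The map `Φ` (for `s = 1`). -/
noncomputable def Phi (α : ℝ≥0) (β s : ℝ) (D : Measure ℝ) (π : Measure (ℝ × ℝ)) :
    Measure (ℝ × ℝ) := (seq (2 * α) (ing D π)).map (out β s)

/-- The map for the law of `X` alone; one ingredient is `(x, (ξ, ζ))`. -/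
noncomputable def XMap (α : ℝ≥0) (β : ℝ) (D μ : Measure ℝ) : Measure ℝ :=
  (seq (2 * α) (μ.prod (D.prod D))).map fun z =>
    1 / (1 + ∑ k ∈ Finset.range z.2, 2 * β * (z.1 k).2.2 ^ 2 / (1 + 2 * β * (z.1 k).2.1 ^ 2 * (z.1 k).1))

/-- Standing assumptions; `μ` is a fixed point of the map for the law of `X`. -/
structure Std (α : ℝ≥0) (β : ℝ) (D μ : Measure ℝ) : Prop where
  α0 : 0 < α
  β0 : 0 < β
  D1 : IsProbabilityMeasure D
  Dsymm : D.map (fun x => -x) = D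
  D2 : ∫⁻ x, ENNReal.ofReal (x ^ 2) ∂D < ∞
  μ1 : IsProbabilityMeasure μ
  μI : ∀ᵐ x ∂μ, 0 ≤ x ∧ x ≤ 1
  μfix : XMap α β D μ = μ

/-- `π` is a probability law whose second marginal is `μ`. -/
structure Adm (μ : Measure ℝ) (π : Measure (ℝ × ℝ)) : Prop where
  p1 : IsProbabilityMeasure π
  snd : π.map Prod.snd = μ

noncomputable def H (π : Measure (ℝ × ℝ)) : ℝ≥0∞ := ∫⁻ z, ENNReal.ofReal ((z.2 * z.1) ^ 2) ∂π
noncomputable def F (π : Measure (ℝ × ℝ)) : ℝ≥0∞ := ∫⁻ z, ENNReal.ofReal (z.2 * z.1 ^ 2) ∂π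

/-- `2α E w(a, b) x u²` with `a = 2βξ²x`, `b = 2βζ²x'`, `x'` of law `μ`. -/
noncomputable def Q (α : ℝ≥0) (β : ℝ) (D μ : Measure ℝ) (w : ℝ → ℝ → ℝ) (π : Measure (ℝ × ℝ)) :
    ℝ≥0∞ :=
  ((2 * α : ℝ≥0) : ℝ≥0∞) * ∫⁻ z, ∫⁻ ξ, ∫⁻ ζ, ∫⁻ x', ENNReal.ofReal
    (w (2 * β * ξ ^ 2 * z.2) (2 * β * ζ ^ 2 * x') * (z.2 * z.1 ^ 2)) ∂μ ∂D ∂D ∂π

noncomputable def w1 (a b : ℝ) : ℝ := a * b / ((1 + a) * (1 + a + b))
noncomputable def w2 (a b : ℝ) : ℝ := a * (1 + b) / (1 + a + b) ^ 2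
noncomputable def w3 (a b : ℝ) : ℝ := a * b ^ 2 / ((1 + a) * (1 + a + b) ^ 2)
noncomputable def g (a b : ℝ) : ℝ := a * b / (1 + a + b) ^ 2

/-! ## General probability -/

/-- Exchangeability for `r + 1` summands. Hint: for each `k ≤ r` the law of
`(ω k, ∑_{j ≤ r} G (ω j))` is that of `(y, G y + ∑_{j<r} G (ω j))` (reindex the coordinates so
that `k` is removed: a measure preserving map of `infinitePi`, or pass to `Fin (r+1)` products and
`MeasureTheory.measurePreserving_piFinSuccAbove`). -/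
def TaskMeckeFix : Prop := ∀ (Z : Type) [MeasurableSpace Z] (ν : Measure Z)
  [IsProbabilityMeasure ν] (G : Z → ℝ × ℝ), Measurable G → ∀ f : Z → ℝ × ℝ → ℝ≥0∞,
  Measurable (Function.uncurry f) → ∀ r : ℕ,
  ∫⁻ ω, ∑ k ∈ Finset.range (r + 1), f (ω k) (∑ j ∈ Finset.range (r + 1), G (ω j))
      ∂(Measure.infinitePi fun _ : ℕ => ν) =
    (r + 1 : ℕ) * ∫⁻ y, ∫⁻ ω, f y (G y + ∑ j ∈ Finset.range r, G (ω j))
      ∂(Measure.infinitePi fun _ : ℕ => ν) ∂ν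

/-- Mecke formula. Hint: `lintegral_prod`, integral over the Poisson law as a `tsum`
(`poissonMeasure`), `(r+1) p(r+1) = l p(r)`, TaskMeckeFix. -/
def TaskMecke : Prop := ∀ (Z : Type) [MeasurableSpace Z] (ν : Measure Z)
  [IsProbabilityMeasure ν] (l : ℝ≥0) (G : Z → ℝ × ℝ), Measurable G → ∀ f : Z → ℝ × ℝ → ℝ≥0∞,
  Measurable (Function.uncurry f) →
  ∫⁻ z, ∑ k ∈ Finset.range z.2, f (z.1 k) (∑ j ∈ Finset.range z.2, G (z.1 j)) ∂(seq l ν) =
    (l : ℝ≥0∞) * ∫⁻ y, ∫⁻ z, f y (G y + ∑ j ∈ Finset.range z.2, G (z.1 j)) ∂(seq l ν) ∂ν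

/-- Changing one coordinate by a measure preserving map preserves the infinite product. -/
def TaskUpd : Prop := ∀ (Z : Type) [MeasurableSpace Z] (ν : Measure Z)
  [IsProbabilityMeasure ν] (σ : Z → Z), Measurable σ → ν.map σ = ν → ∀ r : ℕ,
  (Measure.infinitePi fun _ : ℕ => ν).map (fun ω => Function.update ω r (σ (ω r))) =
    Measure.infinitePi fun _ : ℕ => ν

/-- Sign flips: the cross terms of the square cancel. Hint: induction on `r`; flip coordinate `r`,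
`(A - c)² + (A + c)² = 2 (A² + c²)`. -/
def TaskFlip : Prop := ∀ (Z : Type) [MeasurableSpace Z] (ν : Measure Z)
  [IsProbabilityMeasure ν] (σ : Z → Z) (c : Z → ℝ), Measurable σ → ν.map σ = ν → Measurable c →
  (∀ z, c (σ z) = -c z) → ∀ v : (ℕ → Z) → ℝ≥0∞, Measurable v →
  (∀ ω r, v (Function.update ω r (σ (ω r))) = v ω) → ∀ (s : ℝ) (r : ℕ),
  ∫⁻ ω, v ω * ENNReal.ofReal ((s - ∑ k ∈ Finset.range r, c (ω k)) ^ 2)
      ∂(Measure.infinitePi fun _ : ℕ => ν) =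
    ∫⁻ ω, v ω * (ENNReal.ofReal (s ^ 2) + ∑ k ∈ Finset.range r, ENNReal.ofReal (c (ω k) ^ 2))
      ∂(Measure.infinitePi fun _ : ℕ => ν)

/-- A coupling of two laws with the same second marginal (conditional independence given `x`;
`Measure.condKernel`, standard Borel). -/
def TaskCouple : Prop := ∀ (π1 π2 : Measure (ℝ × ℝ)), IsProbabilityMeasure π1 →
  IsProbabilityMeasure π2 → π1.map Prod.snd = π2.map Prod.snd →
  ∃ κ : Measure ((ℝ × ℝ) × ℝ), IsProbabilityMeasure κ ∧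
    κ.map (fun z => (z.1.1, z.2)) = π1 ∧ κ.map (fun z => (z.1.2, z.2)) = π2

/-! ## The maps -/

/-- `out` is measurable. -/
def TaskMeas : Prop := ∀ β s : ℝ, Measurable (out β s)

/-- `Phi` of a probability law is a probability law, its second marginal is `XMap`. Hint for the
second part: `infinitePi_map` (`Measure.infinitePi_map_pi`) for the map `((u,x),e) ↦ (x,e)`. -/
def TaskMarg : Prop := ∀ (α : ℝ≥0) (β s : ℝ) (D : Measure ℝ) (π : Measure (ℝ × ℝ)),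
  IsProbabilityMeasure D → IsProbabilityMeasure π → IsProbabilityMeasure (Phi α β s D π) ∧
    (Phi α β s D π).map Prod.snd = XMap α β D (π.map Prod.snd)

/-- The fixed law of `X` has no mass at `0`. Hint: `μ = XMap μ` is the law of `1/(1 + ∑ T)` and
`T ≥ 0` almost surely. -/
def TaskPos : Prop := ∀ (α : ℝ≥0) (β : ℝ) (D μ : Measure ℝ), Std α β D μ → ∀ᵐ x ∂μ, 0 < x

/-- First evaluation of `E x u²`. TaskFlip (`σ` changes the sign of `ξ`), TaskMecke, and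
`1/(1 + T + S) = x'(1+a)/(1+a+b)` with `x' = 1/(1+S)` of law `μ` (TaskMarg). -/
def TaskM1 : Prop := ∀ (α : ℝ≥0) (β s : ℝ) (D μ : Measure ℝ) (π : Measure (ℝ × ℝ)),
  Std α β D μ → Adm μ π → F (Phi α β s D π) =
    ENNReal.ofReal (s ^ 2) * ∫⁻ x, ENNReal.ofReal x ∂μ + Q α β D μ w1 π

/-- Second evaluation, raw form: `x u² = x²u² (1 + ∑ T)`, TaskMecke for `∑ T`, one flip of the
sign of the marked ingredient; `(u', x')` has the law `Phi π`. -/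
def TaskM2raw : Prop := ∀ (α : ℝ≥0) (β s : ℝ) (D μ : Measure ℝ) (π : Measure (ℝ × ℝ)),
  Std α β D μ → Adm μ π → F (Phi α β s D π) = H (Phi α β s D π) +
    ((2 * α : ℝ≥0) : ℝ≥0∞) * ∫⁻ y, ∫⁻ z, ENNReal.ofReal (T β y * (z.2 / (1 + z.2 * T β y)) ^ 2 *
      (z.1 ^ 2 + C β y ^ 2)) ∂(Phi α β s D π) ∂(ing D π)

/-- From the raw form to `Q`: pure algebra and Fubini (`T x' = b/(1+a)`; in the first term the
letters `(ξ, x)` and `(ζ, x')` are exchanged). -/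
def TaskM2alg : Prop := ∀ (α : ℝ≥0) (β : ℝ) (D μ : Measure ℝ) (π π' : Measure (ℝ × ℝ)),
  Std α β D μ → Adm μ π → Adm μ π' →
    ((2 * α : ℝ≥0) : ℝ≥0∞) * ∫⁻ y, ∫⁻ z, ENNReal.ofReal (T β y * (z.2 / (1 + z.2 * T β y)) ^ 2 *
      (z.1 ^ 2 + C β y ^ 2)) ∂π' ∂(ing D π) = Q α β D μ w2 π' + Q α β D μ w3 π

/-- Pointwise `w1 = w3 + g`, `g ≤ w2` for `a, b ≥ 0`. -/
def TaskQalg : Prop := ∀ (α : ℝ≥0) (β : ℝ) (D μ : Measure ℝ) (π : Measure (ℝ × ℝ)),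
  Std α β D μ → Adm μ π →
    Q α β D μ w1 π = Q α β D μ w3 π + Q α β D μ g π ∧ Q α β D μ g π ≤ Q α β D μ w2 π

/-- `w1 ≤ ab` and finite second moments. -/
def TaskQfin : Prop := ∀ (α : ℝ≥0) (β : ℝ) (D μ : Measure ℝ), Std α β D μ →
  ∃ K : ℝ≥0, ∀ π : Measure (ℝ × ℝ), Adm μ π → Q α β D μ w1 π ≤ K * H π

/-- The energy inequality. -/
def TaskE : Prop := ∀ (α : ℝ≥0) (β s : ℝ) (D μ : Measure ℝ) (π : Measure (ℝ × ℝ)),
  Std α β D μ → Adm μ π → H π < ∞ → Adm μ (Phi α β s D π) ∧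
    H (Phi α β s D π) + Q α β D μ g (Phi α β s D π) ≤ ENNReal.ofReal (s ^ 2) + Q α β D μ g π ∧
    Q α β D μ g π < ∞ ∧ H (Phi α β s D π) < ∞

/-! ## Couplings -/

/-- The map for couplings: one ingredient is `(((u1, u2), x), (ξ, ζ))`. -/
noncomputable def out2 (β s : ℝ) (z : (ℕ → ((ℝ × ℝ) × ℝ) × (ℝ × ℝ)) × ℕ) : (ℝ × ℝ) × ℝ :=
  ((s - ∑ k ∈ Finset.range z.2, C β (((z.1 k).1.1.1, (z.1 k).1.2), (z.1 k).2),
    s - ∑ k ∈ Finset.range z.2, C β (((z.1 k).1.1.2, (z.1 k).1.2), (z.1 k).2)),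
    1 / (1 + ∑ k ∈ Finset.range z.2, T β (((z.1 k).1.1.1, (z.1 k).1.2), (z.1 k).2)))

noncomputable def Phi2 (α : ℝ≥0) (β s : ℝ) (D : Measure ℝ) (κ : Measure ((ℝ × ℝ) × ℝ)) :
    Measure ((ℝ × ℝ) × ℝ) := (seq (2 * α) (κ.prod (D.prod D))).map (out2 β s)

/-- The linear image `(p u1 + q u2, x)`. -/
def lin (p q : ℝ) (z : (ℝ × ℝ) × ℝ) : ℝ × ℝ := (p * z.1.1 + q * z.1.2, z.2)

/-- Linear images of the coupled map. -/
def TaskLin : Prop := ∀ (α : ℝ≥0) (β s p q : ℝ) (D : Measure ℝ) (κ : Measure ((ℝ × ℝ) × ℝ)),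
  IsProbabilityMeasure D → IsProbabilityMeasure κ → IsProbabilityMeasure (Phi2 α β s D κ) ∧
    (Phi2 α β s D κ).map (lin p q) = Phi α β (p * s + q * s) D (κ.map (lin p q))

/-- The homogeneous iterates: `∑ H < ∞`, so `H → 0`. -/
def TaskIter0 : Prop := ∀ (α : ℝ≥0) (β : ℝ) (D μ : Measure ℝ) (π : Measure (ℝ × ℝ)),
  Std α β D μ → Adm μ π → H π < ∞ →
    Tendsto (fun n : ℕ => H ((Phi α β 0 D)^[n] π)) atTop (𝓝 0)

/-- Two laws `π1`, `π2` with second marginal `μ` and `H` of a coupling finite: along the iterates of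
`Phi2` the laws of the difference tend to zero. -/
def TaskIter2 : Prop := ∀ (α : ℝ≥0) (β : ℝ) (D μ : Measure ℝ) (κ : Measure ((ℝ × ℝ) × ℝ)),
  Std α β D μ → IsProbabilityMeasure κ → κ.map Prod.snd = μ → H (κ.map (lin 1 (-1))) < ∞ →
    (∀ n : ℕ, IsProbabilityMeasure ((Phi2 α β 1 D)^[n] κ) ∧
      ((Phi2 α β 1 D)^[n] κ).map (lin 1 0) = (Phi α β 1 D)^[n] (κ.map (lin 1 0)) ∧
      ((Phi2 α β 1 D)^[n] κ).map (lin 0 1) = (Phi α β 1 D)^[n] (κ.map (lin 0 1))) ∧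
    Tendsto (fun n : ℕ => H (((Phi2 α β 1 D)^[n] κ).map (lin 1 (-1)))) atTop (𝓝 0)

/-- Couplings with small difference: the weak limits agree. `x > 0` almost surely, bounded
Lipschitz test functions of `(xu, x)`; recover `u` by tightness of `1/x`. -/
def TaskLimit : Prop := ∀ (μ : Measure ℝ) (κ : ℕ → Measure ((ℝ × ℝ) × ℝ)), IsProbabilityMeasure μ →
  (∀ᵐ x ∂μ, 0 < x) → (∀ n, IsProbabilityMeasure (κ n)) → (∀ n, (κ n).map Prod.snd = μ) →
  Tendsto (fun n => H ((κ n).map (lin 1 (-1)))) atTop (𝓝 0) →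
  ∀ f : BoundedContinuousFunction (ℝ × ℝ) ℝ, (∃ K : ℝ≥0, LipschitzWith K f) →
    Tendsto (fun n => ∫ z, f z ∂((κ n).map (lin 1 0)) - ∫ z, f z ∂((κ n).map (lin 0 1))) atTop (𝓝 0)

/-- `(u1 - u2)² <= 2 u1² + 2 u2²`. -/
def TaskHd : Prop := ∀ κ : Measure ((ℝ × ℝ) × ℝ),
  H (κ.map (lin 1 (-1))) ≤ 2 * (H (κ.map (lin 1 0)) + H (κ.map (lin 0 1)))

/-- Bounded Lipschitz functions separate probability laws on the plane (thickened indicators of
closed sets, `thickenedIndicator`). -/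
def TaskSep : Prop := ∀ (π1 π2 : Measure (ℝ × ℝ)), IsProbabilityMeasure π1 →
  IsProbabilityMeasure π2 → (∀ f : BoundedContinuousFunction (ℝ × ℝ) ℝ,
    (∃ K : ℝ≥0, LipschitzWith K f) → ∫ z, f z ∂π1 = ∫ z, f z ∂π2) → π1 = π2

/-- Uniqueness: `TaskCouple`, `TaskIter2`, `TaskLimit`, `TaskPos`; for fixed points the marginals of
the iterated couplings are constant, and Lipschitz functions separate laws. -/
def TaskUniq : Prop := ∀ (α : ℝ≥0) (β : ℝ) (D μ : Measure ℝ) (π1 π2 : Measure (ℝ × ℝ)),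
  Std α β D μ → Adm μ π1 → Adm μ π2 → H π1 < ∞ → H π2 < ∞ → Phi α β 1 D π1 = π1 →
    Phi α β 1 D π2 = π2 → π1 = π2

/-! ## Existence -/

/-- Along the iterates of `δ_0 ⊗ μ`, `H ≤ 2` infinitely often (sum TaskE with `s = 1`). -/
def TaskInf : Prop := ∀ (α : ℝ≥0) (β : ℝ) (D μ : Measure ℝ), Std α β D μ →
  (∀ n : ℕ, Adm μ ((Phi α β 1 D)^[n] ((Measure.dirac (0 : ℝ)).prod μ)) ∧
    H ((Phi α β 1 D)^[n] ((Measure.dirac (0 : ℝ)).prod μ)) < ∞) ∧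
  ∀ M : ℕ, ∃ n, M ≤ n ∧ H ((Phi α β 1 D)^[n] ((Measure.dirac (0 : ℝ)).prod μ)) ≤ 2

/-- Tightness: `|u| ≤ A/δ` unless `|xu| > A` or `x < δ`. -/
def TaskTight : Prop := ∀ μ : Measure ℝ, IsProbabilityMeasure μ → (∀ᵐ x ∂μ, 0 < x ∧ x ≤ 1) →
  IsTightMeasureSet {π : Measure (ℝ × ℝ) | Adm μ π ∧ H π ≤ 2}

/-- `H` is lower semicontinuous. -/
def TaskFatou : Prop := ∀ (π : ℕ → ProbabilityMeasure (ℝ × ℝ)) (π0 : ProbabilityMeasure (ℝ × ℝ)),
  Tendsto π atTop (𝓝 π0) → (∀ n, H (π n : Measure (ℝ × ℝ)) ≤ 2) → H (π0 : Measure (ℝ × ℝ)) ≤ 2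

/-- The second marginal passes to the limit. -/
def TaskSndLim : Prop := ∀ (μ : Measure ℝ) (π : ℕ → ProbabilityMeasure (ℝ × ℝ))
  (π0 : ProbabilityMeasure (ℝ × ℝ)), Tendsto π atTop (𝓝 π0) →
  (∀ n, (π n : Measure (ℝ × ℝ)).map Prod.snd = μ) → (π0 : Measure (ℝ × ℝ)).map Prod.snd = μ

/-- `Phi` is weakly continuous on laws with `x ≥ 0`. Hint: for `x ≥ 0` replace `x` by `max x 0`
(then `out` is continuous for each fixed `r`), `MeasureTheory.ProbabilityMeasure.continuous_pi` on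
`Fin r → Y`, then dominated convergence for the Poisson sum. -/
def TaskCont : Prop := ∀ (α : ℝ≥0) (β : ℝ) (D : Measure ℝ), 0 < β → IsProbabilityMeasure D →
  ∀ (π : ℕ → ProbabilityMeasure (ℝ × ℝ)) (π0 : ProbabilityMeasure (ℝ × ℝ)),
  (∀ n, ∀ᵐ z ∂(π n : Measure (ℝ × ℝ)), 0 ≤ z.2) → (∀ᵐ z ∂(π0 : Measure (ℝ × ℝ)), 0 ≤ z.2) →
  Tendsto π atTop (𝓝 π0) → ∀ f : BoundedContinuousFunction (ℝ × ℝ) ℝ,
  Tendsto (fun n => ∫ z, f z ∂(Phi α β 1 D (π n : Measure (ℝ × ℝ)))) atTop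
    (𝓝 (∫ z, f z ∂(Phi α β 1 D (π0 : Measure (ℝ × ℝ)))))

/-- Existence: Prokhorov (`isCompact_closure_of_isTightMeasureSet`) along the times of TaskInf. -/
def TaskExist : Prop := ∀ (α : ℝ≥0) (β : ℝ) (D μ : Measure ℝ), Std α β D μ →
  ∃ π : Measure (ℝ × ℝ), Adm μ π ∧ H π < ∞ ∧ Phi α β 1 D π = π

end Pool.Agent.Q222.JD
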