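import Pool.Agent.Q222.JD.Stmts

/-!
# MP_75c26c_pr: crowd blueprint, part 2: the law of `X` alone (existence and uniqueness)

For a fixed point `μ` of `XMap`: `1 = E X (1 + ∑ T) = E X + 2α E b/(1+a+b)`, and by symmetry
`2 E b/(1+a+b) = 1 - E 1/(1+a+b)`; so `E X = 1 - α + α E 1/(1+a+b)`. `XMap` is increasing for the
stochastic order; the iterates of `δ_1` decrease to a fixed point `μ⁺` above every fixed point `μ`;
then `E_μ X <= E_μ⁺ X`, but `E 1/(1+a+b)` is decreasing in the law, so the means agree, `μ = μ⁺`.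
-/

set_option autoImplicit false

open MeasureTheory ProbabilityTheory Filter Topology
open scoped ENNReal NNReal

namespace Pool.Agent.Q222.JD

/-- Laws on `[0, 1]`. -/
structure Law01 (μ : Measure ℝ) : Prop where
  p1 : IsProbabilityMeasure μ
  I : ∀ᵐ x ∂μ, 0 ≤ x ∧ x ≤ 1

/-- Stochastic order, through bounded continuous monotone functions. -/
def LeM (μ ν : Measure ℝ) : Prop :=
  ∀ f : BoundedContinuousFunction ℝ ℝ, Monotone f → ∫ x, f x ∂μ ≤ ∫ x, f x ∂ν

/-- `XMap` preserves laws on `[0,1]`. -/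
def TaskXLaw : Prop := ∀ (α : ℝ≥0) (β : ℝ) (D μ : Measure ℝ), 0 < β → IsProbabilityMeasure D →
  Law01 μ → Law01 (XMap α β D μ)

/-- One summand at a time: for every `r` and every bounded continuous monotone function the integral
over the product of laws is monotone in each factor. Hint: `x ↦ 1/(1 + S + c/(1 + d max(x,0)))`
is continuous and monotone for `S, c, d ≥ 0`; replace the laws of the coordinates one by one
(induction on `r`, Fubini), then sum with the Poisson weights. -/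
def TaskXMono : Prop := ∀ (α : ℝ≥0) (β : ℝ) (D μ ν : Measure ℝ), 0 < β → IsProbabilityMeasure D →
  Law01 μ → Law01 ν → LeM μ ν → LeM (XMap α β D μ) (XMap α β D ν)

/-- Weak continuity of `XMap` on laws on `[0,1]` (as TaskCont). -/
def TaskXCont : Prop := ∀ (α : ℝ≥0) (β : ℝ) (D : Measure ℝ), 0 < β → IsProbabilityMeasure D →
  ∀ (μ : ℕ → ProbabilityMeasure ℝ) (μ0 : ProbabilityMeasure ℝ),
  (∀ n, Law01 (μ n : Measure ℝ)) → Law01 (μ0 : Measure ℝ) →
  Tendsto μ atTop (𝓝 μ0) → ∀ f : BoundedContinuousFunction ℝ ℝ,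
  Tendsto (fun n => ∫ z, f z ∂(XMap α β D (μ n : Measure ℝ))) atTop
    (𝓝 (∫ z, f z ∂(XMap α β D (μ0 : Measure ℝ))))

/-- Monotone bounded continuous functions separate laws (distribution functions). -/
def TaskXSep : Prop := ∀ μ ν : Measure ℝ, IsProbabilityMeasure μ → IsProbabilityMeasure ν →
  LeM μ ν → LeM ν μ → μ = ν

/-- A sequence of laws on `[0,1]` decreasing in the stochastic order converges weakly to a law on
`[0,1]`. Hint: Prokhorov or compactness (`isCompact_closure_of_isTightMeasureSet`), subsequence;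
integrals of monotone functions converge along the whole sequence (TaskXSep gives uniqueness of the
limit). It is enough to have the limit along a subsequence, this is what is stated. -/
def TaskXLim : Prop := ∀ μ : ℕ → Measure ℝ, (∀ n, Law01 (μ n)) → (∀ n, LeM (μ (n + 1)) (μ n)) →
  ∃ μ0 : Measure ℝ, Law01 μ0 ∧ ∃ φ : ℕ → ℕ, StrictMono φ ∧
    (∀ f : BoundedContinuousFunction ℝ ℝ,
      Tendsto (fun k => ∫ x, f x ∂(μ (φ k))) atTop (𝓝 (∫ x, f x ∂μ0))) ∧
    ∀ f : BoundedContinuousFunction ℝ ℝ, Monotone f →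
      Tendsto (fun n => ∫ x, f x ∂(μ n)) atTop (𝓝 (∫ x, f x ∂μ0))

/-- The largest fixed point: iterates of `δ_1`, TaskXMono, TaskXLim, TaskXCont, TaskXSep. -/
def TaskXTop : Prop := ∀ (α : ℝ≥0) (β : ℝ) (D : Measure ℝ), 0 < β → IsProbabilityMeasure D →
  ∃ μ0 : Measure ℝ, Law01 μ0 ∧ XMap α β D μ0 = μ0 ∧
    ∀ μ : Measure ℝ, Law01 μ → XMap α β D μ = μ → LeM μ μ0

/-- The mean of a fixed point (TaskMecke with the function `T/(1 + T + S)`, symmetry). -/
def TaskXId : Prop := ∀ (α : ℝ≥0) (β : ℝ) (D μ : Measure ℝ), 0 < β → IsProbabilityMeasure D →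
  Law01 μ → XMap α β D μ = μ → ∫ x, x ∂μ = 1 - (α : ℝ) +
    α * ∫ x, ∫ x', ∫ ξ, ∫ ζ, 1 / (1 + 2 * β * ξ ^ 2 * x + 2 * β * ζ ^ 2 * x') ∂D ∂D ∂μ ∂μ

/-- `E 1/(1+a+b)` is decreasing in the law (one variable at a time). -/
def TaskXCmp : Prop := ∀ (β : ℝ) (D μ ν : Measure ℝ), 0 < β → IsProbabilityMeasure D →
  Law01 μ → Law01 ν → LeM μ ν →
  ∫ x, ∫ x', ∫ ξ, ∫ ζ, 1 / (1 + 2 * β * ξ ^ 2 * x + 2 * β * ζ ^ 2 * x') ∂D ∂D ∂ν ∂ν ≤
    ∫ x, ∫ x', ∫ ξ, ∫ ζ, 1 / (1 + 2 * β * ξ ^ 2 * x + 2 * β * ζ ^ 2 * x') ∂D ∂D ∂μ ∂μ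

/-- Ordered laws with the same mean agree. Hint: `f` bounded monotone and `K`-Lipschitz: then
`x ↦ K x - f x` is monotone as well (on `[0,1]`, clamp it), so `∫ f` agree; then TaskXSep or
Lipschitz functions. -/
def TaskXEq : Prop := ∀ μ ν : Measure ℝ, Law01 μ → Law01 ν → LeM μ ν →
  ∫ x, x ∂ν ≤ ∫ x, x ∂μ → μ = ν

/-- Existence and uniqueness of the law of `X`. -/
def TaskX : Prop := ∀ (α : ℝ≥0) (β : ℝ) (D : Measure ℝ), 0 < β → IsProbabilityMeasure D →
  ∃! μ : Measure ℝ, Law01 μ ∧ XMap α β D μ = μ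

end Pool.Agent.Q222.JD
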