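import Pool.Agent.Q222.JD.Stmts

set_option autoImplicit false

open MeasureTheory ProbabilityTheory Filter Topology
open scoped ENNReal NNReal

namespace Pool.Agent.Q222.JD.TaskE

open Pool.Agent.Q222.JD

theorem main (hMarg : TaskMarg) (hM1 : TaskM1) (hM2 : TaskM2raw) (hA : TaskM2alg)
    (hQ : TaskQalg) (hF : TaskQfin) : Pool.Agent.Q222.JD.TaskE := by
  intro α β s D μ π hS hπ hH
  have hD := hS.D1
  have hπ1 := hπ.p1
  have hμ1 := hS.μ1
  obtain ⟨hp1, hp2⟩ := hMarg α β s D π hD hπ1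
  have hadm : Adm μ (Phi α β s D π) := ⟨hp1, by rw [hp2, hπ.snd, hS.μfix]⟩
  obtain ⟨K, hK⟩ := hF α β D μ hS
  obtain ⟨q1, -⟩ := hQ α β D μ π hS hπ
  obtain ⟨-, q2⟩ := hQ α β D μ (Phi α β s D π) hS hadm
  have e1 := hM1 α β s D μ π hS hπ
  have e2 := hM2 α β s D μ π hS hπ
  rw [hA α β D μ π (Phi α β s D π) hS hπ hadm] at e2
  have hw1 : Q α β D μ w1 π < ∞ :=
    (hK π hπ).trans_lt (ENNReal.mul_lt_top ENNReal.coe_lt_top hH)
  have hw3 : Q α β D μ w3 π < ∞ := by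
    refine lt_of_le_of_lt ?_ hw1
    rw [q1]
    exact le_self_add
  have hg : Q α β D μ g π < ∞ := by
    refine lt_of_le_of_lt ?_ hw1
    rw [q1]
    exact le_add_self
  have hx : ∫⁻ x, ENNReal.ofReal x ∂μ ≤ 1 := by
    calc ∫⁻ x, ENNReal.ofReal x ∂μ ≤ ∫⁻ _, 1 ∂μ := by
          refine lintegral_mono_ae ?_
          filter_upwards [hS.μI] with x hx
          exact ENNReal.ofReal_le_one.2 hx.2
      _ = 1 := by simp
  have hmain : H (Phi α β s D π) + Q α β D μ g (Phi α β s D π) ≤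
      ENNReal.ofReal (s ^ 2) + Q α β D μ g π := by
    have h1 : (H (Phi α β s D π) + Q α β D μ g (Phi α β s D π)) + Q α β D μ w3 π ≤
        (ENNReal.ofReal (s ^ 2) + Q α β D μ g π) + Q α β D μ w3 π := by
      calc (H (Phi α β s D π) + Q α β D μ g (Phi α β s D π)) + Q α β D μ w3 π
          ≤ (H (Phi α β s D π) + Q α β D μ w2 (Phi α β s D π)) + Q α β D μ w3 π := by gcongr
        _ = F (Phi α β s D π) := by rw [e2, add_assoc]
        _ = ENNReal.ofReal (s ^ 2) * ∫⁻ x, ENNReal.ofReal x ∂μ + Q α β D μ w1 π := e1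
        _ ≤ ENNReal.ofReal (s ^ 2) * 1 + Q α β D μ w1 π := by gcongr
        _ = _ := by rw [mul_one, q1, add_comm (Q α β D μ w3 π), add_assoc]
    exact (ENNReal.add_le_add_iff_right hw3.ne).1 h1
  refine ⟨hadm, hmain, hg, ?_⟩
  refine lt_of_le_of_lt (le_self_add.trans hmain) ?_
  exact ENNReal.add_lt_top.2 ⟨ENNReal.ofReal_lt_top, hg⟩

end Pool.Agent.Q222.JD.TaskE
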