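import Pool.Agent.Q222.JD.Stmts
set_option autoImplicit false

open MeasureTheory ProbabilityTheory Filter Topology
open scoped ENNReal NNReal

namespace Pool.Agent.Q222.JD.TaskMargPf

open Pool.Agent.Q222.JD

theorem main (hMeas : TaskMeas) : TaskMarg := by
  intro α β s D π hD hπ
  have hing : IsProbabilityMeasure (ing D π) := by unfold ing; infer_instance
  have hseq : IsProbabilityMeasure (seq (2 * α) (ing D π)) := by unfold seq; infer_instance
  refine ⟨?_, ?_⟩
  · unfold Phi
    exact Measure.isProbabilityMeasure_map (hMeas β s).aemeasurable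
  · let φ : Y → ℝ × (ℝ × ℝ) := fun y => (y.1.2, y.2)
    have hφ : Measurable φ := by fun_prop
    let Ψ : (ℕ → Y) × ℕ → (ℕ → ℝ × (ℝ × ℝ)) × ℕ := fun z => (fun k => φ (z.1 k), z.2)
    have hΨ : Measurable Ψ := by
      refine Measurable.prodMk ?_ measurable_snd
      exact measurable_pi_lambda _ fun k => hφ.comp ((measurable_pi_apply k).comp measurable_fst)
    have h1 : (π.map Prod.snd).prod (D.prod D) = (ing D π).map φ := by
      have h := Measure.map_prod_map π (D.prod D) (f := Prod.snd) (g := id) measurable_snd measurable_id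
      rw [Measure.map_id] at h
      rw [h]; rfl
    have h2 : seq (2 * α) ((ing D π).map φ) = (seq (2 * α) (ing D π)).map Ψ := by
      have h3 : (Measure.infinitePi fun _ : ℕ => (ing D π).map φ) =
          (Measure.infinitePi fun _ : ℕ => ing D π).map (fun ω k => φ (ω k)) :=
        (Measure.infinitePi_map_pi (μ := fun _ : ℕ => ing D π) (f := fun _ => φ) (fun _ => hφ)).symm
      unfold seq
      rw [h3]
      have h := Measure.map_prod_map (Measure.infinitePi fun _ : ℕ => ing D π) (poissonMeasure (2 * α))
        (f := fun ω k => φ (ω k)) (g := id)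
        (measurable_pi_lambda _ fun k => hφ.comp (measurable_pi_apply k)) measurable_id
      rw [Measure.map_id] at h
      rw [h]; rfl
    have hm : Measurable (fun z : (ℕ → ℝ × (ℝ × ℝ)) × ℕ =>
        1 / (1 + ∑ k ∈ Finset.range z.2,
          2 * β * (z.1 k).2.2 ^ 2 / (1 + 2 * β * (z.1 k).2.1 ^ 2 * (z.1 k).1))) := by
      let E : (ℕ → ℝ × (ℝ × ℝ)) × ℕ → (ℕ → Y) × ℕ := fun z =>
        (fun k => ((0, (z.1 k).1), (z.1 k).2), z.2)
      have hE : Measurable E := by
        refine Measurable.prodMk ?_ measurable_snd
        refine measurable_pi_lambda _ fun k => ?_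
        have h5 : Measurable fun z : (ℕ → ℝ × (ℝ × ℝ)) × ℕ => z.1 k :=
          (measurable_pi_apply k).comp measurable_fst
        exact (measurable_const.prodMk h5.fst).prodMk h5.snd
      exact measurable_snd.comp ((hMeas β 0).comp hE)
    unfold Phi XMap
    rw [Measure.map_map measurable_snd (hMeas β s), h1, h2, Measure.map_map hm hΨ]
    rfl

end Pool.Agent.Q222.JD.TaskMargPf
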