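import Pool.Agent.Q222.JD.Stmts2

set_option autoImplicit false

open MeasureTheory ProbabilityTheory Filter Topology
open scoped ENNReal NNReal

namespace Pool.Agent.Q222.JD.TaskXCont

open Pool.Agent.Q222.JD

abbrev Z := ℝ × (ℝ × ℝ)

noncomputable def c (β : ℝ) (z : Z) : ℝ := 2 * β * z.2.2 ^ 2 / (1 + 2 * β * z.2.1 ^ 2 * z.1)

noncomputable def c' (β : ℝ) (z : Z) : ℝ :=
  2 * β * z.2.2 ^ 2 / (1 + 2 * β * z.2.1 ^ 2 * max z.1 0)

theorem den_pos {β : ℝ} (hβ : 0 < β) (z : Z) : 0 < 1 + 2 * β * z.2.1 ^ 2 * max z.1 0 := by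
  have : 0 ≤ 2 * β * z.2.1 ^ 2 * max z.1 0 :=
    mul_nonneg (by positivity) (le_max_right _ _)
  linarith

theorem c'_nonneg {β : ℝ} (hβ : 0 < β) (z : Z) : 0 ≤ c' β z :=
  div_nonneg (by positivity) (den_pos hβ z).le

theorem c'_cont {β : ℝ} (hβ : 0 < β) : Continuous (c' β) := by
  unfold c'
  exact Continuous.div (by fun_prop) (by fun_prop) fun z => (den_pos hβ z).ne'

theorem c_meas (β : ℝ) : Measurable (c β) := by
  unfold c
  fun_prop

theorem G_cont {β : ℝ} (hβ : 0 < β) (r : ℕ) :
    Continuous fun y : Finset.range r → Z => 1 / (1 + ∑ i, c' β (y i)) := by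
  refine Continuous.div continuous_const ?_ fun y => ?_
  · exact continuous_const.add (continuous_finsetSum _ fun i _ => (c'_cont hβ).comp (continuous_apply i))
  · have : 0 ≤ ∑ i, c' β (y i) := Finset.sum_nonneg fun i _ => c'_nonneg hβ _
    positivity

/-- the function of `r` ingredients -/
noncomputable def G (f : BoundedContinuousFunction ℝ ℝ) {β : ℝ} (hβ : 0 < β) (r : ℕ) :
    BoundedContinuousFunction (Finset.range r → Z) ℝ :=
  f.compContinuous ⟨_, G_cont hβ r⟩

theorem formula (f : BoundedContinuousFunction ℝ ℝ) (α : ℝ≥0) {β : ℝ} (hβ : 0 < β)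
    (D : Measure ℝ) [IsProbabilityMeasure D] (μ : Measure ℝ) (hμ : Law01 μ) :
    ∫ z, f z ∂(XMap α β D μ) =
      ∫ r, (∫ y, G f hβ r y ∂(Measure.pi fun _ : Finset.range r => μ.prod (D.prod D)))
        ∂(poissonMeasure (2 * α)) := by
  haveI := hμ.p1
  have hm : Measurable fun z : (ℕ → Z) × ℕ =>
      1 / (1 + ∑ k ∈ Finset.range z.2, c β (z.1 k)) := by
    refine measurable_from_prod_countable_left fun r => ?_
    have h1 : Measurable fun x : ℕ → Z => ∑ k ∈ Finset.range r, c β (x k) :=
      Finset.measurable_fun_sum _ fun k _ => (c_meas β).comp (measurable_pi_apply k)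
    exact (measurable_const).div (measurable_const.add h1)
  have e1 : XMap α β D μ = (seq (2 * α) (μ.prod (D.prod D))).map fun z : (ℕ → Z) × ℕ =>
      1 / (1 + ∑ k ∈ Finset.range z.2, c β (z.1 k)) := rfl
  rw [e1, integral_map hm.aemeasurable f.continuous.measurable.aestronglyMeasurable]
  unfold seq
  have hfm : Measurable fun z : (ℕ → Z) × ℕ =>
      f (1 / (1 + ∑ k ∈ Finset.range z.2, c β (z.1 k))) := f.continuous.measurable.comp hm
  rw [integral_prod_symm]
  · refine integral_congr_ae (Eventually.of_forall fun r => ?_)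
    simp only
    have e2 : (∫ y, G f hβ r y ∂(Measure.pi fun _ : Finset.range r => μ.prod (D.prod D))) =
        ∫ ω, G f hβ r ((Finset.range r).restrict ω)
          ∂(Measure.infinitePi fun _ : ℕ => μ.prod (D.prod D)) := by
      rw [← Measure.infinitePi_map_restrict (μ := fun _ : ℕ => μ.prod (D.prod D)) (I := Finset.range r)]
      rw [integral_map (Finset.measurable_restrict _).aemeasurable
        (G f hβ r).continuous.measurable.aestronglyMeasurable]
    rw [e2]
    refine integral_congr_ae ?_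
    have h1 : ∀ᵐ z ∂(μ.prod (D.prod D)), 0 ≤ z.1 := by
      have : ∀ᵐ x ∂((μ.prod (D.prod D)).map Prod.fst), 0 ≤ x := by
        rw [Measure.map_fst_prod, measure_univ, one_smul]
        exact hμ.I.mono fun x hx => hx.1
      exact ae_of_ae_map measurable_fst.aemeasurable this
    have h2 : ∀ᵐ ω ∂(Measure.infinitePi fun _ : ℕ => μ.prod (D.prod D)), ∀ k : ℕ, 0 ≤ (ω k).1 := by
      rw [ae_all_iff]
      intro k
      have : ∀ᵐ z ∂((Measure.infinitePi fun _ : ℕ => μ.prod (D.prod D)).map fun ω => ω k), 0 ≤ z.1 := by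
        rw [Measure.infinitePi_map_eval (fun _ : ℕ => μ.prod (D.prod D)) k]
        exact h1
      exact ae_of_ae_map (measurable_pi_apply k).aemeasurable this
    filter_upwards [h2] with ω hω
    have e3 : ∑ k ∈ Finset.range r, c β (ω k) =
        ∑ i : Finset.range r, c' β ((Finset.range r).restrict ω i) := by
      rw [← Finset.sum_coe_sort (Finset.range r) fun k => c β (ω k)]
      refine Finset.sum_congr rfl fun i _ => ?_
      show c β (ω i) = c' β (ω i)
      unfold c c'
      rw [max_eq_left (hω i)]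
    show f (1 / (1 + ∑ k ∈ Finset.range r, c β (ω k))) =
      f (1 / (1 + ∑ i : Finset.range r, c' β ((Finset.range r).restrict ω i)))
    rw [e3]
  · refine Integrable.of_bound hfm.aestronglyMeasurable ‖f‖ (Eventually.of_forall fun z => ?_)
    exact f.norm_coe_le_norm _

theorem main : Pool.Agent.Q222.JD.TaskXCont := by
  intro α β D hβ hD μ μ0 hμ hμ0 hlim f
  have hD' : IsProbabilityMeasure D := hD
  let DD : ProbabilityMeasure (ℝ × ℝ) := ⟨D.prod D, inferInstance⟩
  have hν : Tendsto (fun n => (μ n).prod DD) atTop (𝓝 (μ0.prod DD)) :=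
    (ProbabilityMeasure.continuous_prod.tendsto (μ0, DD)).comp
      (hlim.prodMk_nhds tendsto_const_nhds)
  have hr : ∀ r : ℕ, Tendsto (fun n => ∫ y, G f hβ r y
      ∂(Measure.pi fun _ : Finset.range r => (μ n : Measure ℝ).prod (D.prod D))) atTop
      (𝓝 (∫ y, G f hβ r y
        ∂(Measure.pi fun _ : Finset.range r => (μ0 : Measure ℝ).prod (D.prod D)))) := by
    intro r
    have hpi : Tendsto (fun n => ProbabilityMeasure.pi fun _ : Finset.range r => (μ n).prod DD) atTop
        (𝓝 (ProbabilityMeasure.pi fun _ : Finset.range r => μ0.prod DD)) :=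
      (ProbabilityMeasure.continuous_pi.tendsto _).comp (tendsto_pi_nhds.2 fun _ => hν)
    exact ProbabilityMeasure.tendsto_iff_forall_integral_tendsto.1 hpi (G f hβ r)
  have e : ∀ n, ∫ z, f z ∂(XMap α β D (μ n : Measure ℝ)) = _ := fun n =>
    formula f α hβ D (μ n : Measure ℝ) (hμ n)
  simp only [e]
  rw [formula f α hβ D (μ0 : Measure ℝ) hμ0]
  refine tendsto_integral_of_dominated_convergence (fun _ => ‖f‖) (fun n => ?_) ?_ (fun n => ?_)
    (Eventually.of_forall fun r => hr r)
  · exact Measurable.of_discrete.aestronglyMeasurable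
  · exact integrable_const _
  · refine Eventually.of_forall fun r => ?_
    haveI : IsProbabilityMeasure ((μ n : Measure ℝ).prod (D.prod D)) := inferInstance
    have := norm_integral_le_of_norm_le_const (μ := Measure.pi fun _ : Finset.range r =>
      (μ n : Measure ℝ).prod (D.prod D)) (f := fun y => G f hβ r y) (C := ‖f‖)
      (Eventually.of_forall fun y => f.norm_coe_le_norm _)
    simpa using this

end Pool.Agent.Q222.JD.TaskXCont
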